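import Mathlib
import Pool.Agent.TH525.AG.AngMean

/-! Closed orbits of the family `X + s p` in logarithmic polar coordinates. -/

open Set MeasureTheory Topology Filter
open scoped ENNReal NNReal

namespace Pool.Agent.U588.TR

open Pool.Agent.TH525.PU hiding pt
open Pool.Agent.TH525.AG

/-- `x P + y Q` -/
def rd (X : ℝ × ℝ → ℝ × ℝ) (p : ℝ × ℝ) : ℝ := p.1 * (X p).1 + p.2 * (X p).2

/-- `x Q - y P` -/
def an (X : ℝ × ℝ → ℝ × ℝ) (p : ℝ × ℝ) : ℝ := p.1 * (X p).2 - p.2 * (X p).1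

/-- the divergence -/
noncomputable def dv (X : ℝ × ℝ → ℝ × ℝ) (p : ℝ × ℝ) : ℝ :=
  (fderiv ℝ X p (1, 0)).1 + (fderiv ℝ X p (0, 1)).2

/-- the family `X + s p` -/
def fam (X : ℝ × ℝ → ℝ × ℝ) (s : ℝ) (p : ℝ × ℝ) : ℝ × ℝ := X p + s • p

/-- the right-hand side in logarithmic polar coordinates -/
noncomputable def rhs (X : ℝ × ℝ → ℝ × ℝ) (s t x : ℝ) : ℝ :=
  (rd X (pt t x) + s * Real.exp x ^ 2) / an X (pt t x)

/-- closed solutions in logarithmic polar coordinates -/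
structure Cl (X : ℝ × ℝ → ℝ × ℝ) (A : Set (ℝ × ℝ)) (s : ℝ) (ρ : ℝ → ℝ) : Prop where
  deriv : ∀ t, HasDerivAt ρ (rhs X s t (ρ t)) t
  per : ∀ t, ρ (t + 2 * Real.pi) = ρ t
  mem : ∀ t, pt t (ρ t) ∈ A

variable {X : ℝ × ℝ → ℝ × ℝ} {A : Set (ℝ × ℝ)}

lemma rd_contDiff {n : ℕ∞} (hX : ContDiff ℝ n X) : ContDiff ℝ n (rd X) :=
  (contDiff_fst.mul (contDiff_fst.comp hX)).add (contDiff_snd.mul (contDiff_snd.comp hX))

lemma an_contDiff {n : ℕ∞} (hX : ContDiff ℝ n X) : ContDiff ℝ n (an X) :=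
  (contDiff_fst.mul (contDiff_snd.comp hX)).sub (contDiff_snd.mul (contDiff_fst.comp hX))

lemma pt_contDiff : ContDiff ℝ 1 (fun p : ℝ × ℝ => pt p.1 p.2) := by
  have h1 : ContDiff ℝ 1 (fun p : ℝ × ℝ => (pt p.1 p.2).1) :=
    (Real.contDiff_exp.comp contDiff_snd).mul (Real.contDiff_cos.comp contDiff_fst)
  have h2 : ContDiff ℝ 1 (fun p : ℝ × ℝ => (pt p.1 p.2).2) :=
    (Real.contDiff_exp.comp contDiff_snd).mul (Real.contDiff_sin.comp contDiff_fst)
  exact h1.prodMk h2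

lemma num_contDiff (hX : ContDiff ℝ 1 X) (s : ℝ) :
    ContDiff ℝ 1 (fun p : ℝ × ℝ => rd X (pt p.1 p.2) + s * Real.exp p.2 ^ 2) :=
  ((rd_contDiff (n := 1) hX).comp pt_contDiff).add
    (contDiff_const.mul ((Real.contDiff_exp.comp contDiff_snd).pow 2))

lemma den_contDiff (hX : ContDiff ℝ 1 X) :
    ContDiff ℝ 1 (fun p : ℝ × ℝ => an X (pt p.1 p.2)) :=
  (an_contDiff (n := 1) hX).comp pt_contDiff

lemma rhs_lip (hX : ContDiff ℝ 1 X) (hA : ∀ t, (reg A t).OrdConnected)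
    (hpos : ∀ p ∈ A, 0 < an X p) (s : ℝ) {a b : ℝ}
    {φ ψ : ℝ → ℝ} (hφ : ContinuousOn φ (Icc a b)) (hψ : ContinuousOn ψ (Icc a b))
    (hm : ∀ t ∈ Icc a b, pt t (φ t) ∈ A ∧ pt t (ψ t) ∈ A) :
    ∃ K : ℝ≥0, ∀ t ∈ Icc a b, LipschitzOnWith K (rhs X s t) (uIcc (φ t) (ψ t)) :=
  tube_lip (num_contDiff hX s) (den_contDiff hX) hφ hψ fun t ht x hx =>
    (hpos _ ((hA t).uIcc_subset (hm t ht).1 (hm t ht).2 hx)).ne'

lemma pos_of_an {p : ℝ × ℝ} (h : 0 < an X p) : 0 < p.1 ^ 2 + p.2 ^ 2 := by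
  by_contra hcon
  have h1 : p.1 = 0 := by nlinarith [sq_nonneg p.1, sq_nonneg p.2]
  have h2 : p.2 = 0 := by nlinarith [sq_nonneg p.1, sq_nonneg p.2]
  unfold an at h
  rw [h1, h2] at h
  simp at h

lemma pt_sq (t x : ℝ) : (pt t x).1 ^ 2 + (pt t x).2 ^ 2 = Real.exp x ^ 2 := by
  unfold pt
  have := Real.sin_sq_add_cos_sq t
  calc (Real.exp x * Real.cos t) ^ 2 + (Real.exp x * Real.sin t) ^ 2
      = Real.exp x ^ 2 * (Real.sin t ^ 2 + Real.cos t ^ 2) := by ring
    _ = _ := by rw [this, mul_one]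

lemma rhs_per (s t x : ℝ) : rhs X s (t + 2 * Real.pi) x = rhs X s t x := by
  unfold rhs
  rw [pt_per]

/-- two solutions, one of them shifted by the period -/
theorem uniq_all (hX : ContDiff ℝ 1 X) (hA : ∀ t, (reg A t).OrdConnected)
    (hpos : ∀ p ∈ A, 0 < an X p) {s : ℝ} {φ ψ : ℝ → ℝ}
    (hφ : ∀ t, HasDerivAt φ (rhs X s t (φ t)) t) (hφm : ∀ t, pt t (φ t) ∈ A)
    (hψ : ∀ t, HasDerivAt ψ (rhs X s t (ψ t)) t) (hψm : ∀ t, pt t (ψ t) ∈ A)
    {t₀ : ℝ} (h0 : φ t₀ = ψ t₀) : φ = ψ := by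
  have hφc : Continuous φ := continuous_iff_continuousAt.2 fun t => (hφ t).continuousAt
  have hψc : Continuous ψ := continuous_iff_continuousAt.2 fun t => (hψ t).continuousAt
  funext t
  set a := min t₀ t - 1 with ha
  set b := max t₀ t + 1 with hb
  obtain ⟨K, hK⟩ := rhs_lip hX hA hpos s (a := a) (b := b) hφc.continuousOn hψc.continuousOn
    (fun t _ => ⟨hφm t, hψm t⟩)
  have h1 := ODE_solution_unique_of_mem_Icc (v := rhs X s)
    (s := fun t => uIcc (φ t) (ψ t)) (K := K) (t₀ := t₀)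
    (f := φ) (g := ψ) (a := a) (b := b)
    (fun t ht => hK t (Ioo_subset_Icc_self ht))
    ⟨by rw [ha]; linarith [min_le_left t₀ t], by rw [hb]; linarith [le_max_left t₀ t]⟩
    hφc.continuousOn (fun t _ => hφ t) (fun t _ => left_mem_uIcc)
    hψc.continuousOn (fun t _ => hψ t) (fun t _ => right_mem_uIcc) h0
  exact h1 ⟨by rw [ha]; linarith [min_le_right t₀ t], by rw [hb]; linarith [le_max_right t₀ t]⟩

/-- reduction to logarithmic polar coordinates -/
theorem orbit_cl (hX : ContDiff ℝ 1 X) (hA : ∀ t, (reg A t).OrdConnected)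
    (hpos : ∀ p ∈ A, 0 < an X p) {s : ℝ}
    {C : Set (ℝ × ℝ)} (hC : C ∈ closedOrbitsIn (fam X s) A) :
    ∃ ρ : ℝ → ℝ, Cl X A s ρ ∧ C = curve ρ '' Icc 0 (2 * Real.pi) := by
  obtain ⟨⟨γ, S, hS, hγ, hper, hnc, rfl⟩, hsub⟩ := hC
  have hγA : ∀ t, γ t ∈ A := fun t => hsub ⟨t, rfl⟩
  have hγc : Continuous γ := continuous_iff_continuousAt.2 fun t => (hγ t).continuousAt
  have hrdc : Continuous (rd X) := (rd_contDiff (n := 1) hX).continuous
  have hanc : Continuous (an X) := (an_contDiff (n := 1) hX).continuous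
  set H : ℝ × ℝ → ℝ := fun p => (rd X p + s * (p.1 ^ 2 + p.2 ^ 2)) / an X p with hH
  set q : ℝ × ℝ → ℝ := fun p => an X p / (p.1 ^ 2 + p.2 ^ 2) with hq
  set Y : ℝ × ℝ → ℝ × ℝ := fun p =>
    (- p.2 + p.1 * (H p + 0), p.1 + p.2 * (H p + 0)) with hY
  have hfield : ∀ p ∈ A, fam X s p = q p • Y p := by
    intro p hp
    have h1 := hpos p hp
    have h2 := pos_of_an h1
    have h3 := h1.ne'
    have h4 := h2.ne'
    ext
    · simp only [fam, hq, hY, hH, Prod.smul_fst, Prod.fst_add, smul_eq_mul, add_zero]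
      have : rd X p * p.1 - an X p * p.2 = (p.1 ^ 2 + p.2 ^ 2) * (X p).1 := by
        unfold rd an; ring
      field_simp
      linear_combination (-1) * this
    · simp only [fam, hq, hY, hH, Prod.smul_snd, Prod.snd_add, smul_eq_mul, add_zero]
      have : rd X p * p.2 + an X p * p.1 = (p.1 ^ 2 + p.2 ^ 2) * (X p).2 := by
        unfold rd an; ring
      field_simp
      linear_combination (-1) * this
  have hqpos : ∀ t, 0 < q (γ t) := fun t =>
    div_pos (hpos _ (hγA t)) (pos_of_an (hpos _ (hγA t)))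
  have hqc : Continuous fun t => q (γ t) := by
    refine Continuous.div (hanc.comp hγc) ?_
      (fun t => (pos_of_an (hpos _ (hγA t))).ne')
    exact ((continuous_fst.comp hγc).pow 2).add ((continuous_snd.comp hγc).pow 2)
  obtain ⟨Γ, S', hS', hΓ, hΓper, hrange⟩ := time_change (Y := Y) (q := q)
    (fun t => by rw [← hfield _ (hγA t)]; exact hγ t) hqc hqpos hS hper
  have hΓA : ∀ t, Γ t ∈ A := by
    intro t
    have : Γ t ∈ range γ := hrange ▸ ⟨t, rfl⟩
    exact hsub this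
  have hΓc : Continuous Γ := continuous_iff_continuousAt.2 fun t => (hΓ t).continuousAt
  have hHc : Continuous fun t => H (Γ t) := by
    refine Continuous.div ((hrdc.comp hΓc).add (continuous_const.mul ?_)) (hanc.comp hΓc)
      (fun t => (hpos _ (hΓA t)).ne')
    exact ((continuous_fst.comp hΓc).pow 2).add ((continuous_snd.comp hΓc).pow 2)
  have hnc' : ∃ a b, Γ a ≠ Γ b := by
    obtain ⟨a, b, hab⟩ := hnc
    have ha : γ a ∈ range Γ := by rw [hrange]; exact ⟨a, rfl⟩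
    have hb : γ b ∈ range Γ := by rw [hrange]; exact ⟨b, rfl⟩
    obtain ⟨a', ha'⟩ := ha
    obtain ⟨b', hb'⟩ := hb
    exact ⟨a', b', by rw [ha', hb']; exact hab⟩
  obtain ⟨ρ, θ, hcur, hρ⟩ := polar_aux (H := H) (s := 0) hΓ hHc hnc'
  have hpi := Real.two_pi_pos
  have hmem : ∀ t, pt t (ρ t) ∈ A := by
    intro t
    rw [← curve_eq, hcur t]
    exact hΓA _
  have hρ' : ∀ t, HasDerivAt ρ (rhs X s t (ρ t)) t := by
    intro t
    refine (hρ t).congr_deriv ?_
    rw [add_zero, curve_eq]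
    simp only [hH, rhs]
    rw [pt_sq]
  have hcp : ∀ t, curve ρ (t + S') = curve ρ t := by
    intro t
    rw [hcur, hcur, show t + S' - θ = (t - θ) + S' by ring, hΓper]
  -- the period is a multiple of `2π`
  have hS0 : ρ S' = ρ 0 ∧ Real.cos S' = 1 := by
    have h1 := hcp 0
    rw [zero_add] at h1
    unfold curve at h1
    rw [Real.cos_zero, Real.sin_zero, mul_one, mul_zero] at h1
    have h2 := congrArg Prod.fst h1
    have h3 := congrArg Prod.snd h1
    simp only at h2 h3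
    have h4 : Real.exp (ρ S') ^ 2 = Real.exp (ρ 0) ^ 2 := by
      have := Real.sin_sq_add_cos_sq S'
      calc Real.exp (ρ S') ^ 2 = Real.exp (ρ S') ^ 2 * (Real.sin S' ^ 2 + Real.cos S' ^ 2) := by
            rw [this, mul_one]
        _ = (Real.exp (ρ S') * Real.cos S') ^ 2 + (Real.exp (ρ S') * Real.sin S') ^ 2 := by ring
        _ = _ := by rw [h2, h3]; ring
    have h5 : Real.exp (ρ S') = Real.exp (ρ 0) :=
      (pow_left_inj₀ (Real.exp_pos _).le (Real.exp_pos _).le two_ne_zero).1 h4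
    refine ⟨Real.exp_injective h5, ?_⟩
    rw [h5] at h2
    have := (Real.exp_pos (ρ 0)).ne'
    exact mul_left_cancel₀ this (by rw [h2, mul_one])
  obtain ⟨k, hk⟩ := (Real.cos_eq_one_iff S').1 hS0.2
  have hk0 : 0 < k := by
    by_contra hcon
    push Not at hcon
    have : (k:ℝ) ≤ 0 := by exact_mod_cast hcon
    nlinarith
  have hρ2 : ∀ t, HasDerivAt (fun t => ρ (t + 2 * Real.pi))
      (rhs X s t (ρ (t + 2 * Real.pi))) t := by
    intro t
    have := (hρ' (t + 2 * Real.pi)).comp_add_const t (2 * Real.pi)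
    rwa [rhs_per] at this
  have hρc : Continuous ρ := continuous_iff_continuousAt.2 fun t => (hρ t).continuousAt
  have hρ2c : Continuous fun t => ρ (t + 2 * Real.pi) :=
    hρc.comp (continuous_id.add continuous_const)
  have hmem2 : ∀ t, pt t (ρ (t + 2 * Real.pi)) ∈ A := by
    intro t
    rw [← pt_per]
    exact hmem _
  have huniq : ∀ t₀, ρ (t₀ + 2 * Real.pi) = ρ t₀ → ∀ t, ρ (t + 2 * Real.pi) = ρ t := by
    intro t₀ ht₀ t
    exact congrFun (uniq_all hX hA hpos hρ2 hmem2 hρ' hmem ht₀) t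
  set D : ℝ → ℝ := fun t => ρ (t + 2 * Real.pi) - ρ t with hD
  have hDc : Continuous D := hρ2c.sub hρc
  have hchain : ∀ j : ℕ, ρ (2 * Real.pi * (j + 1)) - ρ 0 =
      ∑ i ∈ Finset.range (j + 1), D (2 * Real.pi * i) := by
    intro j
    induction j with
    | zero => simp [hD]
    | succ j ih =>
      rw [Finset.sum_range_succ, ← ih]
      simp only [hD]
      push_cast
      rw [show 2 * Real.pi * ((j:ℝ) + 1) + 2 * Real.pi = 2 * Real.pi * (j + 1 + 1) by ring]
      ring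
  obtain ⟨j, hj⟩ : ∃ j : ℕ, k = (j:ℤ) + 1 := ⟨(k - 1).toNat, by omega⟩
  have hsum : ∑ i ∈ Finset.range (j + 1), D (2 * Real.pi * i) = 0 := by
    rw [← hchain j]
    have : 2 * Real.pi * ((j:ℝ) + 1) = S' := by
      rw [← hk, hj]; push_cast; ring
    rw [this, hS0.1, sub_self]
  have hzero : ∃ t₀, D t₀ = 0 := by
    by_contra hcon
    push Not at hcon
    rcases lt_or_gt_of_ne (hcon 0) with h0 | h0
    · have hneg : ∀ t, D t < 0 := by
        intro t
        by_contra hc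
        push Not at hc
        obtain ⟨t₀, ht₀⟩ := mem_range_of_exists_le_of_exists_ge hDc ⟨0, h0.le⟩ ⟨t, hc⟩
        exact hcon t₀ ht₀
      have := Finset.sum_neg (s := Finset.range (j + 1)) (f := fun i : ℕ => D (2 * Real.pi * i))
        (fun i _ => hneg _) ⟨0, by simp⟩
      linarith
    · have hpos : ∀ t, 0 < D t := by
        intro t
        by_contra hc
        push Not at hc
        obtain ⟨t₀, ht₀⟩ := mem_range_of_exists_le_of_exists_ge hDc ⟨t, hc⟩ ⟨0, h0.le⟩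
        exact hcon t₀ ht₀
      have := Finset.sum_pos (s := Finset.range (j + 1)) (f := fun i : ℕ => D (2 * Real.pi * i))
        (fun i _ => hpos _) ⟨0, by simp⟩
      linarith
  obtain ⟨t₀, ht₀⟩ := hzero
  have hp := huniq t₀ (by simp only [hD] at ht₀; linarith)
  refine ⟨ρ, ⟨hρ', hp, hmem⟩, ?_⟩
  have h1 : Function.Periodic (curve ρ) (2 * Real.pi) := by
    intro t
    unfold curve
    rw [hp, Real.cos_add_two_pi, Real.sin_add_two_pi]
  have h2 := h1.image_Icc hpi 0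
  rw [zero_add] at h2
  rw [h2, ← hrange]
  ext p
  constructor
  · rintro ⟨t, rfl⟩
    exact ⟨t + θ, by rw [hcur]; simp⟩
  · rintro ⟨t, rfl⟩
    exact ⟨t - θ, (hcur t).symm⟩

lemma Cl.cont {s : ℝ} {ρ : ℝ → ℝ} (h : Cl X A s ρ) : Continuous ρ :=
  continuous_iff_continuousAt.2 fun t => (h.deriv t).continuousAt

lemma rhs_diff {s s' t x : ℝ} : rhs X s' t x - rhs X s t x =
    (s' - s) * (Real.exp x ^ 2 / an X (pt t x)) := by
  unfold rhs
  ring

/-- closed solutions are ordered -/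
theorem ordered' (hX : ContDiff ℝ 1 X) (hA : ∀ t, (reg A t).OrdConnected)
    (hpos : ∀ p ∈ A, 0 < an X p) {s s' : ℝ}
    {φ ψ : ℝ → ℝ} (hφ : Cl X A s φ) (hψ : Cl X A s' ψ)
    (h0 : φ 0 < ψ 0) : ∀ t ∈ Icc 0 (2 * Real.pi), φ t < ψ t := by
  intro t ht
  by_contra hcon
  push Not at hcon
  set h : ℝ → ℝ := fun x => ψ x - φ x with hh
  have hc : Continuous h := hψ.cont.sub hφ.cont
  have hT : 0 < h (2 * Real.pi) := by
    simp only [hh]
    have h1 := hψ.per 0
    have h2 := hφ.per 0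
    rw [zero_add] at h1 h2
    rw [h1, h2]; linarith
  obtain ⟨r, hr, hr0, hrp⟩ := first_zero (h := h) ht.1 hc.continuousOn
    (by simp only [hh]; linarith) (by simp only [hh]; linarith)
  obtain ⟨q, hq, hq0, hqp⟩ := last_zero (h := h) ht.2 hc.continuousOn
    (by simp only [hh]; linarith) hT
  have er : φ r = ψ r := by simp only [hh] at hr0; linarith
  have eq : φ q = ψ q := by simp only [hh] at hq0; linarith
  have d1 : HasDerivWithinAt h ((s' - s) * (Real.exp (ψ r) ^ 2 / an X (pt r (ψ r))))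
      (Icc 0 r) r := by
    have := ((hψ.deriv r).sub (hφ.deriv r))
    rw [er, rhs_diff] at this
    exact this.hasDerivWithinAt
  have d2 : HasDerivWithinAt h ((s' - s) * (Real.exp (ψ q) ^ 2 / an X (pt q (ψ q))))
      (Icc q (2 * Real.pi)) q := by
    have := ((hψ.deriv q).sub (hφ.deriv q))
    rw [eq, rhs_diff] at this
    exact this.hasDerivWithinAt
  have i1 := deriv_nonpos_left hr.1 d1 (fun x hx => by rw [hr0]; exact (hrp x hx).le)
  have i2 := deriv_nonneg_right hq.2 d2 (fun x hx => by rw [hq0]; exact (hqp x hx).le)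
  have c1 : 0 < Real.exp (ψ r) ^ 2 / an X (pt r (ψ r)) :=
    div_pos (by positivity) (hpos _ (hψ.mem r))
  have c2 : 0 < Real.exp (ψ q) ^ 2 / an X (pt q (ψ q)) :=
    div_pos (by positivity) (hpos _ (hψ.mem q))
  have es : s' = s := by
    have j1 : s' - s ≤ 0 := by
      by_contra hcc; push Not at hcc
      have := mul_pos hcc c1; linarith
    have j2 : 0 ≤ s' - s := by
      by_contra hcc; push Not at hcc
      have := mul_neg_of_neg_of_pos hcc c2; linarith
    linarith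
  subst es
  have hu := uniq_all hX hA hpos hφ.deriv hφ.mem hψ.deriv hψ.mem er
  have := congrFun hu 0
  linarith

lemma not_lt_of_eq' (hpos : ∀ p ∈ A, 0 < an X p) {s s' : ℝ}
    {φ ψ : ℝ → ℝ} (hφ : Cl X A s φ) (hψ : Cl X A s' ψ)
    (h0 : φ 0 = ψ 0) : ¬ s < s' := by
  intro hs
  have hpi := Real.two_pi_pos
  set h : ℝ → ℝ := fun x => ψ x - φ x with hh
  have hc : Continuous h := hψ.cont.sub hφ.cont
  have h00 : h 0 = 0 := by simp only [hh]; linarith
  have hTT : h (2 * Real.pi) = 0 := by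
    simp only [hh]
    have h1 := hψ.per 0
    have h2 := hφ.per 0
    rw [zero_add] at h1 h2
    rw [h1, h2]; linarith
  have hd : ∀ r, h r = 0 → ∃ c, 0 < c ∧ HasDerivAt h c r := by
    intro r hr0
    have er : φ r = ψ r := by simp only [hh] at hr0; linarith
    have := ((hψ.deriv r).sub (hφ.deriv r))
    rw [er, rhs_diff] at this
    exact ⟨_, mul_pos (by linarith) (div_pos (by positivity) (hpos _ (hψ.mem r))), this⟩
  have hposx : ∃ x ∈ Icc 0 (2 * Real.pi), 0 < h x := by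
    by_contra hcon
    push Not at hcon
    obtain ⟨c, hc0, d0⟩ := hd 0 h00
    have := deriv_nonneg_right (h := fun x => - h x) hpi (d0.neg.hasDerivWithinAt)
      (fun x hx => by
        have := hcon x ⟨hx.1.le, hx.2⟩
        rw [h00]; linarith)
    linarith
  obtain ⟨x, hx, hxp⟩ := hposx
  obtain ⟨r, hr, hr0, hrp⟩ := first_zero (h := h) hx.2 hc.continuousOn hxp hTT.le
  obtain ⟨c, hc0, d1⟩ := hd r hr0
  have i1 := deriv_nonpos_left hr.1 (d1.hasDerivWithinAt (s := Icc x r))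
    (fun y hy => by rw [hr0]; exact (hrp y hy).le)
  linarith

theorem eq_param' (hpos : ∀ p ∈ A, 0 < an X p) {s s' : ℝ}
    {φ ψ : ℝ → ℝ} (hφ : Cl X A s φ) (hψ : Cl X A s' ψ)
    (h0 : φ 0 = ψ 0) : s = s' := by
  rcases lt_trichotomy s s' with h | h | h
  · exact absurd h (not_lt_of_eq' hpos hφ hψ h0)
  · exact h
  · exact absurd h (not_lt_of_eq' hpos hψ hφ h0.symm)

theorem eq_sol' (hX : ContDiff ℝ 1 X) (hA : ∀ t, (reg A t).OrdConnected)
    (hpos : ∀ p ∈ A, 0 < an X p) {s s' : ℝ}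
    {φ ψ : ℝ → ℝ} (hφ : Cl X A s φ) (hψ : Cl X A s' ψ)
    (h0 : φ 0 = ψ 0) : φ = ψ := by
  have es := eq_param' hpos hφ hψ h0
  subst es
  exact uniq_all hX hA hpos hφ.deriv hφ.mem hψ.deriv hψ.mem h0

end Pool.Agent.U588.TR
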