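import Mathlib
import Pool.Agent.U588.TR.TR1

/-! Green's formula between two curves which are graphs in polar coordinates. -/

open Set MeasureTheory Topology Filter
open scoped ENNReal NNReal

namespace Pool.Agent.U588.TR

section green

variable {X : ℝ × ℝ → ℝ × ℝ} {r₁ r₂ d₁ d₂ : ℝ → ℝ}

/-- interpolated radius -/
def rl (r₁ r₂ : ℝ → ℝ) (l t : ℝ) : ℝ := (1 - l) * r₁ t + l * r₂ t

/-- interpolated point -/
noncomputable def pp (r₁ r₂ : ℝ → ℝ) (l t : ℝ) : ℝ × ℝ :=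
  (rl r₁ r₂ l t * Real.cos t, rl r₁ r₂ l t * Real.sin t)

/-- radial component -/
noncomputable def ra (X : ℝ × ℝ → ℝ × ℝ) (t : ℝ) (p : ℝ × ℝ) : ℝ :=
  (X p).1 * Real.cos t + (X p).2 * Real.sin t

/-- angular component -/
noncomputable def ta (X : ℝ × ℝ → ℝ × ℝ) (t : ℝ) (p : ℝ × ℝ) : ℝ :=
  (X p).2 * Real.cos t - (X p).1 * Real.sin t

lemma lin_exp (L : ℝ × ℝ →L[ℝ] ℝ × ℝ) (x y : ℝ) :
    L (x, y) = x • L (1, 0) + y • L (0, 1) := by
  rw [← map_smul, ← map_smul, ← map_add]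
  congr 1
  simp

/-- derivative in `l` of the flux density -/
noncomputable def Dl (X : ℝ × ℝ → ℝ × ℝ) (r₁ r₂ d₁ d₂ : ℝ → ℝ) (l t : ℝ) : ℝ :=
  let p := pp r₁ r₂ l t
  let a := fderiv ℝ X p (1, 0)
  let b := fderiv ℝ X p (0, 1)
  let c := Real.cos t
  let σ := Real.sin t
  let e1 := c * a.1 + σ * b.1
  let e2 := c * a.2 + σ * b.2
  (r₂ t - r₁ t) * ra X t p + rl r₁ r₂ l t * ((r₂ t - r₁ t) * (e1 * c + e2 * σ))
    - ((d₂ t - d₁ t) * ta X t p + rl d₁ d₂ l t * ((r₂ t - r₁ t) * (e2 * c - e1 * σ)))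

/-- derivative in `t` -/
noncomputable def Wt (X : ℝ × ℝ → ℝ × ℝ) (r₁ r₂ d₁ d₂ : ℝ → ℝ) (l t : ℝ) : ℝ :=
  let p := pp r₁ r₂ l t
  let a := fderiv ℝ X p (1, 0)
  let b := fderiv ℝ X p (0, 1)
  let c := Real.cos t
  let σ := Real.sin t
  let vx := rl d₁ d₂ l t * c - rl r₁ r₂ l t * σ
  let vy := rl d₁ d₂ l t * σ + rl r₁ r₂ l t * c
  let f1 := vx * a.1 + vy * b.1
  let f2 := vx * a.2 + vy * b.2
  (f2 * c - (X p).2 * σ - (f1 * σ + (X p).1 * c)) * (r₂ t - r₁ t) + ta X t p * (d₂ t - d₁ t)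

lemma sum_DW (l t : ℝ) : Dl X r₁ r₂ d₁ d₂ l t + Wt X r₁ r₂ d₁ d₂ l t =
    dv X (pp r₁ r₂ l t) * rl r₁ r₂ l t * (r₂ t - r₁ t) := by
  unfold Dl Wt dv ra ta
  simp only
  set a := fderiv ℝ X (pp r₁ r₂ l t) (1, 0) with ha
  set b := fderiv ℝ X (pp r₁ r₂ l t) (0, 1) with hb
  set c := Real.cos t with hc
  set σ := Real.sin t with hσ
  have h1 : σ ^ 2 + c ^ 2 = 1 := Real.sin_sq_add_cos_sq t
  linear_combination ((a.1 + b.2) * rl r₁ r₂ l t * (r₂ t - r₁ t)) * h1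

lemma dfst {f : ℝ → ℝ × ℝ} {f' : ℝ × ℝ} {x : ℝ} (h : HasDerivAt f f' x) :
    HasDerivAt (fun x => (f x).1) f'.1 x := h.fst

lemma dsnd {f : ℝ → ℝ × ℝ} {f' : ℝ × ℝ} {x : ℝ} (h : HasDerivAt f f' x) :
    HasDerivAt (fun x => (f x).2) f'.2 x := h.snd

lemma hasDeriv_l (hX : ContDiff ℝ 1 X) (l t : ℝ) :
    HasDerivAt (fun l => rl r₁ r₂ l t * ra X t (pp r₁ r₂ l t) -
      rl d₁ d₂ l t * ta X t (pp r₁ r₂ l t)) (Dl X r₁ r₂ d₁ d₂ l t) l := by
  have h1 : ∀ f g : ℝ → ℝ, HasDerivAt (fun l => rl f g l t) (g t - f t) l := by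
    intro f g
    unfold rl
    have := (((hasDerivAt_id l).const_sub 1).mul_const (f t)).add
      ((hasDerivAt_id l).mul_const (g t))
    refine this.congr_deriv ?_
    ring
  have h2 : HasDerivAt (fun l => pp r₁ r₂ l t)
      ((r₂ t - r₁ t) * Real.cos t, (r₂ t - r₁ t) * Real.sin t) l :=
    ((h1 r₁ r₂).mul_const _).prodMk ((h1 r₁ r₂).mul_const _)
  have h3 := ((hX.differentiable (by simp) (pp r₁ r₂ l t)).hasFDerivAt).comp_hasDerivAt l h2
  rw [lin_exp] at h3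
  have h4 := dfst h3
  have h5 := dsnd h3
  have h6 := ((h1 r₁ r₂).mul ((h4.mul_const (Real.cos t)).add (h5.mul_const (Real.sin t)))).sub
    ((h1 d₁ d₂).mul ((h5.mul_const (Real.cos t)).sub (h4.mul_const (Real.sin t))))
  refine h6.congr_deriv ?_
  unfold Dl ra ta
  simp only [Prod.fst_add, Prod.snd_add, Prod.smul_fst, Prod.smul_snd, smul_eq_mul,
    Function.comp_apply, Pi.add_apply, Pi.sub_apply, Pi.mul_apply]
  ring

lemma hasDeriv_t (hX : ContDiff ℝ 1 X) (h₁ : ∀ t, HasDerivAt r₁ (d₁ t) t)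
    (h₂ : ∀ t, HasDerivAt r₂ (d₂ t) t) (l t : ℝ) :
    HasDerivAt (fun t => ta X t (pp r₁ r₂ l t) * (r₂ t - r₁ t)) (Wt X r₁ r₂ d₁ d₂ l t) t := by
  have h1 : HasDerivAt (fun t => rl r₁ r₂ l t) (rl d₁ d₂ l t) t :=
    ((h₁ t).const_mul (1 - l)).add ((h₂ t).const_mul l)
  have h2 : HasDerivAt (fun t => pp r₁ r₂ l t)
      (rl d₁ d₂ l t * Real.cos t - rl r₁ r₂ l t * Real.sin t,
        rl d₁ d₂ l t * Real.sin t + rl r₁ r₂ l t * Real.cos t) t := by
    refine HasDerivAt.prodMk ?_ ?_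
    · refine (h1.mul (Real.hasDerivAt_cos t)).congr_deriv ?_
      ring
    · exact h1.mul (Real.hasDerivAt_sin t)
  have h3 := ((hX.differentiable (by simp) (pp r₁ r₂ l t)).hasFDerivAt).comp_hasDerivAt t h2
  rw [lin_exp] at h3
  have h4 := dfst h3
  have h5 := dsnd h3
  have h6 := ((h5.mul (Real.hasDerivAt_cos t)).sub (h4.mul (Real.hasDerivAt_sin t))).mul
    ((h₂ t).sub (h₁ t))
  refine h6.congr_deriv ?_
  unfold Wt ta
  simp only [Prod.fst_add, Prod.snd_add, Prod.smul_fst, Prod.smul_snd, smul_eq_mul,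
    Function.comp_apply, Pi.add_apply, Pi.sub_apply, Pi.mul_apply]
  ring

lemma rl_cont (h₁ : Continuous r₁) (h₂ : Continuous r₂) :
    Continuous (fun p : ℝ × ℝ => rl r₁ r₂ p.1 p.2) :=
  ((continuous_const.sub continuous_fst).mul (h₁.comp continuous_snd)).add
    (continuous_fst.mul (h₂.comp continuous_snd))

lemma pp_cont (h₁ : Continuous r₁) (h₂ : Continuous r₂) :
    Continuous (fun p : ℝ × ℝ => pp r₁ r₂ p.1 p.2) :=
  ((rl_cont h₁ h₂).mul (Real.continuous_cos.comp continuous_snd)).prodMk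
    ((rl_cont h₁ h₂).mul (Real.continuous_sin.comp continuous_snd))

lemma fd_cont (hX : ContDiff ℝ 1 X) (v : ℝ × ℝ) : Continuous (fun p => fderiv ℝ X p v) :=
  (hX.continuous_fderiv (by simp)).clm_apply continuous_const

lemma dv_cont (hX : ContDiff ℝ 1 X) : Continuous (dv X) :=
  (continuous_fst.comp (fd_cont hX _)).add (continuous_snd.comp (fd_cont hX _))

lemma D_cont (hX : ContDiff ℝ 1 X) (h₁ : Continuous r₁) (h₂ : Continuous r₂)
    (k₁ : Continuous d₁) (k₂ : Continuous d₂) :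
    Continuous (fun p : ℝ × ℝ => Dl X r₁ r₂ d₁ d₂ p.1 p.2) := by
  have hp := pp_cont h₁ h₂
  have hr := rl_cont h₁ h₂
  have hd := rl_cont k₁ k₂
  have ha := (fd_cont hX (1, 0)).comp hp
  have hb := (fd_cont hX (0, 1)).comp hp
  have hXp := hX.continuous.comp hp
  have hc : Continuous (fun p : ℝ × ℝ => Real.cos p.2) := Real.continuous_cos.comp continuous_snd
  have hs : Continuous (fun p : ℝ × ℝ => Real.sin p.2) := Real.continuous_sin.comp continuous_snd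
  have h1 : Continuous (fun p : ℝ × ℝ => r₁ p.2) := h₁.comp continuous_snd
  have h2 : Continuous (fun p : ℝ × ℝ => r₂ p.2) := h₂.comp continuous_snd
  have h3 : Continuous (fun p : ℝ × ℝ => d₁ p.2) := k₁.comp continuous_snd
  have h4 : Continuous (fun p : ℝ × ℝ => d₂ p.2) := k₂.comp continuous_snd
  have a1 := continuous_fst.comp ha
  have a2 := continuous_snd.comp ha
  have b1 := continuous_fst.comp hb
  have b2 := continuous_snd.comp hb
  have x1 := continuous_fst.comp hXp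
  have x2 := continuous_snd.comp hXp
  unfold Dl ra ta
  simp only
  simp only [Function.comp_def] at a1 a2 b1 b2 x1 x2
  fun_prop

lemma W_cont (hX : ContDiff ℝ 1 X) (h₁ : Continuous r₁) (h₂ : Continuous r₂)
    (k₁ : Continuous d₁) (k₂ : Continuous d₂) :
    Continuous (fun p : ℝ × ℝ => Wt X r₁ r₂ d₁ d₂ p.1 p.2) := by
  have hp := pp_cont h₁ h₂
  have hr := rl_cont h₁ h₂
  have hd := rl_cont k₁ k₂
  have ha := (fd_cont hX (1, 0)).comp hp
  have hb := (fd_cont hX (0, 1)).comp hp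
  have hXp := hX.continuous.comp hp
  have hc : Continuous (fun p : ℝ × ℝ => Real.cos p.2) := Real.continuous_cos.comp continuous_snd
  have hs : Continuous (fun p : ℝ × ℝ => Real.sin p.2) := Real.continuous_sin.comp continuous_snd
  have h1 : Continuous (fun p : ℝ × ℝ => r₁ p.2) := h₁.comp continuous_snd
  have h2 : Continuous (fun p : ℝ × ℝ => r₂ p.2) := h₂.comp continuous_snd
  have h3 : Continuous (fun p : ℝ × ℝ => d₁ p.2) := k₁.comp continuous_snd
  have h4 : Continuous (fun p : ℝ × ℝ => d₂ p.2) := k₂.comp continuous_snd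
  have a1 := continuous_fst.comp ha
  have a2 := continuous_snd.comp ha
  have b1 := continuous_fst.comp hb
  have b2 := continuous_snd.comp hb
  have x1 := continuous_fst.comp hXp
  have x2 := continuous_snd.comp hXp
  unfold Wt ta
  simp only
  simp only [Function.comp_def] at a1 a2 b1 b2 x1 x2
  fun_prop

lemma swap_int {F : ℝ → ℝ → ℝ} (hF : Continuous (fun p : ℝ × ℝ => F p.1 p.2)) (a b c d : ℝ) :
    ∫ x in a..b, ∫ y in c..d, F x y = ∫ y in c..d, ∫ x in a..b, F x y := by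
  refine intervalIntegral_intervalIntegral_swap ?_
  have h1 : IntegrableOn (Function.uncurry F) (uIcc a b ×ˢ uIcc c d) volume := by
    refine ContinuousOn.integrableOn_compact (isCompact_uIcc.prod isCompact_uIcc) ?_
    exact hF.continuousOn
  exact h1.mono_set (prod_mono uIoc_subset_uIcc uIoc_subset_uIcc)

lemma slice_l {F : ℝ → ℝ → ℝ} (hF : Continuous (fun p : ℝ × ℝ => F p.1 p.2)) (t : ℝ) :
    Continuous (fun l => F l t) :=
  hF.comp (g := fun p : ℝ × ℝ => F p.1 p.2) (f := fun l => ((l, t) : ℝ × ℝ))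
    (continuous_id.prodMk continuous_const)

lemma slice_t {F : ℝ → ℝ → ℝ} (hF : Continuous (fun p : ℝ × ℝ => F p.1 p.2)) (l : ℝ) :
    Continuous (fun t => F l t) :=
  hF.comp (g := fun p : ℝ × ℝ => F p.1 p.2) (f := fun t => ((l, t) : ℝ × ℝ))
    (continuous_const.prodMk continuous_id)

lemma slice_int {F : ℝ → ℝ → ℝ} (hF : Continuous (fun p : ℝ × ℝ => F p.1 p.2)) (a b : ℝ) :
    Continuous (fun t => ∫ l in a..b, F l t) :=
  intervalIntegral.continuous_parametric_intervalIntegral_of_continuous'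
      (f := fun t l => F l t)
      (hF.comp (g := fun p : ℝ × ℝ => F p.1 p.2) (f := fun p : ℝ × ℝ => ((p.2, p.1) : ℝ × ℝ))
        (continuous_snd.prodMk continuous_fst)) a b

/-- **Green's formula.** -/
theorem green (hX : ContDiff ℝ 1 X) (h₁ : ∀ t, HasDerivAt r₁ (d₁ t) t)
    (h₂ : ∀ t, HasDerivAt r₂ (d₂ t) t) (k₁ : Continuous d₁) (k₂ : Continuous d₂)
    (p₁ : r₁ (2 * Real.pi) = r₁ 0) (p₂ : r₂ (2 * Real.pi) = r₂ 0) :
    ∫ t in (0:ℝ)..(2 * Real.pi),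
      ((r₂ t * ra X t (r₂ t * Real.cos t, r₂ t * Real.sin t) -
          d₂ t * ta X t (r₂ t * Real.cos t, r₂ t * Real.sin t)) -
        (r₁ t * ra X t (r₁ t * Real.cos t, r₁ t * Real.sin t) -
          d₁ t * ta X t (r₁ t * Real.cos t, r₁ t * Real.sin t))) =
    ∫ t in (0:ℝ)..(2 * Real.pi), ∫ l in (0:ℝ)..1,
      dv X (pp r₁ r₂ l t) * rl r₁ r₂ l t * (r₂ t - r₁ t) := by
  have c₁ : Continuous r₁ := continuous_iff_continuousAt.2 fun t => (h₁ t).continuousAt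
  have c₂ : Continuous r₂ := continuous_iff_continuousAt.2 fun t => (h₂ t).continuousAt
  have hD := D_cont hX c₁ c₂ k₁ k₂
  have hW := W_cont hX c₁ c₂ k₁ k₂
  have hDl : ∀ t, Continuous (fun l => Dl X r₁ r₂ d₁ d₂ l t) := fun t => slice_l hD t
  have hWl : ∀ t, Continuous (fun l => Wt X r₁ r₂ d₁ d₂ l t) := fun t => slice_l hW t
  have hWt : ∀ l, Continuous (fun t => Wt X r₁ r₂ d₁ d₂ l t) := fun l => slice_t hW l
  have e1 : ∀ t, ((r₂ t * ra X t (r₂ t * Real.cos t, r₂ t * Real.sin t) -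
          d₂ t * ta X t (r₂ t * Real.cos t, r₂ t * Real.sin t)) -
        (r₁ t * ra X t (r₁ t * Real.cos t, r₁ t * Real.sin t) -
          d₁ t * ta X t (r₁ t * Real.cos t, r₁ t * Real.sin t))) =
      ∫ l in (0:ℝ)..1, Dl X r₁ r₂ d₁ d₂ l t := by
    intro t
    have := intervalIntegral.integral_eq_sub_of_hasDerivAt (a := 0) (b := 1)
      (f := fun l => rl r₁ r₂ l t * ra X t (pp r₁ r₂ l t) - rl d₁ d₂ l t * ta X t (pp r₁ r₂ l t))
      (f' := fun l => Dl X r₁ r₂ d₁ d₂ l t) (fun l _ => hasDeriv_l hX l t)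
      ((hDl t).intervalIntegrable _ _)
    rw [this]
    simp [rl, pp]
  have e2 : ∀ l, ∫ t in (0:ℝ)..(2 * Real.pi), Wt X r₁ r₂ d₁ d₂ l t = 0 := by
    intro l
    have := intervalIntegral.integral_eq_sub_of_hasDerivAt (a := 0) (b := 2 * Real.pi)
      (f := fun t => ta X t (pp r₁ r₂ l t) * (r₂ t - r₁ t))
      (f' := fun t => Wt X r₁ r₂ d₁ d₂ l t) (fun t _ => hasDeriv_t hX h₁ h₂ l t)
      ((hWt l).intervalIntegrable _ _)
    rw [this]
    unfold ta pp rl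
    rw [p₁, p₂, Real.cos_two_pi, Real.sin_two_pi, Real.cos_zero, Real.sin_zero]
    ring
  have e3 : ∫ t in (0:ℝ)..(2 * Real.pi), ∫ l in (0:ℝ)..1, Wt X r₁ r₂ d₁ d₂ l t = 0 := by
    rw [← swap_int (F := fun l t => Wt X r₁ r₂ d₁ d₂ l t) hW]
    simp [e2]
  have hDi : Continuous (fun t => ∫ l in (0:ℝ)..1, Dl X r₁ r₂ d₁ d₂ l t) := slice_int hD 0 1
  have hWi : Continuous (fun t => ∫ l in (0:ℝ)..1, Wt X r₁ r₂ d₁ d₂ l t) := slice_int hW 0 1
  calc _ = ∫ t in (0:ℝ)..(2 * Real.pi), ∫ l in (0:ℝ)..1, Dl X r₁ r₂ d₁ d₂ l t := by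
        exact intervalIntegral.integral_congr fun t _ => e1 t
    _ = (∫ t in (0:ℝ)..(2 * Real.pi), ∫ l in (0:ℝ)..1, Dl X r₁ r₂ d₁ d₂ l t) +
        ∫ t in (0:ℝ)..(2 * Real.pi), ∫ l in (0:ℝ)..1, Wt X r₁ r₂ d₁ d₂ l t := by
        rw [e3, add_zero]
    _ = ∫ t in (0:ℝ)..(2 * Real.pi), ((∫ l in (0:ℝ)..1, Dl X r₁ r₂ d₁ d₂ l t) +
        ∫ l in (0:ℝ)..1, Wt X r₁ r₂ d₁ d₂ l t) := by
        rw [intervalIntegral.integral_add (hDi.intervalIntegrable _ _)
          (hWi.intervalIntegrable _ _)]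
    _ = _ := by
        refine intervalIntegral.integral_congr fun t _ => ?_
        rw [← intervalIntegral.integral_add ((hDl t).intervalIntegrable _ _)
          ((hWl t).intervalIntegrable _ _)]
        exact intervalIntegral.integral_congr fun l _ => sum_DW l t

end green

end Pool.Agent.U588.TR
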