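import Mathlib
import Pool.Agent.U588.TR.TR2

/-! The parameter is a Lipschitz function of the logarithm of the area. -/

open Set MeasureTheory Topology Filter
open scoped ENNReal NNReal

namespace Pool.Agent.U588.TR

open Pool.Agent.TH525.PU hiding pt
open Pool.Agent.TH525.AG

variable {X : ℝ × ℝ → ℝ × ℝ} {A : Set (ℝ × ℝ)}

lemma fam_contDiff (hX : ContDiff ℝ 1 X) (s : ℝ) : ContDiff ℝ 1 (fam X s) := by
  have h1 : ContDiff ℝ 1 (fun p : ℝ × ℝ => s • p) := contDiff_id.const_smul s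
  exact hX.add h1

lemma dv_fam (hX : ContDiff ℝ 1 X) (s : ℝ) (p : ℝ × ℝ) : dv (fam X s) p = dv X p + 2 * s := by
  have h1 : HasFDerivAt (fam X s) (fderiv ℝ X p + s • ContinuousLinearMap.id ℝ (ℝ × ℝ)) p := by
    have h2 := (hX.differentiable (by simp) p).hasFDerivAt
    have h3 : HasFDerivAt (fun p : ℝ × ℝ => s • p) (s • ContinuousLinearMap.id ℝ (ℝ × ℝ)) p :=
      (hasFDerivAt_id p).const_smul s
    exact h2.add h3
  unfold dv
  rw [h1.fderiv]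
  simp
  ring

/-- twice the area -/
noncomputable def En (ρ : ℝ → ℝ) : ℝ := ∫ t in (0:ℝ)..(2 * Real.pi), Real.exp (ρ t) ^ 2

/-- derivative of the radius -/
noncomputable def dr (X : ℝ × ℝ → ℝ × ℝ) (s : ℝ) (ρ : ℝ → ℝ) (t : ℝ) : ℝ :=
  Real.exp (ρ t) * rhs X s t (ρ t)

lemma Cl.hr {s : ℝ} {ρ : ℝ → ℝ} (h : Cl X A s ρ) (t : ℝ) :
    HasDerivAt (fun t => Real.exp (ρ t)) (dr X s ρ t) t := (h.deriv t).exp

lemma Cl.rcont {s : ℝ} {ρ : ℝ → ℝ} (h : Cl X A s ρ) : Continuous (fun t => Real.exp (ρ t)) :=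
  Real.continuous_exp.comp h.cont

lemma Cl.ptcont {s : ℝ} {ρ : ℝ → ℝ} (h : Cl X A s ρ) : Continuous (fun t => pt t (ρ t)) :=
  (h.rcont.mul Real.continuous_cos).prodMk (h.rcont.mul Real.continuous_sin)

lemma Cl.drcont (hX : ContDiff ℝ 1 X) (hpos : ∀ p ∈ A, 0 < an X p)
    {s : ℝ} {ρ : ℝ → ℝ} (h : Cl X A s ρ) : Continuous (dr X s ρ) := by
  unfold dr rhs
  refine h.rcont.mul (Continuous.div ?_ ?_ (fun t => (hpos _ (h.mem t)).ne'))
  · exact (((rd_contDiff (n := 1) hX).continuous).comp h.ptcont).add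
      (continuous_const.mul (h.rcont.pow 2))
  · exact ((an_contDiff (n := 1) hX).continuous).comp h.ptcont

lemma rd_eq (t x : ℝ) : rd X (pt t x) = Real.exp x * ra X t (pt t x) := by
  unfold rd ra
  simp only [pt]
  ring

lemma an_eq (t x : ℝ) : an X (pt t x) = Real.exp x * ta X t (pt t x) := by
  unfold an ta
  simp only [pt]
  ring

lemma ra_fam (s' : ℝ) (t x : ℝ) :
    ra (fam X s') t (pt t x) = ra X t (pt t x) + s' * Real.exp x := by
  unfold ra fam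
  simp only [pt, Prod.fst_add, Prod.snd_add, Prod.smul_fst, Prod.smul_snd, smul_eq_mul]
  have := Real.sin_sq_add_cos_sq t
  linear_combination (s' * Real.exp x) * this

lemma ta_fam (s' : ℝ) (t x : ℝ) :
    ta (fam X s') t (pt t x) = ta X t (pt t x) := by
  unfold ta fam
  simp only [pt, Prod.fst_add, Prod.snd_add, Prod.smul_fst, Prod.smul_snd, smul_eq_mul]
  ring

/-- the flux of `X + s' p` through a closed orbit of `X + s p` -/
lemma flux (hpos : ∀ p ∈ A, 0 < an X p) {s : ℝ} {ρ : ℝ → ℝ} (h : Cl X A s ρ) (s' t : ℝ) :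
    Real.exp (ρ t) * ra (fam X s') t (Real.exp (ρ t) * Real.cos t, Real.exp (ρ t) * Real.sin t) -
      dr X s ρ t * ta (fam X s') t (Real.exp (ρ t) * Real.cos t, Real.exp (ρ t) * Real.sin t) =
    (s' - s) * Real.exp (ρ t) ^ 2 := by
  have e1 : ((Real.exp (ρ t) * Real.cos t, Real.exp (ρ t) * Real.sin t) : ℝ × ℝ) = pt t (ρ t) := rfl
  rw [e1, ra_fam, ta_fam]
  have h1 := hpos _ (h.mem t)
  have h2 := rd_eq (X := X) t (ρ t)
  have h3 := an_eq (X := X) t (ρ t)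
  unfold dr rhs
  have h4 : Real.exp (ρ t) * ((rd X (pt t (ρ t)) + s * Real.exp (ρ t) ^ 2) / an X (pt t (ρ t))) *
      ta X t (pt t (ρ t)) = rd X (pt t (ρ t)) + s * Real.exp (ρ t) ^ 2 := by
    have : Real.exp (ρ t) * ((rd X (pt t (ρ t)) + s * Real.exp (ρ t) ^ 2) / an X (pt t (ρ t))) *
      ta X t (pt t (ρ t)) = (rd X (pt t (ρ t)) + s * Real.exp (ρ t) ^ 2) *
        ((Real.exp (ρ t) * ta X t (pt t (ρ t))) / an X (pt t (ρ t))) := by ring
    rw [this, ← h3, div_self h1.ne', mul_one]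
  rw [h4, h2]
  ring

lemma Cl.esq {s : ℝ} {ρ : ℝ → ℝ} (h : Cl X A s ρ) :
    Continuous (fun t => Real.exp (ρ t) ^ 2) := h.rcont.pow 2

/-- **The flux identity** for two closed orbits. -/
theorem flux_two (hX : ContDiff ℝ 1 X) (hpos : ∀ p ∈ A, 0 < an X p) {s₁ s₂ : ℝ} {φ ψ : ℝ → ℝ}
    (hφ : Cl X A s₁ φ) (hψ : Cl X A s₂ ψ) :
    (s₁ - s₂) * En ψ = ∫ t in (0:ℝ)..(2 * Real.pi), ∫ l in (0:ℝ)..1,
      dv (fam X s₁) (pp (fun t => Real.exp (φ t)) (fun t => Real.exp (ψ t)) l t) *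
        rl (fun t => Real.exp (φ t)) (fun t => Real.exp (ψ t)) l t *
          (Real.exp (ψ t) - Real.exp (φ t)) := by
  have h1 := hψ.per 0
  have h2 := hφ.per 0
  rw [zero_add] at h1 h2
  have := green (X := fam X s₁) (r₁ := fun t => Real.exp (φ t)) (r₂ := fun t => Real.exp (ψ t))
    (fam_contDiff hX s₁) hφ.hr hψ.hr (hφ.drcont hX hpos) (hψ.drcont hX hpos)
    (by rw [h2]) (by rw [h1])
  rw [← this]
  unfold En
  rw [← intervalIntegral.integral_const_mul]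
  refine intervalIntegral.integral_congr fun t _ => ?_
  rw [flux hpos hψ, flux hpos hφ]
  ring

/-- **The flux identity** for one closed orbit. -/
theorem flux_one (hX : ContDiff ℝ 1 X) (hpos : ∀ p ∈ A, 0 < an X p) {s : ℝ} {ψ : ℝ → ℝ}
    (hψ : Cl X A s ψ) (s' : ℝ) :
    (s' - s) * En ψ = ∫ t in (0:ℝ)..(2 * Real.pi), ∫ l in (0:ℝ)..1,
      dv (fam X s') (pp (fun _ => 0) (fun t => Real.exp (ψ t)) l t) *
        rl (fun _ => 0) (fun t => Real.exp (ψ t)) l t * (Real.exp (ψ t) - 0) := by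
  have h1 := hψ.per 0
  rw [zero_add] at h1
  have := green (X := fam X s') (r₁ := fun _ => 0) (r₂ := fun t => Real.exp (ψ t))
    (d₁ := fun _ => 0)
    (fam_contDiff hX s') (fun t => hasDerivAt_const t 0) hψ.hr continuous_const
    (hψ.drcont hX hpos) rfl (by rw [h1])
  rw [← this]
  unfold En
  rw [← intervalIntegral.integral_const_mul]
  refine intervalIntegral.integral_congr fun t _ => ?_
  rw [flux hpos hψ]
  ring

lemma inner_int (r₁ r₂ : ℝ → ℝ) (t : ℝ) :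
    ∫ l in (0:ℝ)..1, rl r₁ r₂ l t * (r₂ t - r₁ t) = (r₂ t ^ 2 - r₁ t ^ 2) / 2 := by
  have h1 : ∀ l ∈ uIcc (0:ℝ) 1, HasDerivAt (fun l => rl r₁ r₂ l t ^ 2 / 2)
      (rl r₁ r₂ l t * (r₂ t - r₁ t)) l := by
    intro l _
    have h2 : HasDerivAt (fun l => rl r₁ r₂ l t) (r₂ t - r₁ t) l := by
      unfold rl
      have := (((hasDerivAt_id l).const_sub 1).mul_const (r₁ t)).add
        ((hasDerivAt_id l).mul_const (r₂ t))
      refine this.congr_deriv ?_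
      ring
    refine ((h2.pow 2).div_const 2).congr_deriv ?_
    simp
    ring
  have h3 : Continuous (fun l => rl r₁ r₂ l t * (r₂ t - r₁ t)) := by
    unfold rl
    fun_prop
  rw [intervalIntegral.integral_eq_sub_of_hasDerivAt h1 (h3.intervalIntegrable _ _)]
  simp [rl]
  ring

/-- two-sided bound of the double integral -/
theorem int_bounds {Y : ℝ × ℝ → ℝ × ℝ} (hY : ContDiff ℝ 1 Y) {r₁ r₂ : ℝ → ℝ}
    (c₁ : Continuous r₁) (c₂ : Continuous r₂)
    (h0 : ∀ t ∈ Icc 0 (2 * Real.pi), 0 ≤ r₁ t) (h12 : ∀ t ∈ Icc 0 (2 * Real.pi), r₁ t ≤ r₂ t)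
    {a b : ℝ} (hab : ∀ t ∈ Icc 0 (2 * Real.pi), ∀ l ∈ Icc (0:ℝ) 1,
      a ≤ dv Y (pp r₁ r₂ l t) ∧ dv Y (pp r₁ r₂ l t) ≤ b) :
    a / 2 * ((∫ t in (0:ℝ)..(2 * Real.pi), r₂ t ^ 2) - ∫ t in (0:ℝ)..(2 * Real.pi), r₁ t ^ 2) ≤
      (∫ t in (0:ℝ)..(2 * Real.pi), ∫ l in (0:ℝ)..1,
        dv Y (pp r₁ r₂ l t) * rl r₁ r₂ l t * (r₂ t - r₁ t)) ∧
    (∫ t in (0:ℝ)..(2 * Real.pi), ∫ l in (0:ℝ)..1,
        dv Y (pp r₁ r₂ l t) * rl r₁ r₂ l t * (r₂ t - r₁ t)) ≤
    b / 2 * ((∫ t in (0:ℝ)..(2 * Real.pi), r₂ t ^ 2) - ∫ t in (0:ℝ)..(2 * Real.pi), r₁ t ^ 2) := by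
  have hpi := Real.two_pi_pos
  have hF : Continuous (fun p : ℝ × ℝ => dv Y (pp r₁ r₂ p.1 p.2) * rl r₁ r₂ p.1 p.2 *
      (r₂ p.2 - r₁ p.2)) :=
    (((dv_cont hY).comp (pp_cont c₁ c₂)).mul (rl_cont c₁ c₂)).mul
      ((c₂.comp continuous_snd).sub (c₁.comp continuous_snd))
  have hF1 : ∀ t, Continuous (fun l => dv Y (pp r₁ r₂ l t) * rl r₁ r₂ l t * (r₂ t - r₁ t)) :=
    fun t => slice_l (F := fun l t => dv Y (pp r₁ r₂ l t) * rl r₁ r₂ l t * (r₂ t - r₁ t)) hF t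
  have hFi : Continuous (fun t => ∫ l in (0:ℝ)..1,
      dv Y (pp r₁ r₂ l t) * rl r₁ r₂ l t * (r₂ t - r₁ t)) :=
    slice_int (F := fun l t => dv Y (pp r₁ r₂ l t) * rl r₁ r₂ l t * (r₂ t - r₁ t)) hF 0 1
  have hR : ∀ t, Continuous (fun l => rl r₁ r₂ l t * (r₂ t - r₁ t)) := by
    intro t; unfold rl; fun_prop
  have hsq : Continuous (fun t => (r₂ t ^ 2 - r₁ t ^ 2) / 2) := by fun_prop
  have hnn : ∀ t ∈ Icc 0 (2 * Real.pi), ∀ l ∈ Icc (0:ℝ) 1, 0 ≤ rl r₁ r₂ l t * (r₂ t - r₁ t) := by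
    intro t ht l hl
    refine mul_nonneg ?_ (by linarith [h12 t ht])
    unfold rl
    have := h0 t ht
    have := h12 t ht
    exact add_nonneg (mul_nonneg (by linarith [hl.2]) (by linarith))
      (mul_nonneg hl.1 (by linarith))
  have e0 : ∀ c : ℝ, c / 2 * ((∫ t in (0:ℝ)..(2 * Real.pi), r₂ t ^ 2) -
      ∫ t in (0:ℝ)..(2 * Real.pi), r₁ t ^ 2) =
      ∫ t in (0:ℝ)..(2 * Real.pi), c * ((r₂ t ^ 2 - r₁ t ^ 2) / 2) := by
    intro c
    have q1 : Continuous (fun t => r₁ t ^ 2) := c₁.pow 2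
    have q2 : Continuous (fun t => r₂ t ^ 2) := c₂.pow 2
    rw [← intervalIntegral.integral_sub (q2.intervalIntegrable _ _)
      (q1.intervalIntegrable _ _), ← intervalIntegral.integral_const_mul]
    refine intervalIntegral.integral_congr fun t _ => ?_
    ring
  have hin : ∀ t ∈ Icc 0 (2 * Real.pi), a * ((r₂ t ^ 2 - r₁ t ^ 2) / 2) ≤
      (∫ l in (0:ℝ)..1, dv Y (pp r₁ r₂ l t) * rl r₁ r₂ l t * (r₂ t - r₁ t)) ∧
      (∫ l in (0:ℝ)..1, dv Y (pp r₁ r₂ l t) * rl r₁ r₂ l t * (r₂ t - r₁ t)) ≤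
        b * ((r₂ t ^ 2 - r₁ t ^ 2) / 2) := by
    intro t ht
    rw [← inner_int, ← intervalIntegral.integral_const_mul, ← intervalIntegral.integral_const_mul]
    constructor
    · refine intervalIntegral.integral_mono_on zero_le_one
        (((hR t).const_mul a).intervalIntegrable _ _) ((hF1 t).intervalIntegrable _ _)
        (fun l hl => ?_)
      rw [mul_assoc]
      exact mul_le_mul_of_nonneg_right (hab t ht l hl).1 (hnn t ht l hl)
    · refine intervalIntegral.integral_mono_on zero_le_one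
        ((hF1 t).intervalIntegrable _ _) (((hR t).const_mul b).intervalIntegrable _ _)
        (fun l hl => ?_)
      rw [mul_assoc]
      exact mul_le_mul_of_nonneg_right (hab t ht l hl).2 (hnn t ht l hl)
  constructor
  · rw [e0]
    exact intervalIntegral.integral_mono_on hpi.le ((hsq.const_mul a).intervalIntegrable _ _)
      (hFi.intervalIntegrable _ _) (fun t ht => (hin t ht).1)
  · rw [e0]
    exact intervalIntegral.integral_mono_on hpi.le (hFi.intervalIntegrable _ _)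
      ((hsq.const_mul b).intervalIntegrable _ _) (fun t ht => (hin t ht).2)

lemma En_pos {s : ℝ} {ρ : ℝ → ℝ} (h : Cl X A s ρ) : 0 < En ρ := by
  unfold En
  refine intervalIntegral.intervalIntegral_pos_of_pos (h.esq.intervalIntegrable _ _)
    (fun t => by positivity) Real.two_pi_pos

lemma En_le {s : ℝ} {ρ : ℝ → ℝ} (h : Cl X A s ρ) {R : ℝ}
    (hA : ∀ p ∈ A, p.1 ^ 2 + p.2 ^ 2 ≤ R ^ 2) : En ρ ≤ 2 * Real.pi * R ^ 2 := by
  unfold En
  have := intervalIntegral.integral_mono_on (μ := volume) (f := fun t => Real.exp (ρ t) ^ 2)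
    (g := fun _ => R ^ 2) Real.two_pi_pos.le
    (h.esq.intervalIntegrable _ _) intervalIntegrable_const
    (fun t _ => by
      have := hA _ (h.mem t)
      rwa [pt_sq] at this)
  simpa using this

lemma le_En {s : ℝ} {ρ : ℝ → ℝ} (h : Cl X A s ρ) {R : ℝ}
    (hA : ∀ p ∈ A, R ^ 2 ≤ p.1 ^ 2 + p.2 ^ 2) : 2 * Real.pi * R ^ 2 ≤ En ρ := by
  unfold En
  have := intervalIntegral.integral_mono_on (μ := volume) (g := fun t => Real.exp (ρ t) ^ 2)
    (f := fun _ => R ^ 2) Real.two_pi_pos.le intervalIntegrable_const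
    (h.esq.intervalIntegrable _ _)
    (fun t _ => by
      have := hA _ (h.mem t)
      rwa [pt_sq] at this)
  simpa using this

lemma pp_mem (hA : ∀ t, (ray A t).OrdConnected) {s₁ s₂ : ℝ} {φ ψ : ℝ → ℝ}
    (hφ : Cl X A s₁ φ) (hψ : Cl X A s₂ ψ) (t : ℝ) (hlt : φ t ≤ ψ t) {l : ℝ}
    (hl : l ∈ Icc (0:ℝ) 1) :
    pp (fun t => Real.exp (φ t)) (fun t => Real.exp (ψ t)) l t ∈ A := by
  have h1 : Real.exp (φ t) ∈ ray A t := ⟨Real.exp_pos _, hφ.mem t⟩
  have h2 : Real.exp (ψ t) ∈ ray A t := ⟨Real.exp_pos _, hψ.mem t⟩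
  have h3 := Real.exp_le_exp.2 hlt
  have h4 : rl (fun t => Real.exp (φ t)) (fun t => Real.exp (ψ t)) l t ∈
      Icc (Real.exp (φ t)) (Real.exp (ψ t)) := by
    unfold rl
    constructor
    · nlinarith [hl.1, hl.2]
    · nlinarith [hl.1, hl.2]
  exact ((hA t).out h1 h2 h4).2

/-- the difference of the parameters of two closed orbits -/
theorem param_diff (hX : ContDiff ℝ 1 X)
    (hpos : ∀ p ∈ A, 0 < an X p) {s₁ s₂ : ℝ} {φ ψ : ℝ → ℝ}
    (hφ : Cl X A s₁ φ) (hψ : Cl X A s₂ ψ) (hlt : ∀ t ∈ Icc 0 (2 * Real.pi), φ t < ψ t)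
    {K : ℝ} (hK : ∀ t ∈ Icc 0 (2 * Real.pi), ∀ l ∈ Icc (0:ℝ) 1,
      |dv X (pp (fun t => Real.exp (φ t)) (fun t => Real.exp (ψ t)) l t) + 2 * s₁| ≤ K) :
    |s₁ - s₂| * En ψ ≤ K / 2 * (En ψ - En φ) := by
  have h1 := flux_two hX hpos hφ hψ
  have h2 := int_bounds (fam_contDiff hX s₁) (r₁ := fun t => Real.exp (φ t))
    (r₂ := fun t => Real.exp (ψ t)) hφ.rcont hψ.rcont
    (fun t _ => (Real.exp_pos _).le) (fun t ht => Real.exp_le_exp.2 (hlt t ht).le)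
    (a := -K) (b := K) (fun t ht l hl => by
      rw [dv_fam hX]
      exact abs_le.1 (hK t ht l hl))
  rw [← h1] at h2
  have h3 := En_pos hψ
  rw [← abs_of_pos h3, ← abs_mul, abs_of_pos h3]
  refine abs_le.2 ⟨?_, ?_⟩
  · have := h2.1
    unfold En at this ⊢
    linarith
  · exact h2.2

end Pool.Agent.U588.TR
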