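import Mathlib
import Pool.Agent.U588.TR.TR3

/-! Families `X + s Z` with `Z × X > 0`: ordering and flux identities. -/

open Set MeasureTheory Topology Filter
open scoped ENNReal NNReal

namespace Pool.Agent.U588.TR

open Pool.Agent.TH525.PU hiding pt
open Pool.Agent.TH525.AG

variable {X Z : ℝ × ℝ → ℝ × ℝ} {A : Set (ℝ × ℝ)}

/-- the family `X + s Z` -/
def fm (X Z : ℝ × ℝ → ℝ × ℝ) (s : ℝ) (p : ℝ × ℝ) : ℝ × ℝ := X p + s • Z p

/-- the cross product -/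
def cr (Z X : ℝ × ℝ → ℝ × ℝ) (p : ℝ × ℝ) : ℝ := (Z p).1 * (X p).2 - (Z p).2 * (X p).1

lemma fm_contDiff (hX : ContDiff ℝ 1 X) (hZ : ContDiff ℝ 1 Z) (s : ℝ) :
    ContDiff ℝ 1 (fm X Z s) := by
  have h1 : ContDiff ℝ 1 (fun p : ℝ × ℝ => s • Z p) := hZ.const_smul s
  exact hX.add h1

lemma dv_fm (hX : ContDiff ℝ 1 X) (hZ : ContDiff ℝ 1 Z) (s : ℝ) (p : ℝ × ℝ) :
    dv (fm X Z s) p = dv X p + s * dv Z p := by
  have h1 : HasFDerivAt (fm X Z s) (fderiv ℝ X p + s • fderiv ℝ Z p) p := by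
    have h2 := (hX.differentiable (by simp) p).hasFDerivAt
    have h3 : HasFDerivAt (fun p : ℝ × ℝ => s • Z p) (s • fderiv ℝ Z p) p :=
      ((hZ.differentiable (by simp) p).hasFDerivAt).const_smul s
    exact h2.add h3
  unfold dv
  rw [h1.fderiv]
  simp
  ring

lemma fam_zero (Y : ℝ × ℝ → ℝ × ℝ) : fam Y 0 = Y := by
  funext p
  simp [fam]

lemma rhs_zero (Y : ℝ × ℝ → ℝ × ℝ) (t x : ℝ) :
    rhs Y 0 t x = rd Y (pt t x) / an Y (pt t x) := by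
  unfold rhs
  rw [zero_mul, add_zero]

lemma cross_id (Y₁ Y₂ : ℝ × ℝ → ℝ × ℝ) (p : ℝ × ℝ) :
    rd Y₂ p * an Y₁ p - rd Y₁ p * an Y₂ p = (p.1 ^ 2 + p.2 ^ 2) * cr Y₂ Y₁ p := by
  unfold rd an cr
  ring

lemma cr_fm (s₁ s₂ : ℝ) (p : ℝ × ℝ) :
    cr (fm X Z s₂) (fm X Z s₁) p = (s₂ - s₁) * cr Z X p := by
  unfold cr fm
  simp only [Prod.fst_add, Prod.snd_add, Prod.smul_fst, Prod.smul_snd, smul_eq_mul]
  ring

lemma rhs_diff_g {s₁ s₂ t x : ℝ} (h1 : 0 < an (fm X Z s₁) (pt t x))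
    (h2 : 0 < an (fm X Z s₂) (pt t x)) :
    rhs (fm X Z s₂) 0 t x - rhs (fm X Z s₁) 0 t x =
      (s₂ - s₁) * (Real.exp x ^ 2 * cr Z X (pt t x) /
        (an (fm X Z s₁) (pt t x) * an (fm X Z s₂) (pt t x))) := by
  rw [rhs_zero, rhs_zero, div_sub_div _ _ h2.ne' h1.ne']
  have h3 := cross_id (fm X Z s₁) (fm X Z s₂) (pt t x)
  rw [cr_fm, pt_sq] at h3
  rw [mul_comm (an (fm X Z s₂) (pt t x)) (rd (fm X Z s₁) (pt t x)), h3]
  rw [mul_comm (an (fm X Z s₂) (pt t x)) (an (fm X Z s₁) (pt t x))]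
  ring

lemma rhs_diff_pos {s₁ s₂ t x : ℝ} (h1 : 0 < an (fm X Z s₁) (pt t x))
    (h2 : 0 < an (fm X Z s₂) (pt t x)) (h3 : 0 < cr Z X (pt t x)) :
    ∃ c : ℝ, 0 < c ∧ rhs (fm X Z s₂) 0 t x - rhs (fm X Z s₁) 0 t x = (s₂ - s₁) * c :=
  ⟨_, div_pos (mul_pos (by positivity) h3) (mul_pos h1 h2), rhs_diff_g h1 h2⟩

/-- closed solutions are ordered -/
theorem ordered_g (hX : ContDiff ℝ 1 X) (hZ : ContDiff ℝ 1 Z)
    (hA : ∀ t, (reg A t).OrdConnected) (hcr : ∀ p ∈ A, 0 < cr Z X p) {s s' : ℝ}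
    (hpos : ∀ p ∈ A, 0 < an (fm X Z s) p) (hpos' : ∀ p ∈ A, 0 < an (fm X Z s') p)
    {φ ψ : ℝ → ℝ} (hφ : Cl (fm X Z s) A 0 φ) (hψ : Cl (fm X Z s') A 0 ψ)
    (h0 : φ 0 < ψ 0) : ∀ t ∈ Icc 0 (2 * Real.pi), φ t < ψ t := by
  intro t ht
  by_contra hcon
  push Not at hcon
  set h : ℝ → ℝ := fun x => ψ x - φ x with hh
  have hc : Continuous h := hψ.cont.sub hφ.cont
  have hT : 0 < h (2 * Real.pi) := by
    simp only [hh]
    have h1 := hψ.per 0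
    have h2 := hφ.per 0
    rw [zero_add] at h1 h2
    rw [h1, h2]; linarith
  obtain ⟨r, hr, hr0, hrp⟩ := first_zero (h := h) ht.1 hc.continuousOn
    (by simp only [hh]; linarith) (by simp only [hh]; linarith)
  obtain ⟨q, hq, hq0, hqp⟩ := last_zero (h := h) ht.2 hc.continuousOn
    (by simp only [hh]; linarith) hT
  have er : φ r = ψ r := by simp only [hh] at hr0; linarith
  have eq : φ q = ψ q := by simp only [hh] at hq0; linarith
  obtain ⟨c1, hc1, k1⟩ := rhs_diff_pos (hpos _ (hψ.mem r)) (hpos' _ (hψ.mem r))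
    (hcr _ (hψ.mem r))
  obtain ⟨c2, hc2, k2⟩ := rhs_diff_pos (hpos _ (hψ.mem q)) (hpos' _ (hψ.mem q))
    (hcr _ (hψ.mem q))
  have d1 : HasDerivWithinAt h ((s' - s) * c1) (Icc 0 r) r := by
    have := ((hψ.deriv r).sub (hφ.deriv r))
    rw [er, k1] at this
    exact this.hasDerivWithinAt
  have d2 : HasDerivWithinAt h ((s' - s) * c2) (Icc q (2 * Real.pi)) q := by
    have := ((hψ.deriv q).sub (hφ.deriv q))
    rw [eq, k2] at this
    exact this.hasDerivWithinAt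
  have i1 := deriv_nonpos_left hr.1 d1 (fun x hx => by rw [hr0]; exact (hrp x hx).le)
  have i2 := deriv_nonneg_right hq.2 d2 (fun x hx => by rw [hq0]; exact (hqp x hx).le)
  have es : s' = s := by
    have j1 : s' - s ≤ 0 := by
      by_contra hcc; push Not at hcc
      have := mul_pos hcc hc1; linarith
    have j2 : 0 ≤ s' - s := by
      by_contra hcc; push Not at hcc
      have := mul_neg_of_neg_of_pos hcc hc2; linarith
    linarith
  subst es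
  have hu := uniq_all (fm_contDiff hX hZ _) hA hpos hφ.deriv hφ.mem hψ.deriv hψ.mem er
  have := congrFun hu 0
  linarith

lemma not_lt_of_eq_g (hcr : ∀ p ∈ A, 0 < cr Z X p) {s s' : ℝ}
    (hpos : ∀ p ∈ A, 0 < an (fm X Z s) p) (hpos' : ∀ p ∈ A, 0 < an (fm X Z s') p)
    {φ ψ : ℝ → ℝ} (hφ : Cl (fm X Z s) A 0 φ) (hψ : Cl (fm X Z s') A 0 ψ)
    (h0 : φ 0 = ψ 0) : ¬ s < s' := by
  intro hs
  have hpi := Real.two_pi_pos
  set h : ℝ → ℝ := fun x => ψ x - φ x with hh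
  have hc : Continuous h := hψ.cont.sub hφ.cont
  have h00 : h 0 = 0 := by simp only [hh]; linarith
  have hTT : h (2 * Real.pi) = 0 := by
    simp only [hh]
    have h1 := hψ.per 0
    have h2 := hφ.per 0
    rw [zero_add] at h1 h2
    rw [h1, h2]; linarith
  have hd : ∀ r, h r = 0 → ∃ c, 0 < c ∧ HasDerivAt h c r := by
    intro r hr0
    have er : φ r = ψ r := by simp only [hh] at hr0; linarith
    have := ((hψ.deriv r).sub (hφ.deriv r))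
    obtain ⟨c1, hc1, k1⟩ := rhs_diff_pos (hpos _ (hψ.mem r)) (hpos' _ (hψ.mem r))
      (hcr _ (hψ.mem r))
    rw [er, k1] at this
    exact ⟨_, mul_pos (by linarith) hc1, this⟩
  have hposx : ∃ x ∈ Icc 0 (2 * Real.pi), 0 < h x := by
    by_contra hcon
    push Not at hcon
    obtain ⟨c, hc0, d0⟩ := hd 0 h00
    have := deriv_nonneg_right (h := fun x => - h x) hpi (d0.neg.hasDerivWithinAt)
      (fun x hx => by
        have := hcon x ⟨hx.1.le, hx.2⟩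
        rw [h00]; linarith)
    linarith
  obtain ⟨x, hx, hxp⟩ := hposx
  obtain ⟨r, hr, hr0, hrp⟩ := first_zero (h := h) hx.2 hc.continuousOn hxp hTT.le
  obtain ⟨c, hc0, d1⟩ := hd r hr0
  have i1 := deriv_nonpos_left hr.1 (d1.hasDerivWithinAt (s := Icc x r))
    (fun y hy => by rw [hr0]; exact (hrp y hy).le)
  linarith

theorem eq_param_g (hcr : ∀ p ∈ A, 0 < cr Z X p) {s s' : ℝ}
    (hpos : ∀ p ∈ A, 0 < an (fm X Z s) p) (hpos' : ∀ p ∈ A, 0 < an (fm X Z s') p)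
    {φ ψ : ℝ → ℝ} (hφ : Cl (fm X Z s) A 0 φ) (hψ : Cl (fm X Z s') A 0 ψ)
    (h0 : φ 0 = ψ 0) : s = s' := by
  rcases lt_trichotomy s s' with h | h | h
  · exact absurd h (not_lt_of_eq_g hcr hpos hpos' hφ hψ h0)
  · exact h
  · exact absurd h (not_lt_of_eq_g hcr hpos' hpos hψ hφ h0.symm)

theorem eq_sol_g (hX : ContDiff ℝ 1 X) (hZ : ContDiff ℝ 1 Z)
    (hA : ∀ t, (reg A t).OrdConnected) (hcr : ∀ p ∈ A, 0 < cr Z X p) {s s' : ℝ}
    (hpos : ∀ p ∈ A, 0 < an (fm X Z s) p) (hpos' : ∀ p ∈ A, 0 < an (fm X Z s') p)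
    {φ ψ : ℝ → ℝ} (hφ : Cl (fm X Z s) A 0 φ) (hψ : Cl (fm X Z s') A 0 ψ)
    (h0 : φ 0 = ψ 0) : φ = ψ := by
  have es := eq_param_g hcr hpos hpos' hφ hψ h0
  subst es
  exact uniq_all (fm_contDiff hX hZ _) hA hpos hφ.deriv hφ.mem hψ.deriv hψ.mem h0

/-- the flux density of `W` through a closed orbit of `Y` -/
noncomputable def fl (W Y : ℝ × ℝ → ℝ × ℝ) (ρ : ℝ → ℝ) (t : ℝ) : ℝ :=
  Real.exp (ρ t) * ra W t (Real.exp (ρ t) * Real.cos t, Real.exp (ρ t) * Real.sin t) -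
    dr Y 0 ρ t * ta W t (Real.exp (ρ t) * Real.cos t, Real.exp (ρ t) * Real.sin t)

/-- the flux of `W` through a closed orbit of `Y` -/
noncomputable def Fl (W Y : ℝ × ℝ → ℝ × ℝ) (ρ : ℝ → ℝ) : ℝ :=
  ∫ t in (0:ℝ)..(2 * Real.pi), fl W Y ρ t

lemma fl_self {Y : ℝ × ℝ → ℝ × ℝ} (hpos : ∀ p ∈ A, 0 < an Y p) {ρ : ℝ → ℝ}
    (h : Cl Y A 0 ρ) (t : ℝ) : fl Y Y ρ t = 0 := by
  have := flux hpos h 0 t
  rw [fam_zero] at this
  unfold fl
  rw [this]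
  ring

lemma fl_fm (s s' : ℝ) (Y : ℝ × ℝ → ℝ × ℝ) (ρ : ℝ → ℝ) (t : ℝ) :
    fl (fm X Z s') Y ρ t = fl (fm X Z s) Y ρ t + (s' - s) * fl Z Y ρ t := by
  unfold fl ra ta fm
  simp only [Prod.fst_add, Prod.snd_add, Prod.smul_fst, Prod.smul_snd, smul_eq_mul]
  ring

lemma ra_cont {W : ℝ × ℝ → ℝ × ℝ} (hW : ContDiff ℝ 1 W) {r : ℝ → ℝ} (hr : Continuous r) :
    Continuous (fun t => ra W t (r t * Real.cos t, r t * Real.sin t)) := by
  have h1 : Continuous (fun t => W (r t * Real.cos t, r t * Real.sin t)) :=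
    hW.continuous.comp ((hr.mul Real.continuous_cos).prodMk (hr.mul Real.continuous_sin))
  unfold ra
  have h2 := continuous_fst.comp h1
  have h3 := continuous_snd.comp h1
  simp only [Function.comp_def] at h2 h3
  exact (h2.mul Real.continuous_cos).add (h3.mul Real.continuous_sin)

lemma ta_cont {W : ℝ × ℝ → ℝ × ℝ} (hW : ContDiff ℝ 1 W) {r : ℝ → ℝ} (hr : Continuous r) :
    Continuous (fun t => ta W t (r t * Real.cos t, r t * Real.sin t)) := by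
  have h1 : Continuous (fun t => W (r t * Real.cos t, r t * Real.sin t)) :=
    hW.continuous.comp ((hr.mul Real.continuous_cos).prodMk (hr.mul Real.continuous_sin))
  unfold ta
  have h2 := continuous_fst.comp h1
  have h3 := continuous_snd.comp h1
  simp only [Function.comp_def] at h2 h3
  exact (h3.mul Real.continuous_cos).sub (h2.mul Real.continuous_sin)

lemma fl_cont {W Y : ℝ × ℝ → ℝ × ℝ} (hW : ContDiff ℝ 1 W) (hY : ContDiff ℝ 1 Y)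
    (hpos : ∀ p ∈ A, 0 < an Y p) {ρ : ℝ → ℝ} (h : Cl Y A 0 ρ) : Continuous (fl W Y ρ) := by
  unfold fl
  exact (h.rcont.mul (ra_cont hW h.rcont)).sub ((h.drcont hY hpos).mul (ta_cont hW h.rcont))

/-- Green's formula between two closed orbits -/
theorem green_two {W Y₁ Y₂ : ℝ × ℝ → ℝ × ℝ} (hW : ContDiff ℝ 1 W) (hY₁ : ContDiff ℝ 1 Y₁)
    (hY₂ : ContDiff ℝ 1 Y₂) (hp₁ : ∀ p ∈ A, 0 < an Y₁ p) (hp₂ : ∀ p ∈ A, 0 < an Y₂ p)
    {φ ψ : ℝ → ℝ} (hφ : Cl Y₁ A 0 φ) (hψ : Cl Y₂ A 0 ψ) :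
    Fl W Y₂ ψ - Fl W Y₁ φ = ∫ t in (0:ℝ)..(2 * Real.pi), ∫ l in (0:ℝ)..1,
      dv W (pp (fun t => Real.exp (φ t)) (fun t => Real.exp (ψ t)) l t) *
        rl (fun t => Real.exp (φ t)) (fun t => Real.exp (ψ t)) l t *
          (Real.exp (ψ t) - Real.exp (φ t)) := by
  have h1 := hψ.per 0
  have h2 := hφ.per 0
  rw [zero_add] at h1 h2
  have := green (X := W) (r₁ := fun t => Real.exp (φ t)) (r₂ := fun t => Real.exp (ψ t))
    hW hφ.hr hψ.hr (hφ.drcont hY₁ hp₁) (hψ.drcont hY₂ hp₂)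
    (by rw [h2]) (by rw [h1])
  rw [← this]
  unfold Fl
  rw [← intervalIntegral.integral_sub ((fl_cont hW hY₂ hp₂ hψ).intervalIntegrable _ _)
    ((fl_cont hW hY₁ hp₁ hφ).intervalIntegrable _ _)]
  rfl

/-- the flux through a circle -/
noncomputable def fluxC (W : ℝ × ℝ → ℝ × ℝ) (r : ℝ) : ℝ :=
  ∫ t in (0:ℝ)..(2 * Real.pi), r * ra W t (r * Real.cos t, r * Real.sin t)

/-- Green's formula between a circle and a closed orbit -/
theorem green_circ {W Y : ℝ × ℝ → ℝ × ℝ} (hW : ContDiff ℝ 1 W) (hY : ContDiff ℝ 1 Y)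
    (hp : ∀ p ∈ A, 0 < an Y p) {ψ : ℝ → ℝ} (hψ : Cl Y A 0 ψ) (r : ℝ) :
    Fl W Y ψ - fluxC W r = ∫ t in (0:ℝ)..(2 * Real.pi), ∫ l in (0:ℝ)..1,
      dv W (pp (fun _ => r) (fun t => Real.exp (ψ t)) l t) *
        rl (fun _ => r) (fun t => Real.exp (ψ t)) l t * (Real.exp (ψ t) - r) := by
  have h1 := hψ.per 0
  rw [zero_add] at h1
  have := green (X := W) (r₁ := fun _ => r) (r₂ := fun t => Real.exp (ψ t)) (d₁ := fun _ => 0)
    hW (fun t => hasDerivAt_const t r) hψ.hr continuous_const (hψ.drcont hY hp)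
    rfl (by rw [h1])
  rw [← this]
  unfold Fl fluxC
  have hcc : Continuous (fun t => r * ra W t (r * Real.cos t, r * Real.sin t)) :=
    continuous_const.mul (ra_cont hW continuous_const)
  rw [← intervalIntegral.integral_sub ((fl_cont hW hY hp hψ).intervalIntegrable _ _)
    (hcc.intervalIntegrable _ _)]
  refine intervalIntegral.integral_congr fun t _ => ?_
  simp only [fl]
  ring

/-- Green's formula between a closed orbit and a circle -/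
theorem green_circ' {W Y : ℝ × ℝ → ℝ × ℝ} (hW : ContDiff ℝ 1 W) (hY : ContDiff ℝ 1 Y)
    (hp : ∀ p ∈ A, 0 < an Y p) {ψ : ℝ → ℝ} (hψ : Cl Y A 0 ψ) (r : ℝ) :
    fluxC W r - Fl W Y ψ = ∫ t in (0:ℝ)..(2 * Real.pi), ∫ l in (0:ℝ)..1,
      dv W (pp (fun t => Real.exp (ψ t)) (fun _ => r) l t) *
        rl (fun t => Real.exp (ψ t)) (fun _ => r) l t * (r - Real.exp (ψ t)) := by
  have h1 := hψ.per 0
  rw [zero_add] at h1
  have := green (X := W) (r₂ := fun _ => r) (r₁ := fun t => Real.exp (ψ t)) (d₂ := fun _ => 0)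
    hW hψ.hr (fun t => hasDerivAt_const t r) (hψ.drcont hY hp) continuous_const
    (by rw [h1]) rfl
  rw [← this]
  unfold Fl fluxC
  have hcc : Continuous (fun t => r * ra W t (r * Real.cos t, r * Real.sin t)) :=
    continuous_const.mul (ra_cont hW continuous_const)
  rw [← intervalIntegral.integral_sub
    (hcc.intervalIntegrable _ _)
    ((fl_cont hW hY hp hψ).intervalIntegrable _ _)]
  refine intervalIntegral.integral_congr fun t _ => ?_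
  simp only [fl]
  ring

/-- comparison of the double integrals -/
theorem int_mono2 {W V : ℝ × ℝ → ℝ × ℝ} (hW : ContDiff ℝ 1 W) (hV : ContDiff ℝ 1 V)
    {r₁ r₂ : ℝ → ℝ} (c₁ : Continuous r₁) (c₂ : Continuous r₂)
    (h0 : ∀ t ∈ Icc 0 (2 * Real.pi), 0 ≤ r₁ t) (h12 : ∀ t ∈ Icc 0 (2 * Real.pi), r₁ t ≤ r₂ t)
    {a b : ℝ} (hab : ∀ t ∈ Icc 0 (2 * Real.pi), ∀ l ∈ Icc (0:ℝ) 1,
      a * dv W (pp r₁ r₂ l t) ≤ b * dv V (pp r₁ r₂ l t)) :
    a * (∫ t in (0:ℝ)..(2 * Real.pi), ∫ l in (0:ℝ)..1,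
        dv W (pp r₁ r₂ l t) * rl r₁ r₂ l t * (r₂ t - r₁ t)) ≤
    b * ∫ t in (0:ℝ)..(2 * Real.pi), ∫ l in (0:ℝ)..1,
        dv V (pp r₁ r₂ l t) * rl r₁ r₂ l t * (r₂ t - r₁ t) := by
  have hpi := Real.two_pi_pos
  have key : ∀ {Y : ℝ × ℝ → ℝ × ℝ}, ContDiff ℝ 1 Y → Continuous (fun p : ℝ × ℝ =>
      dv Y (pp r₁ r₂ p.1 p.2) * rl r₁ r₂ p.1 p.2 * (r₂ p.2 - r₁ p.2)) := by
    intro Y hY
    exact (((dv_cont hY).comp (pp_cont c₁ c₂)).mul (rl_cont c₁ c₂)).mul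
      ((c₂.comp continuous_snd).sub (c₁.comp continuous_snd))
  have key1 : ∀ {Y : ℝ × ℝ → ℝ × ℝ}, ContDiff ℝ 1 Y → ∀ t, Continuous (fun l =>
      dv Y (pp r₁ r₂ l t) * rl r₁ r₂ l t * (r₂ t - r₁ t)) := fun hY t =>
    slice_l (F := fun l t => dv _ (pp r₁ r₂ l t) * rl r₁ r₂ l t * (r₂ t - r₁ t)) (key hY) t
  have key2 : ∀ {Y : ℝ × ℝ → ℝ × ℝ}, ContDiff ℝ 1 Y → Continuous (fun t => ∫ l in (0:ℝ)..1,
      dv Y (pp r₁ r₂ l t) * rl r₁ r₂ l t * (r₂ t - r₁ t)) := fun hY =>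
    slice_int (F := fun l t => dv _ (pp r₁ r₂ l t) * rl r₁ r₂ l t * (r₂ t - r₁ t)) (key hY) 0 1
  rw [← intervalIntegral.integral_const_mul, ← intervalIntegral.integral_const_mul]
  refine intervalIntegral.integral_mono_on hpi.le (((key2 hW).const_mul a).intervalIntegrable _ _)
    (((key2 hV).const_mul b).intervalIntegrable _ _) (fun t ht => ?_)
  rw [← intervalIntegral.integral_const_mul, ← intervalIntegral.integral_const_mul]
  refine intervalIntegral.integral_mono_on zero_le_one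
    (((key1 hW t).const_mul a).intervalIntegrable _ _)
    (((key1 hV t).const_mul b).intervalIntegrable _ _) (fun l hl => ?_)
  have hnn : 0 ≤ rl r₁ r₂ l t * (r₂ t - r₁ t) := by
    refine mul_nonneg ?_ (by linarith [h12 t ht])
    unfold rl
    have := h0 t ht
    have := h12 t ht
    exact add_nonneg (mul_nonneg (by linarith [hl.2]) (by linarith))
      (mul_nonneg hl.1 (by linarith))
  calc a * (dv W (pp r₁ r₂ l t) * rl r₁ r₂ l t * (r₂ t - r₁ t))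
      = (a * dv W (pp r₁ r₂ l t)) * (rl r₁ r₂ l t * (r₂ t - r₁ t)) := by ring
    _ ≤ (b * dv V (pp r₁ r₂ l t)) * (rl r₁ r₂ l t * (r₂ t - r₁ t)) :=
        mul_le_mul_of_nonneg_right (hab t ht l hl) hnn
    _ = _ := by ring

/-- nonnegativity of the double integral -/
theorem int_nonneg2 {V : ℝ × ℝ → ℝ × ℝ} (hV : ContDiff ℝ 1 V)
    {r₁ r₂ : ℝ → ℝ} (c₁ : Continuous r₁) (c₂ : Continuous r₂)
    (h0 : ∀ t ∈ Icc 0 (2 * Real.pi), 0 ≤ r₁ t) (h12 : ∀ t ∈ Icc 0 (2 * Real.pi), r₁ t ≤ r₂ t)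
    (hab : ∀ t ∈ Icc 0 (2 * Real.pi), ∀ l ∈ Icc (0:ℝ) 1, 0 ≤ dv V (pp r₁ r₂ l t)) :
    0 ≤ ∫ t in (0:ℝ)..(2 * Real.pi), ∫ l in (0:ℝ)..1,
        dv V (pp r₁ r₂ l t) * rl r₁ r₂ l t * (r₂ t - r₁ t) := by
  have := int_mono2 hV hV c₁ c₂ h0 h12 (a := 0) (b := 1) (fun t ht l hl => by
    rw [zero_mul, one_mul]; exact hab t ht l hl)
  rwa [zero_mul, one_mul] at this

end Pool.Agent.U588.TR
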