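import Mathlib
import Pool.Agent.U588.TR.GZ1

/-! The mean number of closed orbits of `X + s Z`. -/

open Set MeasureTheory Topology Filter
open scoped ENNReal NNReal

namespace Pool.Agent.U588.TR

open Pool.Agent.TH525.PU hiding pt
open Pool.Agent.TH525.AG

variable {X Z : ℝ × ℝ → ℝ × ℝ} {A : Set (ℝ × ℝ)}

/-- counting closed orbits by a monotone functional -/
theorem count_bound_g (hX : ContDiff ℝ 1 X) (hZ : ContDiff ℝ 1 Z)
    (hA : ∀ t, (ray A t).OrdConnected) (hcr : ∀ p ∈ A, 0 < cr Z X p) (S : Set ℝ)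
    (hpos : ∀ s ∈ S, ∀ p ∈ A, 0 < an (fm X Z s) p) (f : ℝ → ℝ) (L : ℝ → (ℝ → ℝ) → ℝ)
    (m₀ M₀ : ℝ)
    (hL : ∀ s₁ ∈ S, ∀ s₂ ∈ S, ∀ φ ψ : ℝ → ℝ, Cl (fm X Z s₁) A 0 φ → Cl (fm X Z s₂) A 0 ψ →
      (∀ t ∈ Icc 0 (2 * Real.pi), φ t < ψ t) → |f s₁ - f s₂| ≤ L s₂ ψ - L s₁ φ)
    (hb : ∀ s ∈ S, ∀ φ : ℝ → ℝ, Cl (fm X Z s) A 0 φ → m₀ ≤ L s φ ∧ L s φ ≤ M₀) :
    ∃ g : ℝ → ℝ≥0∞, Measurable g ∧
      (∀ s ∈ S, ((closedOrbitsIn (fm X Z s) A).encard : ℝ≥0∞) ≤ g (f s)) ∧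
      ∫⁻ s, g s ≤ ENNReal.ofReal (M₀ - m₀) := by
  classical
  have hA' := reg_ord hA
  set E : Set ℝ := {x | ∃ s ∈ S, ∃ φ, Cl (fm X Z s) A 0 φ ∧ φ 0 = x} with hE
  have hex : ∀ x, ∃ p : ℝ × (ℝ → ℝ), x ∈ E → p.1 ∈ S ∧ Cl (fm X Z p.1) A 0 p.2 ∧ p.2 0 = x := by
    intro x
    by_cases hx : x ∈ E
    · obtain ⟨s, hs, φ, h1, h2⟩ := hx
      exact ⟨(s, φ), fun _ => ⟨hs, h1, h2⟩⟩
    · exact ⟨(0, fun _ => 0), fun h => absurd h hx⟩
  choose P hP using hex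
  obtain ⟨g, hgm, hg, hgi⟩ := majorant (fun x => f (P x).1) E
  refine ⟨g, hgm, fun s hs => ?_, hgi.trans ?_⟩
  · refine le_trans ?_ (hg (f s))
    refine ENat.toENNReal_le.2 ?_
    have hsub : closedOrbitsIn (fm X Z s) A ⊆
        (fun x : ℝ => curve (P x).2 '' Icc 0 (2 * Real.pi)) ''
          (E ∩ (fun x => f (P x).1) ⁻¹' {f s}) := by
      intro C hC
      have hC' : C ∈ closedOrbitsIn (fam (fm X Z s) 0) A := by rw [fam_zero]; exact hC
      obtain ⟨φ, hφ, rfl⟩ := orbit_cl (fm_contDiff hX hZ s) hA' (hpos s hs) hC'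
      have hx : φ 0 ∈ E := ⟨s, hs, φ, hφ, rfl⟩
      have h1 := hP (φ 0) hx
      refine ⟨φ 0, ⟨hx, ?_⟩, ?_⟩
      · simp only [mem_preimage, mem_singleton_iff]
        rw [eq_param_g hcr (hpos _ h1.1) (hpos _ hs) h1.2.1 hφ h1.2.2]
      · simp only
        rw [eq_sol_g hX hZ hA' hcr (hpos _ h1.1) (hpos _ hs) h1.2.1 hφ h1.2.2]
    exact (encard_le_encard hsub).trans (encard_image_le _ _)
  · refine iSup_le ?_
    rintro ⟨n, u, hu, us⟩
    simp only
    have hs : ∀ i, (P (u i)).1 ∈ S ∧ Cl (fm X Z (P (u i)).1) A 0 (P (u i)).2 ∧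
      (P (u i)).2 0 = u i := fun i => hP (u i) (us i)
    have hstep : ∀ i, |f (P (u (i+1))).1 - f (P (u i)).1| ≤
        L (P (u (i+1))).1 (P (u (i+1))).2 - L (P (u i)).1 (P (u i)).2 := by
      intro i
      rcases (hu (Nat.le_succ i)).eq_or_lt with h | h
      · rw [Nat.succ_eq_add_one] at h
        rw [h]; simp
      · have hlt := ordered_g hX hZ hA' hcr (hpos _ (hs i).1) (hpos _ (hs (i+1)).1)
          (hs i).2.1 (hs (i+1)).2.1
          (by rw [(hs i).2.2, (hs (i+1)).2.2]; exact h)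
        rw [abs_sub_comm]
        exact hL _ (hs i).1 _ (hs (i+1)).1 _ _ (hs i).2.1 (hs (i+1)).2.1 hlt
    calc ∑ i ∈ Finset.range n, edist (f (P (u (i+1))).1) (f (P (u i)).1)
        ≤ ∑ i ∈ Finset.range n, ENNReal.ofReal
            (L (P (u (i+1))).1 (P (u (i+1))).2 - L (P (u i)).1 (P (u i)).2) := by
          refine Finset.sum_le_sum fun i _ => ?_
          rw [edist_dist, Real.dist_eq]
          exact ENNReal.ofReal_le_ofReal (hstep i)
      _ = ENNReal.ofReal (∑ i ∈ Finset.range n,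
            (L (P (u (i+1))).1 (P (u (i+1))).2 - L (P (u i)).1 (P (u i)).2)) :=
          (ENNReal.ofReal_sum_of_nonneg fun i _ => (abs_nonneg _).trans (hstep i)).symm
      _ = ENNReal.ofReal (L (P (u n)).1 (P (u n)).2 - L (P (u 0)).1 (P (u 0)).2) := by
          rw [Finset.sum_range_sub (fun i => L (P (u i)).1 (P (u i)).2)]
      _ ≤ ENNReal.ofReal (M₀ - m₀) := by
          apply ENNReal.ofReal_le_ofReal
          have h1 := (hb _ (hs n).1 _ (hs n).2.1).2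
          have h2 := (hb _ (hs 0).1 _ (hs 0).2.1).1
          linarith

/-- the difference of the parameters -/
theorem param_diff_g (hX : ContDiff ℝ 1 X) (hZ : ContDiff ℝ 1 Z)
    (hA : ∀ t, (ray A t).OrdConnected) {s₁ s₂ : ℝ}
    (hp₁ : ∀ p ∈ A, 0 < an (fm X Z s₁) p) (hp₂ : ∀ p ∈ A, 0 < an (fm X Z s₂) p)
    {φ ψ : ℝ → ℝ} (hφ : Cl (fm X Z s₁) A 0 φ) (hψ : Cl (fm X Z s₂) A 0 ψ)
    (hlt : ∀ t ∈ Icc 0 (2 * Real.pi), φ t < ψ t)
    {m M : ℝ} (hmM : ∀ p ∈ A, m * dv Z p ≤ dv X p ∧ dv X p ≤ M * dv Z p) :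
    (m + s₁) * (Fl Z (fm X Z s₂) ψ - Fl Z (fm X Z s₁) φ) ≤ (s₁ - s₂) * Fl Z (fm X Z s₂) ψ ∧
    (s₁ - s₂) * Fl Z (fm X Z s₂) ψ ≤
      (M + s₁) * (Fl Z (fm X Z s₂) ψ - Fl Z (fm X Z s₁) φ) := by
  set Y₁ := fm X Z s₁ with hY₁
  set Y₂ := fm X Z s₂ with hY₂
  have c₁ := fm_contDiff hX hZ s₁
  have c₂ := fm_contDiff hX hZ s₂
  have g1 := green_two (W := Z) hZ c₁ c₂ hp₁ hp₂ hφ hψ
  have g2 := green_two (W := Y₁) c₁ c₁ c₂ hp₁ hp₂ hφ hψ
  have e1 : Fl Y₁ Y₁ φ = 0 := by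
    unfold Fl
    simp [fl_self hp₁ hφ]
  have e2 : Fl Y₁ Y₂ ψ = (s₁ - s₂) * Fl Z Y₂ ψ := by
    unfold Fl
    rw [← intervalIntegral.integral_const_mul]
    refine intervalIntegral.integral_congr fun t _ => ?_
    rw [hY₁, fl_fm s₂ s₁, ← hY₂, fl_self hp₂ hψ, zero_add]
  rw [e1, e2, sub_zero] at g2
  have hle : ∀ t ∈ Icc 0 (2 * Real.pi), Real.exp (φ t) ≤ Real.exp (ψ t) :=
    fun t ht => Real.exp_le_exp.2 (hlt t ht).le
  have hmem : ∀ t ∈ Icc 0 (2 * Real.pi), ∀ l ∈ Icc (0:ℝ) 1,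
      pp (fun t => Real.exp (φ t)) (fun t => Real.exp (ψ t)) l t ∈ A := by
    intro t ht l hl
    have h1 : Real.exp (φ t) ∈ ray A t := ⟨Real.exp_pos _, hφ.mem t⟩
    have h2 : Real.exp (ψ t) ∈ ray A t := ⟨Real.exp_pos _, hψ.mem t⟩
    have h3 := hle t ht
    have h4 : rl (fun t => Real.exp (φ t)) (fun t => Real.exp (ψ t)) l t ∈
        Icc (Real.exp (φ t)) (Real.exp (ψ t)) := by
      unfold rl
      constructor
      · nlinarith [hl.1, hl.2]
      · nlinarith [hl.1, hl.2]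
    exact ((hA t).out h1 h2 h4).2
  rw [g1, g2]
  constructor
  · have := int_mono2 hZ c₁ hφ.rcont hψ.rcont (fun t _ => (Real.exp_pos _).le) hle
      (a := m + s₁) (b := 1) (fun t ht l hl => by
        rw [one_mul, dv_fm hX hZ]
        have := (hmM _ (hmem t ht l hl)).1
        linarith)
    rwa [one_mul] at this
  · have := int_mono2 c₁ hZ hφ.rcont hψ.rcont (fun t _ => (Real.exp_pos _).le) hle
      (a := 1) (b := M + s₁) (fun t ht l hl => by
        rw [one_mul, dv_fm hX hZ]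
        have := (hmM _ (hmem t ht l hl)).2
        linarith)
    rwa [one_mul] at this

/-- the fluxes are between the fluxes through the circles -/
theorem flux_between (hX : ContDiff ℝ 1 X) (hZ : ContDiff ℝ 1 Z) {s : ℝ}
    (hp : ∀ p ∈ A, 0 < an (fm X Z s) p) {r₁ r₂ : ℝ} (h1 : 0 < r₁) (h12 : r₁ ≤ r₂)
    (hr : ∀ p ∈ A, r₁ ^ 2 ≤ p.1 ^ 2 + p.2 ^ 2 ∧ p.1 ^ 2 + p.2 ^ 2 ≤ r₂ ^ 2)
    (hdiv : ∀ p : ℝ × ℝ, r₁ ^ 2 ≤ p.1 ^ 2 + p.2 ^ 2 → p.1 ^ 2 + p.2 ^ 2 ≤ r₂ ^ 2 → 0 ≤ dv Z p)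
    {ψ : ℝ → ℝ} (hψ : Cl (fm X Z s) A 0 ψ) :
    fluxC Z r₁ ≤ Fl Z (fm X Z s) ψ ∧ Fl Z (fm X Z s) ψ ≤ fluxC Z r₂ := by
  have hr2 : 0 < r₂ := h1.trans_le h12
  have b1 : ∀ t, r₁ ≤ Real.exp (ψ t) := by
    intro t
    have := (hr _ (hψ.mem t)).1
    rw [pt_sq] at this
    exact (pow_le_pow_iff_left₀ h1.le (Real.exp_pos _).le two_ne_zero).1 this
  have b2 : ∀ t, Real.exp (ψ t) ≤ r₂ := by
    intro t
    have := (hr _ (hψ.mem t)).2
    rw [pt_sq] at this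
    exact (pow_le_pow_iff_left₀ (Real.exp_pos _).le hr2.le two_ne_zero).1 this
  have hpp : ∀ (a b : ℝ → ℝ) (t l : ℝ), (pp a b l t).1 ^ 2 + (pp a b l t).2 ^ 2 =
      (rl a b l t) ^ 2 := by
    intro a b t l
    unfold pp
    have := Real.sin_sq_add_cos_sq t
    simp only
    linear_combination (rl a b l t ^ 2) * this
  have hrl : ∀ (x y l : ℝ), l ∈ Icc (0:ℝ) 1 → r₁ ≤ x → x ≤ r₂ → r₁ ≤ y → y ≤ r₂ →
      r₁ ≤ (1 - l) * x + l * y ∧ (1 - l) * x + l * y ≤ r₂ := by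
    intro x y l hl hx1 hx2 hy1 hy2
    have q1 : 0 ≤ 1 - l := by linarith [hl.2]
    constructor
    · nlinarith [mul_le_mul_of_nonneg_left hx1 q1, mul_le_mul_of_nonneg_left hy1 hl.1]
    · nlinarith [mul_le_mul_of_nonneg_left hx2 q1, mul_le_mul_of_nonneg_left hy2 hl.1]
  have hdv : ∀ (a b : ℝ → ℝ) (t l : ℝ), r₁ ≤ rl a b l t → rl a b l t ≤ r₂ →
      0 ≤ dv Z (pp a b l t) := by
    intro a b t l q1 q2
    refine hdiv _ ?_ ?_
    · rw [hpp]; exact pow_le_pow_left₀ h1.le q1 2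
    · rw [hpp]; exact pow_le_pow_left₀ (h1.le.trans q1) q2 2
  constructor
  · have g := green_circ (W := Z) hZ (fm_contDiff hX hZ s) hp hψ r₁
    have n := int_nonneg2 hZ (r₁ := fun _ => r₁) (r₂ := fun t => Real.exp (ψ t))
      continuous_const hψ.rcont (fun t _ => h1.le) (fun t _ => b1 t) (fun t _ l hl => by
        have := hrl r₁ (Real.exp (ψ t)) l hl le_rfl h12 (b1 t) (b2 t)
        exact hdv _ _ _ _ this.1 this.2)
    rw [← g] at n
    linarith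
  · have g := green_circ' (W := Z) hZ (fm_contDiff hX hZ s) hp hψ r₂
    have n := int_nonneg2 hZ (r₂ := fun _ => r₂) (r₁ := fun t => Real.exp (ψ t))
      hψ.rcont continuous_const (fun t _ => (Real.exp_pos _).le) (fun t _ => b2 t)
      (fun t _ l hl => by
        have := hrl (Real.exp (ψ t)) r₂ l hl (b1 t) (b2 t) h12 le_rfl
        exact hdv _ _ _ _ this.1 this.2)
    rw [← g] at n
    linarith

/-- integral of `1 / (a + s)` -/
lemma int_inv1 {a x y : ℝ} (hxy : x ≤ y) (hx : 0 < a + x) :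
    ∫ s in x..y, (a + s)⁻¹ = Real.log (a + y) - Real.log (a + x) := by
  have hp : ∀ s ∈ uIcc x y, 0 < a + s := by
    intro s hs
    rw [uIcc_of_le hxy] at hs
    linarith [hs.1]
  have hd : ∀ s ∈ uIcc x y, HasDerivAt (fun s => Real.log (a + s)) ((a + s)⁻¹) s := by
    intro s hs
    have h1 : HasDerivAt (fun s : ℝ => a + s) 1 s := (hasDerivAt_id s).const_add a
    have h2 := h1.log (hp s hs).ne'
    refine h2.congr_deriv ?_
    rw [one_div]
  have hc : ContinuousOn (fun s => (a + s)⁻¹) (uIcc x y) :=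
    ContinuousOn.inv₀ (by fun_prop) (fun s hs => (hp s hs).ne')
  rw [intervalIntegral.integral_eq_sub_of_hasDerivAt hd hc.intervalIntegrable]

/-- **General weighted form.** -/
theorem weighted_g (hX : ContDiff ℝ 1 X) (hZ : ContDiff ℝ 1 Z)
    (hA : ∀ t, (ray A t).OrdConnected) (hcr : ∀ p ∈ A, 0 < cr Z X p) (S : Set ℝ)
    (hpos : ∀ s ∈ S, ∀ p ∈ A, 0 < an (fm X Z s) p) {r₁ r₂ : ℝ} (h1 : 0 < r₁) (h12 : r₁ ≤ r₂)
    (hr : ∀ p ∈ A, r₁ ^ 2 ≤ p.1 ^ 2 + p.2 ^ 2 ∧ p.1 ^ 2 + p.2 ^ 2 ≤ r₂ ^ 2)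
    (hdiv : ∀ p : ℝ × ℝ, r₁ ^ 2 ≤ p.1 ^ 2 + p.2 ^ 2 → p.1 ^ 2 + p.2 ^ 2 ≤ r₂ ^ 2 → 0 ≤ dv Z p)
    (hfl : 0 < fluxC Z r₁)
    {m M : ℝ} (hlt : m < M) (hmM : ∀ p ∈ A, m * dv Z p ≤ dv X p ∧ dv X p ≤ M * dv Z p) :
    ∃ G : ℝ → ℝ≥0∞, Measurable G ∧
      (∀ s ∈ S, ((closedOrbitsIn (fm X Z s) A).encard : ℝ≥0∞) ≤ G s) ∧
      ∫⁻ s, G s / ENNReal.ofReal (max (M + s) (-m - s)) ≤
        ENNReal.ofReal (Real.log (fluxC Z r₂ / fluxC Z r₁)) := by
  set κ : ℝ → ℝ := fun s => max (M + s) (-m - s) with hκ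
  have hκp : ∀ s, 0 < κ s := by
    intro s
    simp only [hκ]
    rcases le_or_gt (M + s) 0 with h | h
    · exact lt_max_of_lt_right (by linarith)
    · exact lt_max_of_lt_left h
  have hκc : Continuous κ := by
    simp only [hκ]
    fun_prop
  have hic : Continuous (fun s => (κ s)⁻¹) := hκc.inv₀ (fun s => (hκp s).ne')
  set σ : ℝ → ℝ := fun s => ∫ τ in (0:ℝ)..s, (κ τ)⁻¹ with hσ
  have hσd : ∀ s, HasDerivAt σ ((κ s)⁻¹) s := fun s =>
    intervalIntegral.integral_hasDerivAt_right (hic.intervalIntegrable _ _)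
      (hic.stronglyMeasurableAtFilter _ _) hic.continuousAt
  have hσm : StrictMono σ := strictMono_of_deriv_pos fun s => by
    rw [(hσd s).deriv]; exact inv_pos.2 (hκp s)
  have hσdiff : ∀ x y, σ y - σ x = ∫ τ in x..y, (κ τ)⁻¹ := fun x y =>
    intervalIntegral.integral_interval_sub_left (hic.intervalIntegrable _ _)
      (hic.intervalIntegrable _ _)
  have hbd : ∀ s ∈ S, ∀ φ : ℝ → ℝ, Cl (fm X Z s) A 0 φ →
      fluxC Z r₁ ≤ Fl Z (fm X Z s) φ ∧ Fl Z (fm X Z s) φ ≤ fluxC Z r₂ := fun s hs φ hφ =>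
    flux_between hX hZ (hpos s hs) h1 h12 hr hdiv hφ
  have hstep : ∀ s₁ ∈ S, ∀ s₂ ∈ S, ∀ φ ψ : ℝ → ℝ, Cl (fm X Z s₁) A 0 φ →
      Cl (fm X Z s₂) A 0 ψ → (∀ t ∈ Icc 0 (2 * Real.pi), φ t < ψ t) →
      |σ s₁ - σ s₂| ≤ Real.log (Fl Z (fm X Z s₂) ψ) - Real.log (Fl Z (fm X Z s₁) φ) := by
    intro s₁ hs₁ s₂ hs₂ φ ψ hφ hψ hφψ
    set B₁ := Fl Z (fm X Z s₁) φ with hB₁
    set B₂ := Fl Z (fm X Z s₂) ψ with hB₂
    have e1 : 0 < B₁ := hfl.trans_le (hbd s₁ hs₁ φ hφ).1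
    have e2 : 0 < B₂ := hfl.trans_le (hbd s₂ hs₂ ψ hψ).1
    obtain ⟨hd1, hd2⟩ := param_diff_g hX hZ hA (hpos _ hs₁) (hpos _ hs₂) hφ hψ hφψ hmM
    have e3 : B₁ ≤ B₂ := by nlinarith
    have hlog0 : 0 ≤ Real.log B₂ - Real.log B₁ := by
      have := Real.log_le_log e1 e3
      linarith
    rcases lt_trichotomy s₁ s₂ with h | h | h
    · set c := -m - s₁ with hc
      set d := -m - s₂ with hd
      have hcd : (s₂ - s₁) * B₂ ≤ c * (B₂ - B₁) := by rw [hc]; linarith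
      have hkey : c * B₁ ≤ d * B₂ := by
        have : d = c - (s₂ - s₁) := by rw [hc, hd]; ring
        rw [this]; linarith
      have hcpos : 0 < c := by
        by_contra hcon
        push Not at hcon
        have h3 : 0 < (s₂ - s₁) * B₂ := mul_pos (by linarith) e2
        have h4 : c * (B₂ - B₁) ≤ 0 :=
          mul_nonpos_of_nonpos_of_nonneg hcon (by linarith)
        linarith
      have hdpos : 0 < d := by
        by_contra hcon
        push Not at hcon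
        have h3 : 0 < c * B₁ := mul_pos hcpos e1
        have h4 : d * B₂ ≤ 0 := mul_nonpos_of_nonpos_of_nonneg hcon e2.le
        linarith
      rw [abs_sub_comm, abs_of_nonneg (by linarith [hσm h]), hσdiff]
      have hb1 : ∫ τ in s₁..s₂, (κ τ)⁻¹ ≤ ∫ τ in s₁..s₂, (-m - τ)⁻¹ := by
        refine intervalIntegral.integral_mono_on h.le (hic.intervalIntegrable _ _) ?_ ?_
        · refine ContinuousOn.intervalIntegrable ?_
          refine ContinuousOn.inv₀ (by fun_prop) (fun τ hτ => ?_)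
          rw [uIcc_of_le h.le] at hτ
          have : 0 < -m - τ := by linarith [hτ.2]
          exact this.ne'
        · intro τ hτ
          have : 0 < -m - τ := by linarith [hτ.2]
          exact inv_anti₀ this (le_max_right _ _)
      have hb2 : ∫ τ in s₁..s₂, (-m - τ)⁻¹ = Real.log c - Real.log d := by
        have h5 := intervalIntegral.integral_comp_neg (a := s₁) (b := s₂)
          (fun τ => (-m + τ)⁻¹)
        have h6 : ∫ τ in s₁..s₂, (-m - τ)⁻¹ = ∫ τ in s₁..s₂, (-m + (-τ))⁻¹ :=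
          intervalIntegral.integral_congr fun τ _ => by ring_nf
        rw [h6, h5, int_inv1 (by linarith) (by linarith)]
        rw [hc, hd]
        ring_nf
      have hb3 : Real.log c - Real.log d ≤ Real.log B₂ - Real.log B₁ := by
        have := Real.log_le_log (mul_pos hcpos e1) hkey
        rw [Real.log_mul hcpos.ne' e1.ne', Real.log_mul hdpos.ne' e2.ne'] at this
        linarith
      linarith
    · rw [h, sub_self, abs_zero]; exact hlog0
    · set c := M + s₁ with hc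
      set d := M + s₂ with hd
      have hkey : c * B₁ ≤ d * B₂ := by
        have : d = c - (s₁ - s₂) := by rw [hc, hd]; ring
        rw [this]; linarith
      have hcpos : 0 < c := by
        by_contra hcon
        push Not at hcon
        have h3 : 0 < (s₁ - s₂) * B₂ := mul_pos (by linarith) e2
        have h4 : c * (B₂ - B₁) ≤ 0 :=
          mul_nonpos_of_nonpos_of_nonneg hcon (by linarith)
        linarith
      have hdpos : 0 < d := by
        by_contra hcon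
        push Not at hcon
        have h3 : 0 < c * B₁ := mul_pos hcpos e1
        have h4 : d * B₂ ≤ 0 := mul_nonpos_of_nonpos_of_nonneg hcon e2.le
        linarith
      rw [abs_of_nonneg (by linarith [hσm h]), hσdiff]
      have hb1 : ∫ τ in s₂..s₁, (κ τ)⁻¹ ≤ ∫ τ in s₂..s₁, (M + τ)⁻¹ := by
        refine intervalIntegral.integral_mono_on h.le (hic.intervalIntegrable _ _) ?_ ?_
        · refine ContinuousOn.intervalIntegrable ?_
          refine ContinuousOn.inv₀ (by fun_prop) (fun τ hτ => ?_)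
          rw [uIcc_of_le h.le] at hτ
          have : 0 < M + τ := by linarith [hτ.1]
          exact this.ne'
        · intro τ hτ
          have : 0 < M + τ := by linarith [hτ.1]
          exact inv_anti₀ this (le_max_left _ _)
      have hb2 := int_inv1 (a := M) h.le hdpos
      have hb3 : Real.log c - Real.log d ≤ Real.log B₂ - Real.log B₁ := by
        have := Real.log_le_log (mul_pos hcpos e1) hkey
        rw [Real.log_mul hcpos.ne' e1.ne', Real.log_mul hdpos.ne' e2.ne'] at this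
        linarith
      linarith
  by_cases hne : ∃ s ∈ S, ∃ φ : ℝ → ℝ, Cl (fm X Z s) A 0 φ
  · obtain ⟨s₀, hs₀, φ₀, hφ₀⟩ := hne
    have hb0 := hbd s₀ hs₀ φ₀ hφ₀
    have hf2 : 0 < fluxC Z r₂ := hfl.trans_le (hb0.1.trans hb0.2)
    obtain ⟨g, hgm, hg, hgi⟩ := count_bound_g hX hZ hA hcr S hpos σ
      (fun s φ => Real.log (Fl Z (fm X Z s) φ)) (Real.log (fluxC Z r₁)) (Real.log (fluxC Z r₂))
      hstep (fun s hs φ hφ => by
        have := hbd s hs φ hφ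
        exact ⟨Real.log_le_log hfl this.1, Real.log_le_log (hfl.trans_le this.1) this.2⟩)
    have hσc : Continuous σ := continuous_iff_continuousAt.2 fun s => (hσd s).continuousAt
    refine ⟨fun s => g (σ s), hgm.comp hσc.measurable, hg, ?_⟩
    rw [Real.log_div hf2.ne' hfl.ne']
    refine le_trans ?_ hgi
    have hcov := lintegral_image_eq_lintegral_abs_deriv_mul (s := univ) (f := σ)
      (f' := fun s => (κ s)⁻¹) MeasurableSet.univ (fun s _ => (hσd s).hasDerivWithinAt)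
      hσm.injective.injOn g
    calc ∫⁻ s, g (σ s) / ENNReal.ofReal (κ s)
        = ∫⁻ s in univ, ENNReal.ofReal |(κ s)⁻¹| * g (σ s) := by
          rw [Measure.restrict_univ]
          refine lintegral_congr fun s => ?_
          rw [abs_of_pos (inv_pos.2 (hκp s)), ENNReal.ofReal_inv_of_pos (hκp s), div_eq_mul_inv,
            mul_comm]
      _ = ∫⁻ x in σ '' univ, g x := hcov.symm
      _ ≤ ∫⁻ x, g x := setLIntegral_le_lintegral _ _
  · push Not at hne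
    refine ⟨fun _ => 0, measurable_const, fun s hs => ?_, by simp⟩
    have : closedOrbitsIn (fm X Z s) A = ∅ := by
      by_contra hcon
      obtain ⟨C, hC⟩ := Set.nonempty_iff_ne_empty.2 hcon
      have hC' : C ∈ closedOrbitsIn (fam (fm X Z s) 0) A := by rw [fam_zero]; exact hC
      obtain ⟨φ, hφ, -⟩ := orbit_cl (fm_contDiff hX hZ s) (reg_ord hA) (hpos s hs) hC'
      exact hne s hs φ hφ
    rw [this]; simp

lemma pp0_sq' {ψ : ℝ → ℝ} {R : ℝ} {t l : ℝ} (h : Real.exp (ψ t) ≤ R) (hl : l ∈ Icc (0:ℝ) 1) :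
    (pp (fun _ => 0) (fun t => Real.exp (ψ t)) l t).1 ^ 2 +
      (pp (fun _ => 0) (fun t => Real.exp (ψ t)) l t).2 ^ 2 ≤ R ^ 2 := by
  have h0 := Real.exp_pos (ψ t)
  have h1 : (pp (fun _ => 0) (fun t => Real.exp (ψ t)) l t).1 ^ 2 +
      (pp (fun _ => 0) (fun t => Real.exp (ψ t)) l t).2 ^ 2 = (l * Real.exp (ψ t)) ^ 2 := by
    unfold pp rl
    have := Real.sin_sq_add_cos_sq t
    simp only
    linear_combination ((l * Real.exp (ψ t)) ^ 2) * this
  rw [h1]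
  have h2 : l * Real.exp (ψ t) ≤ R := by nlinarith [hl.1, hl.2]
  exact pow_le_pow_left₀ (mul_nonneg hl.1 h0.le) h2 2

/-- the range of the parameters -/
theorem param_range_g (hX : ContDiff ℝ 1 X) (hZ : ContDiff ℝ 1 Z) {s : ℝ}
    (hp : ∀ p ∈ A, 0 < an (fm X Z s) p) {R : ℝ} {ψ : ℝ → ℝ} (hψ : Cl (fm X Z s) A 0 ψ)
    (hRψ : ∀ t ∈ Icc 0 (2 * Real.pi), Real.exp (ψ t) ≤ R) (hB : 0 < Fl Z (fm X Z s) ψ)
    {m M : ℝ} (hmM : ∀ p : ℝ × ℝ, p.1 ^ 2 + p.2 ^ 2 ≤ R ^ 2 →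
      m * dv Z p ≤ dv X p ∧ dv X p ≤ M * dv Z p) :
    -M ≤ s ∧ s ≤ -m := by
  have c := fm_contDiff hX hZ s
  have g1 := green_circ (W := Z) hZ c hp hψ 0
  have g2 := green_circ (W := fm X Z s) c c hp hψ 0
  have z1 : ∀ W : ℝ × ℝ → ℝ × ℝ, fluxC W 0 = 0 := by
    intro W; unfold fluxC; simp
  have e1 : Fl (fm X Z s) (fm X Z s) ψ = 0 := by
    unfold Fl
    simp [fl_self hp hψ]
  rw [z1, sub_zero] at g1 g2
  rw [e1] at g2
  have h1 := int_mono2 hZ c (r₁ := fun _ => 0) (r₂ := fun t => Real.exp (ψ t))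
      continuous_const hψ.rcont (fun t _ => le_rfl) (fun t _ => (Real.exp_pos _).le)
      (a := m + s) (b := 1) (fun t ht l hl => by
        rw [one_mul, dv_fm hX hZ]
        have := (hmM _ (pp0_sq' (hRψ t ht) hl)).1
        linarith)
  have h2 := int_mono2 c hZ (r₁ := fun _ => 0) (r₂ := fun t => Real.exp (ψ t))
      continuous_const hψ.rcont (fun t _ => le_rfl) (fun t _ => (Real.exp_pos _).le)
      (a := 1) (b := M + s) (fun t ht l hl => by
        rw [one_mul, dv_fm hX hZ]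
        have := (hmM _ (pp0_sq' (hRψ t ht) hl)).2
        linarith)
  rw [← g1, ← g2, mul_zero] at h1 h2
  constructor
  · by_contra hcon
    push Not at hcon
    have := mul_neg_of_neg_of_pos (show M + s < 0 by linarith) hB
    linarith
  · by_contra hcon
    push Not at hcon
    have := mul_pos (show 0 < m + s by linarith) hB
    linarith

/-- **General global form.** -/
theorem global_g (hX : ContDiff ℝ 1 X) (hZ : ContDiff ℝ 1 Z)
    (hA : ∀ t, (ray A t).OrdConnected) (hcr : ∀ p ∈ A, 0 < cr Z X p) (S : Set ℝ)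
    (hpos : ∀ s ∈ S, ∀ p ∈ A, 0 < an (fm X Z s) p) {r₁ r₂ : ℝ} (h1 : 0 < r₁) (h12 : r₁ ≤ r₂)
    (hr : ∀ p ∈ A, r₁ ^ 2 ≤ p.1 ^ 2 + p.2 ^ 2 ∧ p.1 ^ 2 + p.2 ^ 2 ≤ r₂ ^ 2)
    (hdiv : ∀ p : ℝ × ℝ, r₁ ^ 2 ≤ p.1 ^ 2 + p.2 ^ 2 → p.1 ^ 2 + p.2 ^ 2 ≤ r₂ ^ 2 → 0 ≤ dv Z p)
    (hfl : 0 < fluxC Z r₁)
    {m M : ℝ} (hlt : m < M) (hmM : ∀ p : ℝ × ℝ, p.1 ^ 2 + p.2 ^ 2 ≤ r₂ ^ 2 →
      m * dv Z p ≤ dv X p ∧ dv X p ≤ M * dv Z p) :
    (∀ s ∈ S, s ∉ Icc (-M) (-m) → closedOrbitsIn (fm X Z s) A = ∅) ∧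
    ∃ G : ℝ → ℝ≥0∞, Measurable G ∧
      (∀ s ∈ S, ((closedOrbitsIn (fm X Z s) A).encard : ℝ≥0∞) ≤ G s) ∧
      ∫⁻ s, G s ≤ ENNReal.ofReal ((M - m) * Real.log (fluxC Z r₂ / fluxC Z r₁)) := by
  have hr2 : 0 < r₂ := h1.trans_le h12
  have hemp : ∀ s ∈ S, s ∉ Icc (-M) (-m) → closedOrbitsIn (fm X Z s) A = ∅ := by
    intro s hsS hs
    by_contra hne
    obtain ⟨C, hC⟩ := Set.nonempty_iff_ne_empty.2 hne
    have hC' : C ∈ closedOrbitsIn (fam (fm X Z s) 0) A := by rw [fam_zero]; exact hC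
    obtain ⟨ρ, hρ, -⟩ := orbit_cl (fm_contDiff hX hZ s) (reg_ord hA) (hpos s hsS) hC'
    apply hs
    have hb := flux_between hX hZ (hpos s hsS) h1 h12 hr hdiv hρ
    have := param_range_g hX hZ (hpos s hsS) hρ (R := r₂) (fun t _ => by
      have := (hr _ (hρ.mem t)).2
      rw [pt_sq] at this
      exact (pow_le_pow_iff_left₀ (Real.exp_pos _).le hr2.le two_ne_zero).1 this)
      (hfl.trans_le hb.1) hmM
    exact this
  refine ⟨hemp, ?_⟩
  obtain ⟨G, hGm, hG, hGi⟩ := weighted_g hX hZ hA hcr S hpos h1 h12 hr hdiv hfl hlt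
    (fun p hp => hmM p (hr p hp).2)
  refine ⟨(Icc (-M) (-m)).indicator G, hGm.indicator measurableSet_Icc, fun s hs => ?_, ?_⟩
  · by_cases hsI : s ∈ Icc (-M) (-m)
    · rw [indicator_of_mem hsI]; exact hG s hs
    · rw [hemp s hs hsI]; simp
  · have hMm : 0 < M - m := by linarith
    have hlog : ∫⁻ s, (Icc (-M) (-m)).indicator G s ≤
        ENNReal.ofReal (M - m) * ∫⁻ s, G s / ENNReal.ofReal (max (M + s) (-m - s)) := by
      rw [← lintegral_const_mul' _ _ ENNReal.ofReal_ne_top]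
      refine lintegral_mono fun s => ?_
      by_cases hsI : s ∈ Icc (-M) (-m)
      · rw [indicator_of_mem hsI]
        have hk0 : 0 < max (M + s) (-m - s) := by
          rcases le_or_gt (M + s) 0 with h | h
          · exact lt_max_of_lt_right (by linarith)
          · exact lt_max_of_lt_left h
        have hk1 : max (M + s) (-m - s) ≤ M - m :=
          max_le (by linarith [hsI.2]) (by linarith [hsI.1])
        have e0 : ENNReal.ofReal (max (M + s) (-m - s)) ≠ 0 := by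
          rw [Ne, ENNReal.ofReal_eq_zero, not_le]; exact hk0
        rw [div_eq_mul_inv, mul_comm (G s), ← mul_assoc]
        calc G s = 1 * G s := (one_mul _).symm
          _ = (ENNReal.ofReal (max (M + s) (-m - s)) *
              (ENNReal.ofReal (max (M + s) (-m - s)))⁻¹) * G s := by
              rw [ENNReal.mul_inv_cancel e0 ENNReal.ofReal_ne_top]
          _ ≤ _ := by
              gcongr
      · rw [indicator_of_notMem hsI]; exact bot_le
    refine hlog.trans ?_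
    rw [ENNReal.ofReal_mul hMm.le]
    gcongr

end Pool.Agent.U588.TR
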