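import Mathlib
import Pool.Agent.U588.TR.TR3

/-! The mean number of closed orbits of `X + s p`. -/

open Set MeasureTheory Topology Filter
open scoped ENNReal NNReal

namespace Pool.Agent.U588.TR

open Pool.Agent.TH525.PU hiding pt
open Pool.Agent.TH525.AG

variable {X : ℝ × ℝ → ℝ × ℝ} {A : Set (ℝ × ℝ)}

/-- counting closed orbits by a monotone functional -/
theorem count_bound (hX : ContDiff ℝ 1 X) (hA : ∀ t, (ray A t).OrdConnected)
    (hpos : ∀ p ∈ A, 0 < an X p) (S : Set ℝ) (L : (ℝ → ℝ) → ℝ) (m₀ M₀ : ℝ)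
    (hL : ∀ s₁ ∈ S, ∀ s₂ ∈ S, ∀ φ ψ : ℝ → ℝ, Cl X A s₁ φ → Cl X A s₂ ψ →
      (∀ t ∈ Icc 0 (2 * Real.pi), φ t < ψ t) → |s₁ - s₂| ≤ L ψ - L φ)
    (hb : ∀ s ∈ S, ∀ φ : ℝ → ℝ, Cl X A s φ → m₀ ≤ L φ ∧ L φ ≤ M₀) :
    ∃ G : ℝ → ℝ≥0∞, Measurable G ∧
      (∀ s ∈ S, ((closedOrbitsIn (fam X s) A).encard : ℝ≥0∞) ≤ G s) ∧
      ∫⁻ s, G s ≤ ENNReal.ofReal (M₀ - m₀) := by
  classical
  have hA' := reg_ord hA
  set E : Set ℝ := {x | ∃ s ∈ S, ∃ φ, Cl X A s φ ∧ φ 0 = x} with hE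
  have hex : ∀ x, ∃ p : ℝ × (ℝ → ℝ), x ∈ E → p.1 ∈ S ∧ Cl X A p.1 p.2 ∧ p.2 0 = x := by
    intro x
    by_cases hx : x ∈ E
    · obtain ⟨s, hs, φ, h1, h2⟩ := hx
      exact ⟨(s, φ), fun _ => ⟨hs, h1, h2⟩⟩
    · exact ⟨(0, fun _ => 0), fun h => absurd h hx⟩
  choose P hP using hex
  obtain ⟨g, hgm, hg, hgi⟩ := majorant (fun x => (P x).1) E
  refine ⟨g, hgm, fun s hs => ?_, hgi.trans ?_⟩
  · refine le_trans ?_ (hg s)
    refine ENat.toENNReal_le.2 ?_
    have hsub : closedOrbitsIn (fam X s) A ⊆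
        (fun x : ℝ => curve (P x).2 '' Icc 0 (2 * Real.pi)) ''
          (E ∩ (fun x => (P x).1) ⁻¹' {s}) := by
      intro C hC
      obtain ⟨φ, hφ, rfl⟩ := orbit_cl hX hA' hpos hC
      have hx : φ 0 ∈ E := ⟨s, hs, φ, hφ, rfl⟩
      have h1 := hP (φ 0) hx
      refine ⟨φ 0, ⟨hx, eq_param' hpos h1.2.1 hφ h1.2.2⟩, ?_⟩
      simp only
      rw [eq_sol' hX hA' hpos h1.2.1 hφ h1.2.2]
    exact (encard_le_encard hsub).trans (encard_image_le _ _)
  · refine iSup_le ?_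
    rintro ⟨n, u, hu, us⟩
    simp only
    have hs : ∀ i, (P (u i)).1 ∈ S ∧ Cl X A (P (u i)).1 (P (u i)).2 ∧ (P (u i)).2 0 = u i :=
      fun i => hP (u i) (us i)
    have hstep : ∀ i, |(P (u (i+1))).1 - (P (u i)).1| ≤ L (P (u (i+1))).2 - L (P (u i)).2 := by
      intro i
      rcases (hu (Nat.le_succ i)).eq_or_lt with h | h
      · rw [Nat.succ_eq_add_one] at h
        rw [h]; simp
      · have hlt := ordered' hX hA' hpos (hs i).2.1 (hs (i+1)).2.1
          (by rw [(hs i).2.2, (hs (i+1)).2.2]; exact h)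
        rw [abs_sub_comm]
        exact hL _ (hs i).1 _ (hs (i+1)).1 _ _ (hs i).2.1 (hs (i+1)).2.1 hlt
    calc ∑ i ∈ Finset.range n, edist (P (u (i+1))).1 (P (u i)).1
        ≤ ∑ i ∈ Finset.range n, ENNReal.ofReal (L (P (u (i+1))).2 - L (P (u i)).2) := by
          refine Finset.sum_le_sum fun i _ => ?_
          rw [edist_dist, Real.dist_eq]
          exact ENNReal.ofReal_le_ofReal (hstep i)
      _ = ENNReal.ofReal (∑ i ∈ Finset.range n, (L (P (u (i+1))).2 - L (P (u i)).2)) :=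
          (ENNReal.ofReal_sum_of_nonneg fun i _ => (abs_nonneg _).trans (hstep i)).symm
      _ = ENNReal.ofReal (L (P (u n)).2 - L (P (u 0)).2) := by
          rw [Finset.sum_range_sub (fun i => L (P (u i)).2)]
      _ ≤ ENNReal.ofReal (M₀ - m₀) := by
          apply ENNReal.ofReal_le_ofReal
          have h1 := (hb _ (hs n).1 _ (hs n).2.1).2
          have h2 := (hb _ (hs 0).1 _ (hs 0).2.1).1
          linarith

lemma En_lt {s₁ s₂ : ℝ} {φ ψ : ℝ → ℝ} (hφ : Cl X A s₁ φ) (hψ : Cl X A s₂ ψ)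
    (hlt : ∀ t ∈ Icc 0 (2 * Real.pi), φ t < ψ t) : En φ ≤ En ψ := by
  unfold En
  refine intervalIntegral.integral_mono_on Real.two_pi_pos.le
    (hφ.esq.intervalIntegrable _ _) (hψ.esq.intervalIntegrable _ _) (fun t ht => ?_)
  have := Real.exp_le_exp.2 (hlt t ht).le
  have h0 := Real.exp_pos (φ t)
  exact pow_le_pow_left₀ h0.le this 2

/-- **Local form.** -/
theorem local_mean (hX : ContDiff ℝ 1 X) (hA : ∀ t, (ray A t).OrdConnected)
    (hpos : ∀ p ∈ A, 0 < an X p) {r₁ r₂ : ℝ} (h1 : 0 < r₁) (h12 : r₁ ≤ r₂)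
    (hr : ∀ p ∈ A, r₁ ^ 2 ≤ p.1 ^ 2 + p.2 ^ 2 ∧ p.1 ^ 2 + p.2 ^ 2 ≤ r₂ ^ 2)
    (S : Set ℝ) (K : ℝ) (hK : ∀ s ∈ S, ∀ p ∈ A, |dv X p + 2 * s| ≤ K) :
    ∃ G : ℝ → ℝ≥0∞, Measurable G ∧
      (∀ s ∈ S, ((closedOrbitsIn (fam X s) A).encard : ℝ≥0∞) ≤ G s) ∧
      ∫⁻ s, G s ≤ ENNReal.ofReal (K * Real.log (r₂ / r₁)) := by
  have hpi := Real.two_pi_pos
  have hr2 : 0 < r₂ := h1.trans_le h12
  have hconst : K * Real.log (r₂ / r₁) =
      K / 2 * Real.log (2 * Real.pi * r₂ ^ 2) - K / 2 * Real.log (2 * Real.pi * r₁ ^ 2) := by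
    rw [Real.log_mul hpi.ne' (by positivity), Real.log_mul hpi.ne' (by positivity),
      Real.log_pow, Real.log_pow, Real.log_div hr2.ne' h1.ne']
    push_cast
    ring
  rw [hconst]
  refine count_bound hX hA hpos S (fun φ => K / 2 * Real.log (En φ)) _ _ ?_ ?_
  · intro s₁ hs₁ s₂ hs₂ φ ψ hφ hψ hlt
    have hd := param_diff hX hpos hφ hψ hlt (K := K) (fun t ht l hl =>
      hK s₁ hs₁ _ (pp_mem hA hφ hψ t (hlt t ht).le hl))
    have e1 := En_pos hφ
    have e2 := En_pos hψ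
    have hK0 : 0 ≤ K := (abs_nonneg _).trans (hK s₁ hs₁ _ (hφ.mem 0))
    have h3 : |s₁ - s₂| ≤ K / 2 * (1 - (En ψ / En φ)⁻¹) := by
      rw [inv_div]
      have : |s₁ - s₂| ≤ K / 2 * (En ψ - En φ) / En ψ := by
        rw [le_div_iff₀ e2]; exact hd
      refine this.trans (le_of_eq ?_)
      field_simp
    refine h3.trans ?_
    have h4 := Real.one_sub_inv_le_log_of_pos (div_pos e2 e1)
    rw [Real.log_div e2.ne' e1.ne'] at h4
    nlinarith
  · intro s hs φ hφ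
    have hK0 : 0 ≤ K := (abs_nonneg _).trans (hK s hs _ (hφ.mem 0))
    constructor
    · refine mul_le_mul_of_nonneg_left ?_ (by linarith)
      exact Real.log_le_log (by positivity) (le_En hφ fun p hp => (hr p hp).1)
    · refine mul_le_mul_of_nonneg_left ?_ (by linarith)
      exact Real.log_le_log (En_pos hφ) (En_le hφ fun p hp => (hr p hp).2)

lemma pp0_sq {ψ : ℝ → ℝ} {R : ℝ} {t l : ℝ} (h : Real.exp (ψ t) ≤ R) (hl : l ∈ Icc (0:ℝ) 1) :
    (pp (fun _ => 0) (fun t => Real.exp (ψ t)) l t).1 ^ 2 +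
      (pp (fun _ => 0) (fun t => Real.exp (ψ t)) l t).2 ^ 2 ≤ R ^ 2 := by
  have h0 := Real.exp_pos (ψ t)
  have h1 : (pp (fun _ => 0) (fun t => Real.exp (ψ t)) l t).1 ^ 2 +
      (pp (fun _ => 0) (fun t => Real.exp (ψ t)) l t).2 ^ 2 = (l * Real.exp (ψ t)) ^ 2 := by
    unfold pp rl
    have := Real.sin_sq_add_cos_sq t
    simp only
    linear_combination ((l * Real.exp (ψ t)) ^ 2) * this
  rw [h1]
  have h2 : l * Real.exp (ψ t) ≤ R := by nlinarith [hl.1, hl.2]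
  exact pow_le_pow_left₀ (mul_nonneg hl.1 h0.le) h2 2

lemma exp_le {s : ℝ} {ρ : ℝ → ℝ} (h : Cl X A s ρ) {R : ℝ} (hR : 0 ≤ R)
    (hA : ∀ p ∈ A, p.1 ^ 2 + p.2 ^ 2 ≤ R ^ 2) (t : ℝ) : Real.exp (ρ t) ≤ R := by
  have := hA _ (h.mem t)
  rw [pt_sq] at this
  exact abs_le_of_sq_le_sq' this hR |>.2

/-- the range of the parameters -/
theorem param_range (hX : ContDiff ℝ 1 X) (hpos : ∀ p ∈ A, 0 < an X p) {s : ℝ} {ψ : ℝ → ℝ}
    (hψ : Cl X A s ψ) {R : ℝ} (hRψ : ∀ t ∈ Icc 0 (2 * Real.pi), Real.exp (ψ t) ≤ R) {m M : ℝ}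
    (hmM : ∀ p : ℝ × ℝ, p.1 ^ 2 + p.2 ^ 2 ≤ R ^ 2 → m ≤ dv X p ∧ dv X p ≤ M) :
    m ≤ -(2 * s) ∧ -(2 * s) ≤ M := by
  have h1 := flux_one hX hpos hψ 0
  have h2 := int_bounds (fam_contDiff hX 0) (r₁ := fun _ => 0)
    (r₂ := fun t => Real.exp (ψ t)) continuous_const hψ.rcont
    (fun t _ => le_rfl) (fun t ht => (Real.exp_pos _).le)
    (a := m) (b := M) (fun t ht l hl => by
      rw [dv_fam hX, mul_zero, add_zero]
      exact hmM _ (pp0_sq (hRψ t ht) hl))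
  rw [← h1] at h2
  have h3 := En_pos hψ
  have h4 : ((∫ t in (0:ℝ)..(2 * Real.pi), Real.exp (ψ t) ^ 2) -
      ∫ t in (0:ℝ)..(2 * Real.pi), (0:ℝ) ^ 2) = En ψ := by
    unfold En; simp
  rw [h4] at h2
  constructor
  · have := h2.1
    have h5 : m / 2 * En ψ ≤ (0 - s) * En ψ := this
    have := le_of_mul_le_mul_right h5 h3
    linarith
  · have := h2.2
    have h5 : (0 - s) * En ψ ≤ M / 2 * En ψ := this
    have := le_of_mul_le_mul_right h5 h3
    linarith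

/-- **Global form.** -/
theorem global_mean (hX : ContDiff ℝ 1 X) (hA : ∀ t, (ray A t).OrdConnected)
    (hpos : ∀ p ∈ A, 0 < an X p) {r₁ r₂ : ℝ} (h1 : 0 < r₁) (h12 : r₁ ≤ r₂)
    (hr : ∀ p ∈ A, r₁ ^ 2 ≤ p.1 ^ 2 + p.2 ^ 2 ∧ p.1 ^ 2 + p.2 ^ 2 ≤ r₂ ^ 2)
    {m M : ℝ} (hmM : ∀ p : ℝ × ℝ, p.1 ^ 2 + p.2 ^ 2 ≤ r₂ ^ 2 → m ≤ dv X p ∧ dv X p ≤ M) :
    (∀ s ∉ Icc (-M / 2) (-m / 2), closedOrbitsIn (fam X s) A = ∅) ∧
    ∃ G : ℝ → ℝ≥0∞, Measurable G ∧
      (∀ s, ((closedOrbitsIn (fam X s) A).encard : ℝ≥0∞) ≤ G s) ∧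
      ∫⁻ s, G s ≤ ENNReal.ofReal ((M - m) * Real.log (r₂ / r₁)) := by
  have hemp : ∀ s ∉ Icc (-M / 2) (-m / 2), closedOrbitsIn (fam X s) A = ∅ := by
    intro s hs
    by_contra hne
    obtain ⟨C, hC⟩ := Set.nonempty_iff_ne_empty.2 hne
    obtain ⟨ρ, hρ, -⟩ := orbit_cl hX (reg_ord hA) hpos hC
    apply hs
    have := param_range hX hpos hρ (R := r₂)
      (fun t _ => exp_le hρ (h1.le.trans h12) (fun p hp => (hr p hp).2) t) hmM
    constructor <;> linarith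
  refine ⟨hemp, ?_⟩
  obtain ⟨G, hGm, hG, hGi⟩ := local_mean hX hA hpos h1 h12 hr (Icc (-M / 2) (-m / 2)) (M - m)
    (fun s hs p hp => by
      have := hmM p (hr p hp).2
      rw [abs_le]
      constructor <;> linarith [hs.1, hs.2, this.1, this.2])
  refine ⟨G, hGm, fun s => ?_, hGi⟩
  by_cases hs : s ∈ Icc (-M / 2) (-m / 2)
  · exact hG s hs
  · rw [hemp s hs]; simp

/-- **Form without lower cut-off**, for regions in which closed orbits are round. -/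
theorem focus_mean (hX : ContDiff ℝ 1 X) (hA : ∀ t, (ray A t).OrdConnected)
    (hpos : ∀ p ∈ A, 0 < an X p) {R : ℝ} (hR : 0 ≤ R)
    (hr : ∀ p ∈ A, p.1 ^ 2 + p.2 ^ 2 ≤ R ^ 2) {L κ : ℝ} (hL0 : 0 ≤ L)
    (hL : ∀ p : ℝ × ℝ, p.1 ^ 2 + p.2 ^ 2 ≤ R ^ 2 →
      |dv X p - dv X 0| ≤ L * Real.sqrt (p.1 ^ 2 + p.2 ^ 2))
    (S : Set ℝ) (hκ : ∀ s ∈ S, ∀ p ∈ A, |rd X p + s * (p.1 ^ 2 + p.2 ^ 2)| ≤ κ * an X p) :
    ∃ G : ℝ → ℝ≥0∞, Measurable G ∧
      (∀ s ∈ S, ((closedOrbitsIn (fam X s) A).encard : ℝ≥0∞) ≤ G s) ∧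
      ∫⁻ s, G s ≤ ENNReal.ofReal (2 * L * R * Real.exp (Real.pi * κ)) := by
  have hpi := Real.two_pi_pos
  -- roundness
  have hround : ∀ s ∈ S, ∀ ρ, Cl X A s ρ → ∀ t ∈ Icc 0 (2 * Real.pi),
      Real.exp (ρ t) ≤ Real.exp (Real.pi * κ) * Real.sqrt (En ρ / (2 * Real.pi)) := by
    intro s hs ρ hρ t ht
    have hlip : ∀ x y, |ρ x - ρ y| ≤ κ * |x - y| := by
      intro x y
      have := Convex.norm_image_sub_le_of_norm_hasDerivWithin_le (f := ρ)
        (f' := fun t => rhs X s t (ρ t)) (s := univ) (C := κ) (x := y) (y := x)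
        (fun t _ => (hρ.deriv t).hasDerivWithinAt) (fun t _ => ?_) convex_univ (mem_univ _)
        (mem_univ _)
      · simpa [Real.norm_eq_abs] using this
      · rw [Real.norm_eq_abs]
        unfold rhs
        have h1 := hpos _ (hρ.mem t)
        have h2 := hκ s hs _ (hρ.mem t)
        rw [pt_sq] at h2
        rw [abs_div, abs_of_pos h1, div_le_iff₀ h1]
        exact h2
    have hκ0 : 0 ≤ κ := by
      have := hlip 1 0
      have h3 := abs_nonneg (ρ 1 - ρ 0)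
      simp at this
      linarith
    have hper : Function.Periodic ρ (2 * Real.pi) := hρ.per
    -- all values are at distance at most `π κ`
    have hdist : ∀ x y, |ρ x - ρ y| ≤ Real.pi * κ := by
      intro x y
      obtain ⟨z, hz, hz'⟩ := hper.exists_mem_Ico hpi x (y - Real.pi)
      rw [hz']
      refine (hlip z y).trans ?_
      rw [mul_comm]
      refine mul_le_mul_of_nonneg_right ?_ hκ0
      rw [abs_le]
      constructor
      · linarith [hz.1]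
      · linarith [hz.2]
    have hge : Real.exp (ρ t) ^ 2 * Real.exp (-(Real.pi * κ)) ^ 2 * (2 * Real.pi) ≤ En ρ := by
      unfold En
      have h5 := intervalIntegral.integral_mono_on (μ := volume)
        (g := fun x => Real.exp (ρ x) ^ 2)
        (f := fun _ => Real.exp (ρ t) ^ 2 * Real.exp (-(Real.pi * κ)) ^ 2)
        Real.two_pi_pos.le intervalIntegrable_const
        (hρ.esq.intervalIntegrable _ _)
        (fun x _ => by
          rw [← mul_pow, ← Real.exp_add]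
          refine pow_le_pow_left₀ (Real.exp_pos _).le (Real.exp_le_exp.2 ?_) 2
          have := abs_le.1 (hdist t x)
          linarith [this.2])
      simp only [intervalIntegral.integral_const, sub_zero, smul_eq_mul] at h5
      linarith
    have h6 : (Real.exp (ρ t) * Real.exp (-(Real.pi * κ))) ^ 2 ≤ En ρ / (2 * Real.pi) := by
      rw [le_div_iff₀ hpi, mul_pow]; exact hge
    have h7 := Real.le_sqrt_of_sq_le h6
    rw [Real.exp_neg] at h7
    have h8 := Real.exp_pos (Real.pi * κ)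
    calc Real.exp (ρ t) = Real.exp (Real.pi * κ) * (Real.exp (ρ t) *
          (Real.exp (Real.pi * κ))⁻¹) := by field_simp
      _ ≤ _ := by gcongr
  have hconst : 2 * L * R * Real.exp (Real.pi * κ) =
      2 * L * Real.exp (Real.pi * κ) * R - 0 := by ring
  rw [hconst]
  refine count_bound hX hA hpos S
    (fun φ => 2 * L * Real.exp (Real.pi * κ) * Real.sqrt (En φ / (2 * Real.pi))) _ _ ?_ ?_
  · intro s₁ hs₁ s₂ hs₂ φ ψ hφ hψ hlt
    set a := Real.sqrt (En ψ / (2 * Real.pi)) with ha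
    set b := Real.sqrt (En φ / (2 * Real.pi)) with hb
    set ρm := Real.exp (Real.pi * κ) * a with hρm
    have e1 := En_pos hφ
    have e2 := En_pos hψ
    have ha0 : 0 < a := Real.sqrt_pos.2 (div_pos e2 hpi)
    have hb0 : 0 < b := Real.sqrt_pos.2 (div_pos e1 hpi)
    have ha2 : En ψ = 2 * Real.pi * a ^ 2 := by
      rw [ha, Real.sq_sqrt (div_pos e2 hpi).le]; field_simp
    have hb2 : En φ = 2 * Real.pi * b ^ 2 := by
      rw [hb, Real.sq_sqrt (div_pos e1 hpi).le]; field_simp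
    have hba : b ≤ a := by
      rw [ha, hb]
      exact Real.sqrt_le_sqrt (div_le_div_of_nonneg_right (En_lt hφ hψ hlt) hpi.le)
    have hρm0 : 0 < ρm := mul_pos (Real.exp_pos _) ha0
    have hψm : ∀ t ∈ Icc 0 (2 * Real.pi), Real.exp (ψ t) ≤ min ρm R := fun t ht =>
      le_min (hround s₂ hs₂ ψ hψ t ht) (exp_le hψ hR hr t)
    have hφm : ∀ t ∈ Icc 0 (2 * Real.pi), Real.exp (φ t) ≤ min ρm R := fun t ht =>
      (Real.exp_le_exp.2 (hlt t ht).le).trans (hψm t ht)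
    have hmin0 : 0 ≤ min ρm R := le_min hρm0.le hR
    have hdvb : ∀ p : ℝ × ℝ, p.1 ^ 2 + p.2 ^ 2 ≤ (min ρm R) ^ 2 →
        dv X 0 - L * ρm ≤ dv X p ∧ dv X p ≤ dv X 0 + L * ρm := by
      intro p hp
      have h1 : p.1 ^ 2 + p.2 ^ 2 ≤ R ^ 2 :=
        hp.trans (pow_le_pow_left₀ hmin0 (min_le_right _ _) 2)
      have h2 := hL p h1
      have h3 : Real.sqrt (p.1 ^ 2 + p.2 ^ 2) ≤ ρm := by
        rw [Real.sqrt_le_left hρm0.le]
        exact hp.trans (pow_le_pow_left₀ hmin0 (min_le_left _ _) 2)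
      have h4 := mul_le_mul_of_nonneg_left h3 hL0
      have h5 := abs_le.1 h2
      constructor <;> linarith [h5.1, h5.2]
    have hs := param_range hX hpos hφ (R := min ρm R) hφm hdvb
    have hd := param_diff hX hpos hφ hψ hlt (K := 2 * (L * ρm)) (fun t ht l hl => by
      have hppR : (pp (fun t => Real.exp (φ t)) (fun t => Real.exp (ψ t)) l t).1 ^ 2 +
          (pp (fun t => Real.exp (φ t)) (fun t => Real.exp (ψ t)) l t).2 ^ 2 ≤
            (min ρm R) ^ 2 := by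
        have q1 : (pp (fun t => Real.exp (φ t)) (fun t => Real.exp (ψ t)) l t).1 ^ 2 +
          (pp (fun t => Real.exp (φ t)) (fun t => Real.exp (ψ t)) l t).2 ^ 2 =
            ((1 - l) * Real.exp (φ t) + l * Real.exp (ψ t)) ^ 2 := by
          unfold pp rl
          have := Real.sin_sq_add_cos_sq t
          simp only
          linear_combination (((1 - l) * Real.exp (φ t) + l * Real.exp (ψ t)) ^ 2) * this
        rw [q1]
        have q2 := Real.exp_pos (φ t)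
        have q3 := Real.exp_pos (ψ t)
        have q4 := hφm t ht
        have q5 := hψm t ht
        refine pow_le_pow_left₀ ?_ ?_ 2
        · exact add_nonneg (mul_nonneg (by linarith [hl.2]) q2.le) (mul_nonneg hl.1 q3.le)
        · calc (1 - l) * Real.exp (φ t) + l * Real.exp (ψ t)
              ≤ (1 - l) * min ρm R + l * min ρm R :=
                add_le_add (mul_le_mul_of_nonneg_left q4 (by linarith [hl.2]))
                  (mul_le_mul_of_nonneg_left q5 hl.1)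
            _ = _ := by ring
      have := hdvb _ hppR
      rw [abs_le]
      constructor <;> linarith [this.1, this.2, hs.1, hs.2])
    rw [ha2, hb2] at hd
    have h9 : |s₁ - s₂| * a ^ 2 ≤ L * ρm * (a ^ 2 - b ^ 2) := by
      have : (2 * Real.pi) * (|s₁ - s₂| * a ^ 2) ≤ (2 * Real.pi) * (L * ρm * (a ^ 2 - b ^ 2)) := by
        linarith
      exact le_of_mul_le_mul_left this hpi
    have h10 : L * ρm * (a ^ 2 - b ^ 2) ≤ (2 * L * Real.exp (Real.pi * κ) * (a - b)) * a ^ 2 := by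
      have q0 : 0 ≤ L * Real.exp (Real.pi * κ) := mul_nonneg hL0 (Real.exp_pos _).le
      have q1 : a * (a ^ 2 - b ^ 2) ≤ 2 * (a - b) * a ^ 2 := by
        nlinarith [mul_nonneg (sub_nonneg.2 hba) ha0.le, mul_nonneg (mul_nonneg (sub_nonneg.2 hba)
          ha0.le) (sub_nonneg.2 hba)]
      calc L * ρm * (a ^ 2 - b ^ 2) = (L * Real.exp (Real.pi * κ)) * (a * (a ^ 2 - b ^ 2)) := by
            rw [hρm]; ring
        _ ≤ (L * Real.exp (Real.pi * κ)) * (2 * (a - b) * a ^ 2) :=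
            mul_le_mul_of_nonneg_left q1 q0
        _ = _ := by ring
    have h11 := le_of_mul_le_mul_right (h9.trans h10) (by positivity)
    linarith
  · intro s hs φ hφ
    have q0 : 0 ≤ 2 * L * Real.exp (Real.pi * κ) :=
      mul_nonneg (by linarith) (Real.exp_pos _).le
    constructor
    · exact mul_nonneg q0 (Real.sqrt_nonneg _)
    · refine mul_le_mul_of_nonneg_left ?_ q0
      rw [Real.sqrt_le_left hR, div_le_iff₀ hpi]
      have := En_le hφ hr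
      linarith

end Pool.Agent.U588.TR
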