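import Mathlib
import Pool.Agent.U588.TR.TR4

/-! The logarithmic bound is of the right order, already for polynomial systems. -/

open Set MeasureTheory Topology Filter
open scoped ENNReal NNReal

namespace Pool.Agent.U588.TR

open Pool.Agent.TH525.PU hiding pt
open Pool.Agent.TH525.AG

lemma antideriv (q : Polynomial ℝ) : ∃ H : Polynomial ℝ, H.derivative = q ∧ H.eval 0 = 0 := by
  induction q using Polynomial.induction_on' with
  | add p q hp hq =>
    obtain ⟨H, h1, h2⟩ := hp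
    obtain ⟨H', h1', h2'⟩ := hq
    exact ⟨H + H', by rw [Polynomial.derivative_add, h1, h1'],
      by rw [Polynomial.eval_add, h2, h2', add_zero]⟩
  | monomial n a =>
    refine ⟨Polynomial.monomial (n + 1) (a / (n + 1)), ?_, ?_⟩
    · rw [Polynomial.derivative_monomial]
      push_cast
      rw [div_mul_cancel₀ _ (by positivity)]
    · rw [Polynomial.eval_monomial]; simp

/-- the radial system -/
noncomputable def rsys (H : Polynomial ℝ) (p : ℝ × ℝ) : ℝ × ℝ :=
  (-p.2 + p.1 * H.eval (p.1 ^ 2 + p.2 ^ 2), p.1 + p.2 * H.eval (p.1 ^ 2 + p.2 ^ 2))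

lemma rsys_an (H : Polynomial ℝ) (p : ℝ × ℝ) : an (rsys H) p = p.1 ^ 2 + p.2 ^ 2 := by
  unfold an rsys
  ring

lemma rsys_dv (H : Polynomial ℝ) (p : ℝ × ℝ) : dv (rsys H) p =
    2 * H.eval (p.1 ^ 2 + p.2 ^ 2) + 2 * (p.1 ^ 2 + p.2 ^ 2) *
      H.derivative.eval (p.1 ^ 2 + p.2 ^ 2) := by
  have hu : HasFDerivAt (fun p : ℝ × ℝ => p.1 ^ 2 + p.2 ^ 2)
      ((2 * p.1) • ContinuousLinearMap.fst ℝ ℝ ℝ + (2 * p.2) • ContinuousLinearMap.snd ℝ ℝ ℝ) p := by
    have h1 := (hasFDerivAt_fst (𝕜 := ℝ) (p := p)).pow 2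
    have h2 := (hasFDerivAt_snd (𝕜 := ℝ) (p := p)).pow 2
    refine (h1.add h2).congr_fderiv ?_
    ext <;> simp
  have hH : HasFDerivAt (fun p : ℝ × ℝ => H.eval (p.1 ^ 2 + p.2 ^ 2))
      (H.derivative.eval (p.1 ^ 2 + p.2 ^ 2) •
        ((2 * p.1) • ContinuousLinearMap.fst ℝ ℝ ℝ + (2 * p.2) • ContinuousLinearMap.snd ℝ ℝ ℝ)) p :=
    HasDerivAt.comp_hasFDerivAt (h₂ := fun x : ℝ => H.eval x)
      (f := fun p : ℝ × ℝ => p.1 ^ 2 + p.2 ^ 2) p (H.hasDerivAt (p.1 ^ 2 + p.2 ^ 2)) hu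
  have h3 := ((hasFDerivAt_snd (𝕜 := ℝ) (p := p)).neg.add
    ((hasFDerivAt_fst (𝕜 := ℝ) (p := p)).mul hH)).prodMk
    ((hasFDerivAt_fst (𝕜 := ℝ) (p := p)).add ((hasFDerivAt_snd (𝕜 := ℝ) (p := p)).mul hH))
  have h4 : fderiv ℝ (rsys H) p = _ := h3.fderiv
  unfold dv
  rw [h4]
  simp
  ring

lemma rsys_contDiff (H : Polynomial ℝ) : ContDiff ℝ 1 (rsys H) := by
  have hu : ContDiff ℝ 1 (fun p : ℝ × ℝ => H.eval (p.1 ^ 2 + p.2 ^ 2)) := by
    have h1 : ContDiff ℝ 1 (fun x : ℝ => H.eval x) := by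
      simpa using Polynomial.contDiff_aeval (𝕜 := ℝ) H 1
    exact h1.comp ((contDiff_fst.pow 2).add (contDiff_snd.pow 2))
  exact (contDiff_snd.neg.add (contDiff_fst.mul hu)).prodMk
    (contDiff_fst.add (contDiff_snd.mul hu))

/-- circles -/
noncomputable def circ (r : ℝ) (t : ℝ) : ℝ × ℝ := (r * Real.cos t, r * Real.sin t)

lemma circ_sq (r t : ℝ) : (circ r t).1 ^ 2 + (circ r t).2 ^ 2 = r ^ 2 := by
  unfold circ
  have := Real.sin_sq_add_cos_sq t
  simp only
  linear_combination (r ^ 2) * this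

lemma circ_orbit {H : Polynomial ℝ} {s u : ℝ} (hu : 0 < u) (hH : H.eval u + s = 0)
    {A : Set (ℝ × ℝ)} (hA : ∀ p : ℝ × ℝ, p.1 ^ 2 + p.2 ^ 2 = u → p ∈ A) :
    range (circ (Real.sqrt u)) ∈ closedOrbitsIn (fam (rsys H) s) A := by
  have hs : Real.sqrt u ^ 2 = u := Real.sq_sqrt hu.le
  refine ⟨⟨circ (Real.sqrt u), 2 * Real.pi, Real.two_pi_pos, fun t => ?_, fun t => ?_, ?_, rfl⟩, ?_⟩
  · have h1 : HasDerivAt (circ (Real.sqrt u)) (Real.sqrt u * (-Real.sin t),
        Real.sqrt u * Real.cos t) t :=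
      ((Real.hasDerivAt_cos t).const_mul _).prodMk ((Real.hasDerivAt_sin t).const_mul _)
    refine h1.congr_deriv ?_
    have h2 := circ_sq (Real.sqrt u) t
    rw [hs] at h2
    unfold fam rsys
    rw [h2]
    have h3 : H.eval u = -s := by linarith
    rw [h3]
    ext
    · simp [circ]; ring
    · simp [circ]; ring
  · unfold circ
    rw [Real.cos_add_two_pi, Real.sin_add_two_pi]
  · refine ⟨0, Real.pi, fun h => ?_⟩
    have h1 := congrArg Prod.fst h
    unfold circ at h1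
    simp at h1
    have := Real.sqrt_pos.2 hu
    linarith
  · rintro _ ⟨t, rfl⟩
    exact hA _ (by rw [circ_sq, hs])

/-- polynomials approximating a function and its derivative -/
lemma approx {B τ : ℝ} (hB : 0 < B) (hτ : 0 < τ) {h g : ℝ → ℝ} (h0 : h 0 = 0)
    (hd : ∀ x ∈ Icc 0 B, HasDerivAt h (g x) x) (hg : ContinuousOn g (Icc 0 B)) :
    ∃ H : Polynomial ℝ, ∀ u ∈ Icc 0 B,
      |H.eval u - h u| ≤ τ ∧ |u * (H.derivative.eval u - g u)| ≤ τ := by
  obtain ⟨q, hq⟩ := exists_polynomial_near_of_continuousOn 0 B g hg (τ / B) (by positivity)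
  obtain ⟨H, hH, hH0⟩ := antideriv q
  refine ⟨H, fun u hu => ?_⟩
  have hd' : ∀ x ∈ Icc 0 B, HasDerivWithinAt (fun x => H.eval x - h x)
      (q.eval x - g x) (Icc 0 B) x := by
    intro x hx
    have h2 := H.hasDerivAt x
    rw [hH] at h2
    exact (h2.sub (hd x hx)).hasDerivWithinAt
  constructor
  · have := (convex_Icc (0:ℝ) B).norm_image_sub_le_of_norm_hasDerivWithin_le
      (C := τ / B) hd' (fun x hx => by rw [Real.norm_eq_abs]; exact (hq x hx).le)
      (left_mem_Icc.2 hB.le) hu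
    simp only [Real.norm_eq_abs, h0, hH0, sub_zero] at this
    refine this.trans ?_
    rw [abs_of_nonneg hu.1]
    calc τ / B * u ≤ τ / B * B := by
          apply mul_le_mul_of_nonneg_left hu.2 (by positivity)
      _ = _ := by field_simp
  · rw [hH, abs_mul, abs_of_nonneg hu.1]
    calc u * |q.eval u - g u| ≤ B * (τ / B) :=
          mul_le_mul hu.2 (hq u hu).le (abs_nonneg _) hB.le
      _ = _ := by field_simp

/-- the model function -/
noncomputable def hm (β k u : ℝ) : ℝ :=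
  Real.arcsin (Real.sin β * Real.sin (k * Real.log (1 + u)))

/-- its derivative -/
noncomputable def gm (β k u : ℝ) : ℝ :=
  1 / Real.sqrt (1 - (Real.sin β * Real.sin (k * Real.log (1 + u))) ^ 2) *
    (Real.sin β * (Real.cos (k * Real.log (1 + u)) * (k * (1 / (1 + u)))))

lemma sb_lt {β : ℝ} (h0 : 0 < β) (h1 : β < Real.pi / 2) : 0 < Real.sin β ∧ Real.sin β < 1 := by
  constructor
  · exact Real.sin_pos_of_pos_of_lt_pi h0 (by linarith [Real.pi_pos])
  · rw [← Real.sin_pi_div_two]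
    exact Real.sin_lt_sin_of_lt_of_le_pi_div_two (by linarith) le_rfl h1

lemma prod_abs_lt {β x : ℝ} (h0 : 0 < β) (h1 : β < Real.pi / 2) :
    |Real.sin β * Real.sin x| < 1 := by
  obtain ⟨h2, h3⟩ := sb_lt h0 h1
  rw [abs_mul, abs_of_pos h2]
  calc Real.sin β * |Real.sin x| ≤ Real.sin β * 1 :=
        mul_le_mul_of_nonneg_left (Real.abs_sin_le_one x) h2.le
    _ < 1 := by linarith

lemma hm_deriv {β k u : ℝ} (h0 : 0 < β) (h1 : β < Real.pi / 2) (hu : 0 ≤ u) :
    HasDerivAt (hm β k) (gm β k u) u := by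
  have hlt := abs_lt.1 (prod_abs_lt (x := k * Real.log (1 + u)) h0 h1)
  have h3 : HasDerivAt (fun x : ℝ => 1 + x) 1 u := (hasDerivAt_id u).const_add 1
  have h4 := (h3.log (by linarith : (1:ℝ) + u ≠ 0)).const_mul k
  have h5 := ((Real.hasDerivAt_sin (k * Real.log (1 + u))).comp u h4).const_mul (Real.sin β)
  exact (Real.hasDerivAt_arcsin hlt.1.ne' hlt.2.ne).comp u h5

lemma sqrt_pos' {β x : ℝ} (h0 : 0 < β) (h1 : β < Real.pi / 2) :
    0 < 1 - (Real.sin β * Real.sin x) ^ 2 := by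
  have hlt := abs_lt.1 (prod_abs_lt (x := x) h0 h1)
  nlinarith [hlt.1, hlt.2]

lemma gm_cont {β k B : ℝ} (h0 : 0 < β) (h1 : β < Real.pi / 2) :
    ContinuousOn (gm β k) (Icc 0 B) := by
  have hl : ContinuousOn (fun u : ℝ => k * Real.log (1 + u)) (Icc 0 B) :=
    continuousOn_const.mul (ContinuousOn.log (by fun_prop) (fun x hx => by linarith [hx.1]))
  have hs : ContinuousOn (fun u : ℝ => Real.sin (k * Real.log (1 + u))) (Icc 0 B) :=
    Real.continuous_sin.comp_continuousOn hl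
  have hc : ContinuousOn (fun u : ℝ => Real.cos (k * Real.log (1 + u))) (Icc 0 B) :=
    Real.continuous_cos.comp_continuousOn hl
  unfold gm
  refine ContinuousOn.mul ?_ (continuousOn_const.mul (hc.mul (continuousOn_const.mul ?_)))
  · refine continuousOn_const.div ?_ (fun x hx => (Real.sqrt_pos.2 (sqrt_pos' h0 h1)).ne')
    exact Real.continuous_sqrt.comp_continuousOn
      (continuousOn_const.sub ((continuousOn_const.mul hs).pow 2))
  · exact continuousOn_const.div (by fun_prop) (fun x hx => by linarith [hx.1])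

lemma gm_bound {β k u : ℝ} (h0 : 0 < β) (h1 : β < Real.pi / 2) (hu : 0 ≤ u) (hk : 0 ≤ k) :
    |u * gm β k u| ≤ k := by
  unfold gm
  set x := k * Real.log (1 + u) with hx
  obtain ⟨hb0, hb1⟩ := sb_lt h0 h1
  have hp := sqrt_pos' (x := x) h0 h1
  have hsp := Real.sqrt_pos.2 hp
  have h2 : |Real.sin β * Real.cos x| ≤ Real.sqrt (1 - (Real.sin β * Real.sin x) ^ 2) := by
    apply Real.abs_le_sqrt
    have h6 := Real.sin_sq_add_cos_sq x
    have h7 : Real.sin β ^ 2 ≤ 1 := by nlinarith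
    have h8 : (Real.sin β * Real.cos x) ^ 2 + (Real.sin β * Real.sin x) ^ 2 = Real.sin β ^ 2 := by
      linear_combination (Real.sin β ^ 2) * h6
    linarith
  have h3 : |u / (1 + u)| ≤ 1 := by
    rw [abs_of_nonneg (div_nonneg hu (by linarith)), div_le_one (by linarith)]
    linarith
  have h4 : u * (1 / Real.sqrt (1 - (Real.sin β * Real.sin x) ^ 2) *
      (Real.sin β * (Real.cos x * (k * (1 / (1 + u)))))) =
      ((Real.sin β * Real.cos x) / Real.sqrt (1 - (Real.sin β * Real.sin x) ^ 2)) *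
        (u / (1 + u)) * k := by
    ring
  rw [h4, abs_mul, abs_mul, abs_div, abs_of_pos hsp, abs_of_nonneg hk]
  have h5 : |Real.sin β * Real.cos x| / Real.sqrt (1 - (Real.sin β * Real.sin x) ^ 2) ≤ 1 := by
    rw [div_le_one hsp]; exact h2
  calc _ ≤ 1 * 1 * k := by gcongr
    _ = k := by ring

lemma hm_abs {β k u : ℝ} : |hm β k u| ≤ Real.pi / 2 := by
  unfold hm
  exact abs_le.2 ⟨Real.neg_pi_div_two_le_arcsin _, Real.arcsin_le_pi_div_two _⟩

/-- **Sharpness**, with parameters. -/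
theorem sharp_aux {β τ : ℝ} (h0 : 0 < β) (h1 : β < Real.pi / 2) (hτ : 0 < τ) (hτβ : 2 * τ < β)
    (k n : ℕ) (hk : 1 ≤ k) : ∃ H : Polynomial ℝ,
    (∀ p : ℝ × ℝ, p.1 ^ 2 + p.2 ^ 2 ≤ Real.exp ((k + n + 1) * Real.pi / (2 * k)) ^ 2 →
      |dv (rsys H) p| ≤ Real.pi + 2 * k + 4 * τ) ∧
    ∀ s : ℝ, |s| ≤ β - 2 * τ → (n : ℕ∞) ≤ (closedOrbitsIn (fam (rsys H) s)
      {p | 1 ^ 2 ≤ p.1 ^ 2 + p.2 ^ 2 ∧
        p.1 ^ 2 + p.2 ^ 2 ≤ Real.exp ((k + n + 1) * Real.pi / (2 * k)) ^ 2}).encard := by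
  have hk0 : (0:ℝ) < k := by exact_mod_cast hk
  set R := Real.exp ((k + n + 1) * Real.pi / (2 * k)) with hR
  have hpi := Real.pi_pos
  have hR2 : R ^ 2 = Real.exp ((k + n + 1) * Real.pi / k) := by
    rw [hR, ← Real.exp_nat_mul]; congr 1; push_cast; field_simp
  obtain ⟨H, hH⟩ := approx (B := R ^ 2) (τ := τ) (h := hm β k) (g := gm β k) (by positivity) hτ
    (by simp [hm]) (fun x hx => hm_deriv h0 h1 hx.1) (gm_cont h0 h1)
  refine ⟨H, fun p hp => ?_, fun s hs => ?_⟩
  · rw [rsys_dv]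
    set u := p.1 ^ 2 + p.2 ^ 2 with hu
    have hu0 : 0 ≤ u := by positivity
    obtain ⟨a1, a2⟩ := hH u ⟨hu0, hp⟩
    have a3 := gm_bound (k := (k:ℝ)) h0 h1 hu0 hk0.le
    have a4 := hm_abs (β := β) (k := (k:ℝ)) (u := u)
    have e : 2 * H.eval u + 2 * u * H.derivative.eval u = 2 * hm β k u + 2 * (u * gm β k u) +
        2 * (H.eval u - hm β k u) + 2 * (u * (H.derivative.eval u - gm β k u)) := by ring
    rw [e]
    have b1 := abs_le.1 a1
    have b2 := abs_le.1 a2
    have b3 := abs_le.1 a3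
    have b4 := abs_le.1 a4
    rw [abs_le]
    constructor <;> linarith [b1.1, b1.2, b2.1, b2.2, b3.1, b3.2, b4.1, b4.2]
  · -- the points at which the sign is known
    set v : ℕ → ℝ := fun j => ((k + j : ℕ) * Real.pi + Real.pi / 2) / k with hv
    set a : ℕ → ℝ := fun j => Real.exp (v j) - 1 with ha
    have ha1 : ∀ j, 1 ≤ a j := by
      intro j
      have h2 : (1:ℝ) ≤ v j := by
        simp only [hv]
        rw [le_div_iff₀ hk0]
        push_cast
        have := Real.pi_gt_three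
        have : (0:ℝ) ≤ j := Nat.cast_nonneg j
        nlinarith
      have h3 := Real.add_one_le_exp (v j)
      simp only [ha]; linarith
    have haR : ∀ j ≤ n, a j ≤ R ^ 2 := by
      intro j hj
      rw [hR2]
      have h2 : v j ≤ (k + n + 1) * Real.pi / k := by
        have : (j:ℝ) ≤ n := by exact_mod_cast hj
        simp only [hv]
        refine div_le_div_of_nonneg_right ?_ hk0.le
        push_cast
        nlinarith
      have := Real.exp_le_exp.2 h2
      simp only [ha]; linarith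
    have hval : ∀ j, hm β k (a j) = (-1) ^ (k + j) * β := by
      intro j
      have e1 : (k:ℝ) * Real.log (1 + a j) = (k + j : ℕ) * Real.pi + Real.pi / 2 := by
        simp only [ha]
        rw [add_sub_cancel, Real.log_exp]
        simp only [hv]
        field_simp
      unfold hm
      rw [e1, Real.sin_add_pi_div_two, Real.cos_nat_mul_pi]
      rcases neg_one_pow_eq_or ℝ (k + j) with h | h
      · rw [h, mul_one, one_mul]
        exact Real.arcsin_sin (by linarith) h1.le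
      · rw [h, mul_neg, mul_one, Real.arcsin_neg, Real.arcsin_sin (by linarith) h1.le]
        ring
    have hamono : ∀ j, a j ≤ a (j + 1) := by
      intro j
      have : v j ≤ v (j + 1) := by
        simp only [hv]
        refine div_le_div_of_nonneg_right ?_ hk0.le
        push_cast; linarith
      have := Real.exp_le_exp.2 this
      simp only [ha]; linarith
    have hsign : ∀ j ≤ n, 0 < (-1) ^ (k + j) * (H.eval (a j) + s) := by
      intro j hj
      have h2 := (hH (a j) ⟨by linarith [ha1 j], haR j hj⟩).1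
      rw [hval] at h2
      have h3 := abs_le.1 h2
      have h4 := abs_le.1 hs
      rcases neg_one_pow_eq_or ℝ (k + j) with h | h
      · rw [h] at h3 ⊢; linarith [h3.1, h4.1]
      · rw [h] at h3 ⊢; linarith [h3.2, h4.2]
    have hroot : ∀ j < n, ∃ u, a j < u ∧ u < a (j + 1) ∧ H.eval u + s = 0 := by
      intro j hj
      have h2 := hsign j hj.le
      have h3 := hsign (j + 1) hj
      rw [← add_assoc, pow_succ] at h3
      have hc : ContinuousOn (fun u => (-1) ^ (k + j) * (H.eval u + s))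
          (Icc (a j) (a (j + 1))) := by
        fun_prop
      have h4 := intermediate_value_Ioo' (hamono j) hc
      obtain ⟨u, hu, hu0⟩ := h4 (show (0:ℝ) ∈ _ from ⟨by linarith, h2⟩)
      refine ⟨u, hu.1, hu.2, ?_⟩
      simp only at hu0
      rcases mul_eq_zero.1 hu0 with h | h
      · exact absurd h (pow_ne_zero _ (by norm_num))
      · exact h
    have hex : ∀ j : ℕ, ∃ u : ℝ, j < n → a j < u ∧ u < a (j + 1) ∧ H.eval u + s = 0 := by
      intro j
      by_cases hj : j < n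
      · obtain ⟨u, hu⟩ := hroot j hj
        exact ⟨u, fun _ => hu⟩
      · exact ⟨0, fun h => absurd h hj⟩
    choose u hu using hex
    have hmono : ∀ i j, i < j → j < n → u i < u j := by
      intro i j hij hj
      have h2 := (hu i (hij.trans hj)).2.1
      have h3 := (hu j hj).1
      have h4 : a (i + 1) ≤ a j := (monotone_nat_of_le_succ hamono) hij
      linarith
    have hinj : InjOn (fun j => range (circ (Real.sqrt (u j)))) (Finset.range n : Set ℕ) := by
      intro i hi j hj hij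
      simp only [Finset.coe_range, mem_Iio] at hi hj
      have hip : 0 < u i := by linarith [(hu i hi).1, ha1 i]
      have hjp : 0 < u j := by linarith [(hu j hj).1, ha1 j]
      have h2 : circ (Real.sqrt (u i)) 0 ∈ range (circ (Real.sqrt (u j))) := by
        have : circ (Real.sqrt (u i)) 0 ∈ range (circ (Real.sqrt (u i))) := ⟨0, rfl⟩
        simp only at hij
        rwa [hij] at this
      obtain ⟨t, ht⟩ := h2
      have h3 := circ_sq (Real.sqrt (u i)) 0
      rw [← ht, circ_sq, Real.sq_sqrt hip.le, Real.sq_sqrt hjp.le] at h3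
      rcases lt_trichotomy i j with h | h | h
      · linarith [hmono i j h hj]
      · exact h
      · linarith [hmono j i h hi]
    have hsub : (fun j => range (circ (Real.sqrt (u j)))) '' (Finset.range n : Set ℕ) ⊆
        closedOrbitsIn (fam (rsys H) s) {p | 1 ^ 2 ≤ p.1 ^ 2 + p.2 ^ 2 ∧
        p.1 ^ 2 + p.2 ^ 2 ≤ R ^ 2} := by
      rintro _ ⟨j, hj, rfl⟩
      simp only [Finset.coe_range, mem_Iio] at hj
      have h2 := hu j hj
      refine circ_orbit (by linarith [ha1 j, h2.1]) h2.2.2 (fun p hp => ?_)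
      simp only [mem_ofPred_eq, hp]
      exact ⟨by linarith [ha1 j, h2.1], by linarith [haR (j + 1) hj, h2.2.1]⟩
    have := encard_le_encard hsub
    rw [hinj.encard_image, Set.encard_coe_eq_coe_finsetCard, Finset.card_range] at this
    exact this

/-- **Sharpness.** -/
theorem sharp {ε : ℝ} (hε : 0 < ε) : ∃ H : Polynomial ℝ, ∃ R c M : ℝ, ∃ n : ℕ,
    1 < R ∧ 0 < c ∧ 0 < M ∧
    (∀ p : ℝ × ℝ, p.1 ^ 2 + p.2 ^ 2 ≤ R ^ 2 → |dv (rsys H) p| ≤ M) ∧
    (∀ s : ℝ, |s| ≤ c → (n : ℕ∞) ≤ (closedOrbitsIn (fam (rsys H) s)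
      {p | 1 ^ 2 ≤ p.1 ^ 2 + p.2 ^ 2 ∧ p.1 ^ 2 + p.2 ^ 2 ≤ R ^ 2}).encard) ∧
    (1 - ε) * Real.log R ≤ 2 * c * n / (M + 2 * c) := by
  wlog hε1 : ε < 1 generalizing ε with hw
  · obtain ⟨H, R, c, M, n, h1, h2, h3, h4, h5, h6⟩ := hw (ε := 1 / 2) (by norm_num) (by norm_num)
    refine ⟨H, R, c, M, n, h1, h2, h3, h4, h5, le_trans ?_ h6⟩
    have := Real.log_pos h1
    push Not at hε1
    nlinarith
  have hpi := Real.pi_pos
  set β := Real.pi / 2 * (1 - ε / 4) with hβ
  set τ := Real.pi * ε / 16 with hτ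
  have hτ0 : 0 < τ := by positivity
  have hβ0 : 0 < β := mul_pos (by positivity) (by linarith)
  have hβ1 : β < Real.pi / 2 := by rw [hβ]; nlinarith
  have hτβ : 2 * τ < β := by rw [hβ, hτ]; nlinarith
  obtain ⟨k, hk⟩ := exists_nat_gt (4 * Real.pi / ε)
  have hkpos : (0:ℝ) < k := lt_trans (by positivity) hk
  have hk1 : 1 ≤ k := by
    have : 0 < k := by exact_mod_cast hkpos
    exact this
  obtain ⟨n, hn⟩ := exists_nat_gt (4 * (k + 1) / ε)
  have hnpos : (0:ℝ) < n := lt_trans (by positivity) hn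
  obtain ⟨H, hH1, hH2⟩ := sharp_aux hβ0 hβ1 hτ0 hτβ k n hk1
  have hlogR : Real.log (Real.exp ((k + n + 1) * Real.pi / (2 * k))) =
      (k + n + 1) * Real.pi / (2 * k) := Real.log_exp _
  refine ⟨H, Real.exp ((k + n + 1) * Real.pi / (2 * k)), β - 2 * τ, Real.pi + 2 * k + 4 * τ, n,
    Real.one_lt_exp_iff.2 (by positivity), by linarith, by positivity, hH1, hH2, ?_⟩
  rw [hlogR]
  have hKpos : 0 < Real.pi + 2 * k + 4 * τ + 2 * (β - 2 * τ) := by
    have : 0 < β - 2 * τ := by linarith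
    positivity
  rw [le_div_iff₀ hKpos]
  have hK : Real.pi + 2 * k + 4 * τ + 2 * (β - 2 * τ) ≤ 2 * k + 2 * Real.pi := by linarith
  have hk2 : Real.pi / k ≤ ε / 4 := by
    rw [div_le_iff₀ hkpos]
    rw [div_lt_iff₀ hε] at hk
    linarith
  have hn2 : (k:ℝ) + n + 1 ≤ (1 + ε / 4) * n := by
    rw [div_lt_iff₀ hε] at hn
    linarith
  calc (1 - ε) * ((k + n + 1) * Real.pi / (2 * k)) *
        (Real.pi + 2 * k + 4 * τ + 2 * (β - 2 * τ))
      ≤ (1 - ε) * ((k + n + 1) * Real.pi / (2 * k)) * (2 * k + 2 * Real.pi) := by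
        refine mul_le_mul_of_nonneg_left hK ?_
        exact mul_nonneg (by linarith) (by positivity)
    _ = (1 - ε) * Real.pi * (k + n + 1) * (1 + Real.pi / k) := by field_simp
    _ ≤ (1 - ε) * Real.pi * ((1 + ε / 4) * n) * (1 + ε / 4) := by
        have h1ε : 0 ≤ 1 - ε := by linarith
        gcongr
    _ = (Real.pi * n) * ((1 - ε) * (1 + ε / 4) ^ 2) := by ring
    _ ≤ (Real.pi * n) * (1 - ε / 2) := by
        refine mul_le_mul_of_nonneg_left ?_ (by positivity)
        nlinarith [mul_pos hε hε, mul_pos (mul_pos hε hε) hε]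
    _ = 2 * (β - 2 * τ) * n := by rw [hβ, hτ]; ring

/-- the polynomials of the radial system -/
lemma rsys_poly (H : Polynomial ℝ) : ∃ P Q : MvPolynomial (Fin 2) ℝ, ∀ p : ℝ × ℝ,
    rsys H p = (MvPolynomial.eval ![p.1, p.2] P, MvPolynomial.eval ![p.1, p.2] Q) := by
  have key : ∀ p : ℝ × ℝ, MvPolynomial.eval ![p.1, p.2]
      (Polynomial.aeval ((MvPolynomial.X 0 : MvPolynomial (Fin 2) ℝ) ^ 2 + MvPolynomial.X 1 ^ 2) H) =
      H.eval (p.1 ^ 2 + p.2 ^ 2) := by
    intro p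
    have h1 := Polynomial.aeval_algHom_apply (MvPolynomial.aeval (R := ℝ) ![p.1, p.2])
      ((MvPolynomial.X 0 : MvPolynomial (Fin 2) ℝ) ^ 2 + MvPolynomial.X 1 ^ 2) H
    simp only [map_add, map_pow, MvPolynomial.aeval_X, Matrix.cons_val_zero,
      Matrix.cons_val_one] at h1
    rw [← MvPolynomial.coe_aeval_eq_eval]
    have h2 : (MvPolynomial.aeval ![p.1, p.2]) ((Polynomial.aeval
        ((MvPolynomial.X 0 : MvPolynomial (Fin 2) ℝ) ^ 2 + MvPolynomial.X 1 ^ 2)) H) =
        (Polynomial.aeval (p.1 ^ 2 + p.2 ^ 2)) H := h1.symm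
    calc _ = _ := h2
      _ = _ := by rw [Polynomial.coe_aeval_eq_eval]
  refine ⟨-MvPolynomial.X 1 + MvPolynomial.X 0 * Polynomial.aeval
      ((MvPolynomial.X 0 : MvPolynomial (Fin 2) ℝ) ^ 2 + MvPolynomial.X 1 ^ 2) H,
    MvPolynomial.X 0 + MvPolynomial.X 1 * Polynomial.aeval
      ((MvPolynomial.X 0 : MvPolynomial (Fin 2) ℝ) ^ 2 + MvPolynomial.X 1 ^ 2) H, fun p => ?_⟩
  rw [map_add, map_mul, key, map_neg, map_add, map_mul, key]
  simp [rsys]

end Pool.Agent.U588.TR
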