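import Mathlib
import Pool.Agent.U588.TR.TR4

/-! The sharp weighted form of the mean bound. -/

open Set MeasureTheory Topology Filter
open scoped ENNReal NNReal

namespace Pool.Agent.U588.TR

open Pool.Agent.TH525.PU hiding pt
open Pool.Agent.TH525.AG

variable {X : ℝ × ℝ → ℝ × ℝ} {A : Set (ℝ × ℝ)}

/-- counting closed orbits by a monotone functional, with a function of the parameter -/
theorem count_bound_w (hX : ContDiff ℝ 1 X) (hA : ∀ t, (ray A t).OrdConnected)
    (hpos : ∀ p ∈ A, 0 < an X p) (f : ℝ → ℝ) (L : (ℝ → ℝ) → ℝ) (m₀ M₀ : ℝ)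
    (hL : ∀ s₁ s₂ : ℝ, ∀ φ ψ : ℝ → ℝ, Cl X A s₁ φ → Cl X A s₂ ψ →
      (∀ t ∈ Icc 0 (2 * Real.pi), φ t < ψ t) → |f s₁ - f s₂| ≤ L ψ - L φ)
    (hb : ∀ s : ℝ, ∀ φ : ℝ → ℝ, Cl X A s φ → m₀ ≤ L φ ∧ L φ ≤ M₀) :
    ∃ g : ℝ → ℝ≥0∞, Measurable g ∧
      (∀ s, ((closedOrbitsIn (fam X s) A).encard : ℝ≥0∞) ≤ g (f s)) ∧
      ∫⁻ s, g s ≤ ENNReal.ofReal (M₀ - m₀) := by
  classical
  have hA' := reg_ord hA
  set E : Set ℝ := {x | ∃ s, ∃ φ, Cl X A s φ ∧ φ 0 = x} with hE
  have hex : ∀ x, ∃ p : ℝ × (ℝ → ℝ), x ∈ E → Cl X A p.1 p.2 ∧ p.2 0 = x := by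
    intro x
    by_cases hx : x ∈ E
    · obtain ⟨s, φ, h1, h2⟩ := hx
      exact ⟨(s, φ), fun _ => ⟨h1, h2⟩⟩
    · exact ⟨(0, fun _ => 0), fun h => absurd h hx⟩
  choose P hP using hex
  obtain ⟨g, hgm, hg, hgi⟩ := majorant (fun x => f (P x).1) E
  refine ⟨g, hgm, fun s => ?_, hgi.trans ?_⟩
  · refine le_trans ?_ (hg (f s))
    refine ENat.toENNReal_le.2 ?_
    have hsub : closedOrbitsIn (fam X s) A ⊆
        (fun x : ℝ => curve (P x).2 '' Icc 0 (2 * Real.pi)) ''
          (E ∩ (fun x => f (P x).1) ⁻¹' {f s}) := by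
      intro C hC
      obtain ⟨φ, hφ, rfl⟩ := orbit_cl hX hA' hpos hC
      have hx : φ 0 ∈ E := ⟨s, φ, hφ, rfl⟩
      have h1 := hP (φ 0) hx
      refine ⟨φ 0, ⟨hx, ?_⟩, ?_⟩
      · simp only [mem_preimage, mem_singleton_iff]
        rw [eq_param' hpos h1.1 hφ h1.2]
      · simp only
        rw [eq_sol' hX hA' hpos h1.1 hφ h1.2]
    exact (encard_le_encard hsub).trans (encard_image_le _ _)
  · refine iSup_le ?_
    rintro ⟨n, u, hu, us⟩
    simp only
    have hs : ∀ i, Cl X A (P (u i)).1 (P (u i)).2 ∧ (P (u i)).2 0 = u i :=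
      fun i => hP (u i) (us i)
    have hstep : ∀ i, |f (P (u (i+1))).1 - f (P (u i)).1| ≤
        L (P (u (i+1))).2 - L (P (u i)).2 := by
      intro i
      rcases (hu (Nat.le_succ i)).eq_or_lt with h | h
      · rw [Nat.succ_eq_add_one] at h
        rw [h]; simp
      · have hlt := ordered' hX hA' hpos (hs i).1 (hs (i+1)).1
          (by rw [(hs i).2, (hs (i+1)).2]; exact h)
        rw [abs_sub_comm]
        exact hL _ _ _ _ (hs i).1 (hs (i+1)).1 hlt
    calc ∑ i ∈ Finset.range n, edist (f (P (u (i+1))).1) (f (P (u i)).1)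
        ≤ ∑ i ∈ Finset.range n, ENNReal.ofReal (L (P (u (i+1))).2 - L (P (u i)).2) := by
          refine Finset.sum_le_sum fun i _ => ?_
          rw [edist_dist, Real.dist_eq]
          exact ENNReal.ofReal_le_ofReal (hstep i)
      _ = ENNReal.ofReal (∑ i ∈ Finset.range n, (L (P (u (i+1))).2 - L (P (u i)).2)) :=
          (ENNReal.ofReal_sum_of_nonneg fun i _ => (abs_nonneg _).trans (hstep i)).symm
      _ = ENNReal.ofReal (L (P (u n)).2 - L (P (u 0)).2) := by
          rw [Finset.sum_range_sub (fun i => L (P (u i)).2)]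
      _ ≤ ENNReal.ofReal (M₀ - m₀) := by
          apply ENNReal.ofReal_le_ofReal
          have h1 := (hb _ _ (hs n).1).2
          have h2 := (hb _ _ (hs 0).1).1
          linarith

/-- two-sided form of the difference of the parameters -/
theorem param_diff_two (hX : ContDiff ℝ 1 X) (hA : ∀ t, (ray A t).OrdConnected)
    (hpos : ∀ p ∈ A, 0 < an X p) {s₁ s₂ : ℝ} {φ ψ : ℝ → ℝ}
    (hφ : Cl X A s₁ φ) (hψ : Cl X A s₂ ψ) (hlt : ∀ t ∈ Icc 0 (2 * Real.pi), φ t < ψ t)
    {m M : ℝ} (hmM : ∀ p ∈ A, m ≤ dv X p ∧ dv X p ≤ M) :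
    (m + 2 * s₁) / 2 * (En ψ - En φ) ≤ (s₁ - s₂) * En ψ ∧
      (s₁ - s₂) * En ψ ≤ (M + 2 * s₁) / 2 * (En ψ - En φ) := by
  have h1 := flux_two hX hpos hφ hψ
  have h2 := int_bounds (fam_contDiff hX s₁) (r₁ := fun t => Real.exp (φ t))
    (r₂ := fun t => Real.exp (ψ t)) hφ.rcont hψ.rcont
    (fun t _ => (Real.exp_pos _).le) (fun t ht => Real.exp_le_exp.2 (hlt t ht).le)
    (a := m + 2 * s₁) (b := M + 2 * s₁) (fun t ht l hl => by
      rw [dv_fam hX]
      have := hmM _ (pp_mem hA hφ hψ t (hlt t ht).le hl)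
      constructor <;> linarith [this.1, this.2])
  rw [← h1] at h2
  exact h2

/-- integral of `1 / (a + 2 s)` -/
lemma int_inv {a x y : ℝ} (hxy : x ≤ y) (hx : 0 < a + 2 * x) :
    ∫ s in x..y, (a + 2 * s)⁻¹ = (Real.log (a + 2 * y) - Real.log (a + 2 * x)) / 2 := by
  have hp : ∀ s ∈ uIcc x y, 0 < a + 2 * s := by
    intro s hs
    rw [uIcc_of_le hxy] at hs
    linarith [hs.1]
  have hd : ∀ s ∈ uIcc x y, HasDerivAt (fun s => Real.log (a + 2 * s) / 2) ((a + 2 * s)⁻¹) s := by
    intro s hs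
    have h1 : HasDerivAt (fun s : ℝ => a + 2 * s) 2 s := by
      simpa using ((hasDerivAt_id s).const_mul 2).const_add a
    have h2 := (h1.log (hp s hs).ne').div_const 2
    refine h2.congr_deriv ?_
    have := (hp s hs).ne'
    field_simp
  have hc : ContinuousOn (fun s => (a + 2 * s)⁻¹) (uIcc x y) :=
    ContinuousOn.inv₀ (by fun_prop) (fun s hs => (hp s hs).ne')
  rw [intervalIntegral.integral_eq_sub_of_hasDerivAt hd hc.intervalIntegrable]
  ring

/-- **Sharp weighted form.** -/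
theorem weighted_mean (hX : ContDiff ℝ 1 X) (hA : ∀ t, (ray A t).OrdConnected)
    (hpos : ∀ p ∈ A, 0 < an X p) {r₁ r₂ : ℝ} (h1 : 0 < r₁) (h12 : r₁ ≤ r₂)
    (hr : ∀ p ∈ A, r₁ ^ 2 ≤ p.1 ^ 2 + p.2 ^ 2 ∧ p.1 ^ 2 + p.2 ^ 2 ≤ r₂ ^ 2)
    {m M : ℝ} (hlt : m < M) (hmM : ∀ p ∈ A, m ≤ dv X p ∧ dv X p ≤ M) :
    ∃ G : ℝ → ℝ≥0∞, Measurable G ∧
      (∀ s, ((closedOrbitsIn (fam X s) A).encard : ℝ≥0∞) ≤ G s) ∧
      ∫⁻ s, G s / ENNReal.ofReal (max (M + 2 * s) (-m - 2 * s)) ≤
        ENNReal.ofReal (Real.log (r₂ / r₁)) := by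
  have hpi := Real.two_pi_pos
  have hr2 : 0 < r₂ := h1.trans_le h12
  set κ : ℝ → ℝ := fun s => max (M + 2 * s) (-m - 2 * s) with hκ
  have hκp : ∀ s, 0 < κ s := by
    intro s
    simp only [hκ]
    rcases le_or_gt (M + 2 * s) 0 with h | h
    · exact lt_max_of_lt_right (by linarith)
    · exact lt_max_of_lt_left h
  have hκc : Continuous κ := by
    simp only [hκ]
    fun_prop
  have hic : Continuous (fun s => (κ s)⁻¹) := hκc.inv₀ (fun s => (hκp s).ne')
  set σ : ℝ → ℝ := fun s => ∫ τ in (0:ℝ)..s, (κ τ)⁻¹ with hσ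
  have hσd : ∀ s, HasDerivAt σ ((κ s)⁻¹) s := fun s =>
    intervalIntegral.integral_hasDerivAt_right (hic.intervalIntegrable _ _)
      (hic.stronglyMeasurableAtFilter _ _) hic.continuousAt
  have hσm : StrictMono σ := strictMono_of_deriv_pos fun s => by
    rw [(hσd s).deriv]; exact inv_pos.2 (hκp s)
  have hσdiff : ∀ x y, σ y - σ x = ∫ τ in x..y, (κ τ)⁻¹ := fun x y =>
    intervalIntegral.integral_interval_sub_left (hic.intervalIntegrable _ _)
      (hic.intervalIntegrable _ _)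
  have hstep : ∀ s₁ s₂ : ℝ, ∀ φ ψ : ℝ → ℝ, Cl X A s₁ φ → Cl X A s₂ ψ →
      (∀ t ∈ Icc 0 (2 * Real.pi), φ t < ψ t) →
      |σ s₁ - σ s₂| ≤ 1 / 2 * Real.log (En ψ) - 1 / 2 * Real.log (En φ) := by
    intro s₁ s₂ φ ψ hφ hψ hφψ
    have e1 := En_pos hφ
    have e2 := En_pos hψ
    have e3 := En_lt hφ hψ hφψ
    obtain ⟨hd1, hd2⟩ := param_diff_two hX hA hpos hφ hψ hφψ hmM
    have hlog0 : 0 ≤ 1 / 2 * Real.log (En ψ) - 1 / 2 * Real.log (En φ) := by
      have := Real.log_le_log e1 e3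
      linarith
    rcases lt_trichotomy s₁ s₂ with h | h | h
    · -- inner parameter smaller
      set c := -m - 2 * s₁ with hc
      set d := -m - 2 * s₂ with hd
      have hcd : (s₂ - s₁) * En ψ ≤ c / 2 * (En ψ - En φ) := by rw [hc]; linarith
      have hkey : c * En φ ≤ d * En ψ := by
        have : d = c - 2 * (s₂ - s₁) := by rw [hc, hd]; ring
        rw [this]; linarith
      have hcpos : 0 < c := by
        by_contra hcon
        push Not at hcon
        have h3 : 0 < (s₂ - s₁) * En ψ := mul_pos (by linarith) e2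
        have h4 : c / 2 * (En ψ - En φ) ≤ 0 :=
          mul_nonpos_of_nonpos_of_nonneg (by linarith) (by linarith)
        linarith
      have hdpos : 0 < d := by
        by_contra hcon
        push Not at hcon
        have h3 : 0 < c * En φ := mul_pos hcpos e1
        have h4 : d * En ψ ≤ 0 := mul_nonpos_of_nonpos_of_nonneg hcon e2.le
        linarith
      rw [abs_sub_comm, abs_of_nonneg (by linarith [hσm h]), hσdiff]
      have hb1 : ∫ τ in s₁..s₂, (κ τ)⁻¹ ≤ ∫ τ in s₁..s₂, (-m - 2 * τ)⁻¹ := by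
        refine intervalIntegral.integral_mono_on h.le (hic.intervalIntegrable _ _) ?_ ?_
        · refine ContinuousOn.intervalIntegrable ?_
          refine ContinuousOn.inv₀ (by fun_prop) (fun τ hτ => ?_)
          rw [uIcc_of_le h.le] at hτ
          have : 0 < -m - 2 * τ := by linarith [hτ.2]
          exact this.ne'
        · intro τ hτ
          have : 0 < -m - 2 * τ := by linarith [hτ.2]
          exact inv_anti₀ this (le_max_right _ _)
      have hb2 : ∫ τ in s₁..s₂, (-m - 2 * τ)⁻¹ = (Real.log c - Real.log d) / 2 := by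
        have h5 := intervalIntegral.integral_comp_neg (a := s₁) (b := s₂)
          (fun τ => (-m + 2 * τ)⁻¹)
        have h6 : ∫ τ in s₁..s₂, (-m - 2 * τ)⁻¹ = ∫ τ in s₁..s₂, (-m + 2 * (-τ))⁻¹ :=
          intervalIntegral.integral_congr fun τ _ => by ring_nf
        rw [h6, h5, int_inv (by linarith) (by linarith)]
        rw [hc, hd]
        ring_nf
      have hb3 : Real.log c - Real.log d ≤ Real.log (En ψ) - Real.log (En φ) := by
        have := Real.log_le_log (mul_pos hcpos e1) hkey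
        rw [Real.log_mul hcpos.ne' e1.ne', Real.log_mul hdpos.ne' e2.ne'] at this
        linarith
      linarith
    · rw [h, sub_self, abs_zero]; exact hlog0
    · -- inner parameter larger
      set c := M + 2 * s₁ with hc
      set d := M + 2 * s₂ with hd
      have hkey : c * En φ ≤ d * En ψ := by
        have : d = c - 2 * (s₁ - s₂) := by rw [hc, hd]; ring
        rw [this]; linarith
      have hcpos : 0 < c := by
        by_contra hcon
        push Not at hcon
        have h3 : 0 < (s₁ - s₂) * En ψ := mul_pos (by linarith) e2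
        have h4 : c / 2 * (En ψ - En φ) ≤ 0 :=
          mul_nonpos_of_nonpos_of_nonneg (by linarith) (by linarith)
        linarith
      have hdpos : 0 < d := by
        by_contra hcon
        push Not at hcon
        have h3 : 0 < c * En φ := mul_pos hcpos e1
        have h4 : d * En ψ ≤ 0 := mul_nonpos_of_nonpos_of_nonneg hcon e2.le
        linarith
      rw [abs_of_nonneg (by linarith [hσm h]), hσdiff]
      have hb1 : ∫ τ in s₂..s₁, (κ τ)⁻¹ ≤ ∫ τ in s₂..s₁, (M + 2 * τ)⁻¹ := by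
        refine intervalIntegral.integral_mono_on h.le (hic.intervalIntegrable _ _) ?_ ?_
        · refine ContinuousOn.intervalIntegrable ?_
          refine ContinuousOn.inv₀ (by fun_prop) (fun τ hτ => ?_)
          rw [uIcc_of_le h.le] at hτ
          have : 0 < M + 2 * τ := by linarith [hτ.1]
          exact this.ne'
        · intro τ hτ
          have : 0 < M + 2 * τ := by linarith [hτ.1]
          exact inv_anti₀ this (le_max_left _ _)
      have hb2 := int_inv (a := M) h.le hdpos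
      have hb3 : Real.log c - Real.log d ≤ Real.log (En ψ) - Real.log (En φ) := by
        have := Real.log_le_log (mul_pos hcpos e1) hkey
        rw [Real.log_mul hcpos.ne' e1.ne', Real.log_mul hdpos.ne' e2.ne'] at this
        linarith
      linarith
  obtain ⟨g, hgm, hg, hgi⟩ := count_bound_w hX hA hpos σ (fun φ => 1 / 2 * Real.log (En φ))
    (1 / 2 * Real.log (2 * Real.pi * r₁ ^ 2)) (1 / 2 * Real.log (2 * Real.pi * r₂ ^ 2))
    hstep (fun s φ hφ => by
      constructor
      · refine mul_le_mul_of_nonneg_left ?_ (by norm_num)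
        exact Real.log_le_log (by positivity) (le_En hφ fun p hp => (hr p hp).1)
      · refine mul_le_mul_of_nonneg_left ?_ (by norm_num)
        exact Real.log_le_log (En_pos hφ) (En_le hφ fun p hp => (hr p hp).2))
  have hσc : Continuous σ := continuous_iff_continuousAt.2 fun s => (hσd s).continuousAt
  refine ⟨fun s => g (σ s), hgm.comp hσc.measurable, hg, ?_⟩
  have hconst : Real.log (r₂ / r₁) =
      1 / 2 * Real.log (2 * Real.pi * r₂ ^ 2) - 1 / 2 * Real.log (2 * Real.pi * r₁ ^ 2) := by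
    rw [Real.log_mul hpi.ne' (by positivity), Real.log_mul hpi.ne' (by positivity),
      Real.log_pow, Real.log_pow, Real.log_div hr2.ne' h1.ne']
    push_cast
    ring
  rw [hconst]
  refine le_trans ?_ hgi
  have hcov := lintegral_image_eq_lintegral_abs_deriv_mul (s := univ) (f := σ)
    (f' := fun s => (κ s)⁻¹) MeasurableSet.univ (fun s _ => (hσd s).hasDerivWithinAt)
    hσm.injective.injOn g
  calc ∫⁻ s, g (σ s) / ENNReal.ofReal (κ s)
      = ∫⁻ s in univ, ENNReal.ofReal |(κ s)⁻¹| * g (σ s) := by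
        rw [Measure.restrict_univ]
        refine lintegral_congr fun s => ?_
        rw [abs_of_pos (inv_pos.2 (hκp s)), ENNReal.ofReal_inv_of_pos (hκp s), div_eq_mul_inv,
          mul_comm]
    _ = ∫⁻ x in σ '' univ, g x := hcov.symm
    _ ≤ ∫⁻ x, g x := setLIntegral_le_lintegral _ _

end Pool.Agent.U588.TR
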